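import Pool.Agent.U739.IS.Tr

set_option autoImplicit false

/-! # Families of power series whose coefficients are polynomials in `s` -/

namespace Pool.Agent.U739.IS

open MvPowerSeries

variable {m : ℕ}

/-- the coefficients are polynomials in `s` -/
def CP (y : ℂ → T m) : Prop := ∀ β, ∃ q : Polynomial ℂ, ∀ z, coeff β (y z) = q.eval z

theorem CP_const (c : T m) : CP fun _ => c := fun β => ⟨Polynomial.C (coeff β c), fun z => by
  rw [Polynomial.eval_C]⟩

theorem CP_add {y y' : ℂ → T m} (h : CP y) (h' : CP y') : CP fun z => y z + y' z := by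
  intro β
  obtain ⟨q, hq⟩ := h β
  obtain ⟨q', hq'⟩ := h' β
  exact ⟨q + q', fun z => by rw [map_add, hq, hq', Polynomial.eval_add]⟩

theorem CP_sum {ι : Type} (S : Finset ι) {y : ι → ℂ → T m} (h : ∀ i, CP (y i)) :
    CP fun z => ∑ i ∈ S, y i z := by
  classical
  induction S using Finset.induction_on with
  | empty => simpa using CP_const 0
  | insert i S hi ih =>
    simp only [Finset.sum_insert hi]
    exact CP_add (h i) ih

theorem CP_mul {y : ℂ → T m} (h : CP y) (c : T m) : CP fun z => c * y z := by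
  classical
  intro β
  choose q hq using h
  refine ⟨∑ x ∈ Finset.HasAntidiagonal.antidiagonal β, Polynomial.C (coeff x.1 c) * q x.2, fun z => ?_⟩
  rw [coeff_mul, Polynomial.eval_finsetSum]
  refine Finset.sum_congr rfl fun x _ => ?_
  rw [Polynomial.eval_mul, Polynomial.eval_C, hq]

theorem CP_poly {y : ℂ → T m} (h : CP y) (r : Polynomial ℂ) : CP fun z => r.eval z • y z := by
  intro β
  obtain ⟨q, hq⟩ := h β
  refine ⟨r * q, fun z => ?_⟩
  rw [map_smul, smul_eq_mul, hq, Polynomial.eval_mul]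

theorem CP_pderiv {y : ℂ → T m} (h : CP y) (i : Fin m) : CP fun z => pderiv ℂ i (y z) := by
  intro β
  obtain ⟨q, hq⟩ := h (β + Finsupp.single i 1)
  refine ⟨Polynomial.C ((β i : ℂ) + 1) * q, fun z => ?_⟩
  rw [coeff_pderiv, Polynomial.eval_mul, Polynomial.eval_C, hq]
  ring

theorem CP_comp {y : ℂ → T m} (h : CP y) (r : Polynomial ℂ) : CP fun z => y (r.eval z) := by
  intro β
  obtain ⟨q, hq⟩ := h β
  exact ⟨q.comp r, fun z => by rw [hq, Polynomial.eval_comp]⟩

theorem CP_ext {y y' : ℂ → T m} (h : CP y) (h' : CP y') (hn : ∀ n : ℕ, y n = y' n) (z : ℂ) :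
    y z = y' z := by
  ext β
  obtain ⟨q, hq⟩ := h β
  obtain ⟨q', hq'⟩ := h' β
  have h1 : q = q' := by
    rw [← sub_eq_zero]
    apply Polynomial.eq_zero_of_infinite_isRoot
    refine Set.infinite_of_injective_forall_mem (f := fun n : ℕ => (n : ℂ)) Nat.cast_injective ?_
    intro n
    show (q - q').eval (n : ℂ) = 0
    rw [Polynomial.eval_sub, ← hq, ← hq', hn, sub_self]
  rw [hq, hq', h1]

/-- the action of an operator on the powers of `u` -/
def Act (S : P m →ₐ[ℂ] T m) (u : T m) (Q : Module.End ℂ (P m)) : Prop :=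
  ∃ Q' : Module.End ℂ (T m), (∀ x, Q' (S x) = S (Q x)) ∧
    ∀ y : ℂ → T m, CP y → ∃ z : ℂ → T m, CP z ∧ ∀ t : ℕ, Q' (u ^ t * y t) = u ^ t * z t

variable {S : P m →ₐ[ℂ] T m} {u : T m}

theorem Act_algebraMap (r : ℂ) : Act S u (algebraMap ℂ _ r) := by
  refine ⟨algebraMap ℂ _ r, fun x => ?_, fun y hy => ⟨fun z => r • y z, ?_, fun t => ?_⟩⟩
  · change r • S x = S (r • x)
    rw [map_smul]
  · have := CP_poly hy (Polynomial.C r)
    simpa using this
  · change r • (u ^ t * y t) = u ^ t * r • y t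
    rw [mul_smul_comm]

theorem Act_add {Q R : Module.End ℂ (P m)} (hQ : Act S u Q) (hR : Act S u R) :
    Act S u (Q + R) := by
  obtain ⟨Q', h1, h2⟩ := hQ
  obtain ⟨R', h3, h4⟩ := hR
  refine ⟨Q' + R', fun x => ?_, fun y hy => ?_⟩
  · rw [LinearMap.add_apply, LinearMap.add_apply, h1, h3, map_add]
  · obtain ⟨z, hz, hz2⟩ := h2 y hy
    obtain ⟨z', hz', hz'2⟩ := h4 y hy
    exact ⟨fun t => z t + z' t, CP_add hz hz', fun t => by
      rw [LinearMap.add_apply, hz2, hz'2, mul_add]⟩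

theorem Act_mul {Q R : Module.End ℂ (P m)} (hQ : Act S u Q) (hR : Act S u R) :
    Act S u (Q * R) := by
  obtain ⟨Q', h1, h2⟩ := hQ
  obtain ⟨R', h3, h4⟩ := hR
  refine ⟨Q' * R', fun x => ?_, fun y hy => ?_⟩
  · rw [Module.End.mul_apply, Module.End.mul_apply, h3, h1]
  · obtain ⟨z, hz, hz2⟩ := h4 y hy
    obtain ⟨z', hz', hz'2⟩ := h2 z hz
    exact ⟨z', hz', fun t => by rw [Module.End.mul_apply, hz2, hz'2]⟩

theorem Act_X (i : Fin m) : Act S u (LinearMap.mulLeft ℂ (MvPolynomial.X i)) := by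
  refine ⟨LinearMap.mulLeft ℂ (S (MvPolynomial.X i)), fun x => ?_, fun y hy =>
    ⟨fun z => S (MvPolynomial.X i) * y z, CP_mul hy _, fun t => ?_⟩⟩
  · rw [LinearMap.mulLeft_apply, LinearMap.mulLeft_apply, map_mul]
  · rw [LinearMap.mulLeft_apply]; ring

theorem Act_d (v : T m) (huv : u * v = 1) (hS : ∀ (i : Fin m) (x : P m),
      pderiv ℂ i (S x) = S (MvPolynomial.pderiv i x)) (i : Fin m) :
    Act S u ((MvPolynomial.pderiv i : Derivation ℂ (P m) (P m)) : P m →ₗ[ℂ] P m) := by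
  refine ⟨((pderiv ℂ i : Derivation ℂ (T m) (T m)) : T m →ₗ[ℂ] T m), fun x => hS i x, fun y hy =>
    ⟨fun z => pderiv ℂ i (y z) + z • ((v * pderiv ℂ i u) * y z), ?_, fun t => ?_⟩⟩
  · refine CP_add (CP_pderiv hy i) ?_
    have := CP_poly (CP_mul hy (v * pderiv ℂ i u)) Polynomial.X
    simpa using this
  · change pderiv ℂ i (u ^ t * y t) = _
    rw [Derivation.leibniz, Derivation.leibniz_pow, smul_eq_mul, smul_eq_mul, smul_eq_mul,
      mul_add, ← Nat.cast_smul_eq_nsmul ℂ, mul_smul_comm, mul_smul_comm]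
    congr 1
    rcases t with _ | t
    · simp
    · congr 1
      rw [Nat.add_sub_cancel, pow_succ]
      linear_combination (-(u ^ t * pderiv ℂ i u * y (t + 1 : ℕ))) * huv

end Pool.Agent.U739.IS
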