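import Pool.Agent.U739.IS.Kg
import Pool.Agent.N127.PB.A1

set_option autoImplicit false

/-! # The descent of the pole order -/

namespace Pool.Agent.U739.IS

open MvPolynomial Pool.Agent.U184 Pool.Agent.W574.CN

variable {m : ℕ}

/-- a field of degree `d k + 1` which annihilates `f`, with divergence `c f ^ k` -/
structure St (f : P (m + 1)) (d : ℕ) (α : ℂ) (k : ℕ) (v : Fin (m + 1) → P (m + 1)) (c : ℂ) :
    Prop where
  hom : ∀ i, (v i).IsHomogeneous (d * k + 1)
  van : ∑ i, v i * pderiv i f = 0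
  dv : ∑ i, pderiv i (v i) = C c * f ^ k
  ct : ∃ (K : ℕ) (w : Fin m → P m) (h : P m), deh 0 f ^ (K + 1) * deh 0 (v 0) =
    deh 0 f * ∑ t, pderiv t (w t) - C (α + k + K) * ∑ t, w t * pderiv t (deh 0 f) +
      deh 0 f ^ (k + K + 1) * h

variable {f : P (m + 1)} {d : ℕ} {α : ℂ}

theorem deh_pd (a : P (m + 1)) (t : Fin m) : deh 0 (pderiv t.succ a) = pderiv t (deh 0 a) :=
  deh_pderiv 0 t a

theorem deh_C (c : ℂ) : deh (0 : Fin (m + 1)) (C c) = C c := (deh 0).commutes c

theorem deh_pd0 {e : ℕ} {a : P (m + 1)} (ha : a.IsHomogeneous e) :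
    deh 0 (pderiv 0 a) = C (e : ℂ) * deh 0 a - ∑ t, X t * pderiv t (deh 0 a) := by
  have := deh_euler (0 : Fin (m + 1)) (N := (e : ℤ)) (g := a) (Or.inr ⟨e, rfl, ha⟩)
  rw [this, smul_eq_C_mul]
  push_cast
  rfl

/-- the chart field -/
noncomputable def cf (v : Fin (m + 1) → P (m + 1)) (t : Fin m) : P m :=
  deh 0 (v t.succ) - X t * deh 0 (v 0)

theorem cf_apply (hf : f.IsHomogeneous d) (v : Fin (m + 1) → P (m + 1)) :
    ∑ t, cf v t * pderiv t (deh 0 f) =
      deh 0 (∑ i, v i * pderiv i f) - C (d : ℂ) * deh 0 (v 0) * deh 0 f := by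
  rw [Fin.sum_univ_succ, map_add, map_mul, deh_pd0 hf, map_sum]
  have h1 : ∀ t : Fin m, deh 0 (v t.succ * pderiv t.succ f) =
      deh 0 (v t.succ) * pderiv t (deh 0 f) := by
    intro t
    rw [map_mul, deh_pd]
  have h2 : ∀ t : Fin m, cf v t * pderiv t (deh 0 f) = deh 0 (v t.succ) * pderiv t (deh 0 f) -
      deh 0 (v 0) * (X t * pderiv t (deh 0 f)) := by
    intro t
    rw [cf]; ring
  rw [Finset.sum_congr rfl fun t _ => h1 t, Finset.sum_congr rfl fun t _ => h2 t,
    Finset.sum_sub_distrib, ← Finset.mul_sum]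
  ring

theorem cf_div {e : ℕ} (v : Fin (m + 1) → P (m + 1)) (hv : (v 0).IsHomogeneous e) :
    ∑ t, pderiv t (cf v t) = deh 0 (∑ i, pderiv i (v i)) - C ((e : ℂ) + m) * deh 0 (v 0) := by
  rw [Fin.sum_univ_succ, map_add, deh_pd0 hv, map_sum]
  have h2 : ∀ t : Fin m, pderiv t (cf v t) = deh 0 (pderiv t.succ (v t.succ)) -
      (deh 0 (v 0) + X t * pderiv t (deh 0 (v 0))) := by
    intro t
    rw [cf, map_sub, Derivation.leibniz, pderiv_X_self, smul_eq_mul, smul_eq_mul, deh_pd]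
    ring
  rw [Finset.sum_congr rfl fun t _ => h2 t, Finset.sum_sub_distrib, Finset.sum_add_distrib,
    Finset.sum_const, Finset.card_univ, Fintype.card_fin, nsmul_eq_mul, map_add, map_natCast,
    map_natCast]
  ring

/-- the singular points in the chart are weighted homogeneous -/
def WHall (f : P (m + 1)) : Prop := ∀ p : Fin m → ℂ, eval p (deh 0 f) = 0 →
  (∀ t, eval p (pderiv t (deh 0 f)) = 0) → WHIso (deh 0 f) p

theorem st_mem (h : FH f d) (hW : WHall f) (hαd : α * d = m + 1) (hα : ∀ j : ℕ, α + j ≠ 0)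
    (k : ℕ) (hk : 1 ≤ k) (v : Fin (m + 1) → P (m + 1)) (c : ℂ) (hS : St f d α k v c) :
    v 0 ∈ JF f := by
  have hd0 : (d : ℂ) ≠ 0 := Nat.cast_ne_zero.2 h.hd.ne'
  have e0 : ∑ t, cf v t * pderiv t (deh 0 f) = (- (C (d : ℂ) * deh 0 (v 0))) * deh 0 f := by
    rw [cf_apply h.hf, hS.van, map_zero]
    ring
  apply chart_mem h _ _ (hS.hom 0)
  apply local_global
  intro p
  by_cases h1 : ∃ t, eval p (pderiv t (deh 0 f)) ≠ 0
  · obtain ⟨t, ht⟩ := h1
    exact ⟨_, ht, Ideal.mul_mem_right _ _ (Ideal.subset_span ⟨t, rfl⟩)⟩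
  push Not at h1
  by_cases h2 : eval p (deh 0 f) = 0
  · obtain ⟨K, w, r, hw⟩ := hS.ct
    obtain ⟨a, ha, haH⟩ := loc_pt (deh 0 f) p (hW p h2 h1) α hα k hk K (cf v)
      (fun t => C (-(d : ℂ)) * w t) (- (C (d : ℂ) * deh 0 (v 0))) (C c) (C (-(d : ℂ)) * r)
      e0 (by
        rw [cf_div v (hS.hom 0), hS.dv, map_mul, map_pow, deh_C]
        have e1 : (α + k) * d = ((d * k + 1 : ℕ) : ℂ) + m := by
          push_cast
          linear_combination hαd
        rw [← e1, map_mul]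
        ring) (by
        have e2 : ∀ t, pderiv t (C (-(d : ℂ)) * w t) = C (-(d : ℂ)) * pderiv t (w t) := by
          intro t
          rw [← smul_eq_C_mul, Derivation.map_smul, smul_eq_C_mul]
        have e3 : ∀ t, C (-(d : ℂ)) * w t * pderiv t (deh 0 f) =
            C (-(d : ℂ)) * (w t * pderiv t (deh 0 f)) := fun t => by ring
        rw [Finset.sum_congr rfl fun t _ => e2 t, Finset.sum_congr rfl fun t _ => e3 t,
          ← Finset.mul_sum, ← Finset.mul_sum, map_neg]
        linear_combination (-C (d : ℂ)) * hw)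
    refine ⟨a, ha, ?_⟩
    have h3 := (jac (deh 0 f)).mul_mem_left (C (-(d : ℂ)⁻¹)) haH
    have e3 : C (-(d : ℂ)⁻¹) * (a * (- (C (d : ℂ) * deh 0 (v 0)))) = a * deh 0 (v 0) := by
      have e4 : C ((d : ℂ)⁻¹) * C (d : ℂ) = (1 : P m) := by
        rw [← map_mul, inv_mul_cancel₀ hd0, map_one]
      rw [map_neg]
      linear_combination (a * deh 0 (v 0)) * e4
    rwa [e3] at h3
  · refine ⟨deh 0 f, h2, ?_⟩
    have h3 : (- (C (d : ℂ) * deh 0 (v 0))) * deh 0 f ∈ jac (deh 0 f) := by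
      rw [← e0]
      exact Ideal.sum_mem _ fun t _ => Ideal.mul_mem_left _ _ (Ideal.subset_span ⟨t, rfl⟩)
    have h4 := (jac (deh 0 f)).mul_mem_left (C (-(d : ℂ)⁻¹)) h3
    have e3 : C (-(d : ℂ)⁻¹) * ((- (C (d : ℂ) * deh 0 (v 0))) * deh 0 f) =
        deh 0 f * deh 0 (v 0) := by
      have e4 : C ((d : ℂ)⁻¹) * C (d : ℂ) = (1 : P m) := by
        rw [← map_mul, inv_mul_cancel₀ hd0, map_one]
      rw [map_neg]
      linear_combination (deh 0 f * deh 0 (v 0)) * e4
    rwa [e3] at h4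

/-- **One step of the descent.** -/
theorem st_step (h : FH f d) (hW : WHall f) (hαd : α * d = m + 1) (hα : ∀ j : ℕ, α + j ≠ 0)
    (k : ℕ) (v : Fin (m + 1) → P (m + 1)) (c : ℂ) (hS : St f d α (k + 1) v c) :
    ∃ v', St f d α k v' (-(α + k) * c) := by
  have hd0 : (d : ℂ) ≠ 0 := Nat.cast_ne_zero.2 h.hd.ne'
  have e1 : d * (k + 1) + 1 = d * k + 2 + (d - 1) := by
    have := h.hd
    rw [mul_add]; omega
  obtain ⟨A, hAh, hA1, hA2, hA3⟩ := koszul_field h (d * k + 2) v
    (fun i => by rw [← e1]; exact hS.hom i) hS.van (st_mem h hW hαd hα (k + 1) (by omega) v c hS)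
  let z : Fin (m + 1) → P (m + 1) := fun j => ∑ i, pderiv i (A i j)
  have hz : ∀ j, z j = ∑ i, pderiv i (A i j) := fun j => rfl
  have hcomm : ∀ (i j : Fin (m + 1)) (x : P (m + 1)), pderiv i (pderiv j x) =
      pderiv j (pderiv i x) := fun i j x => Pool.Agent.N127.PB.A1.pd_comm i j x
  have hzh : ∀ j, (z j).IsHomogeneous (d * k + 1) := fun j =>
    IsHomogeneous.sum _ _ _ fun i _ => (hAh i j).pderiv
  have hzdiv : ∑ j, pderiv j (z j) = 0 :=
    div_div (fun i => (pderiv i : Derivation ℂ (P (m + 1)) (P (m + 1)))) hcomm A hA1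
  have hzf : ∑ j, z j * pderiv j f = C c * f ^ (k + 1) := by
    have h1 := div_koszul (fun i => (pderiv i : Derivation ℂ (P (m + 1)) (P (m + 1)))) hcomm f A hA1
    rw [← hS.dv, ← h1]
    exact Finset.sum_congr rfl fun i _ => by rw [hA3 i]
  have hEf : ∑ j, X j * pderiv j f = C (d : ℂ) * f := by
    have := h.hf.sum_X_mul_pderiv
    rw [this, nsmul_eq_mul, map_natCast]
  have hEk : ∑ j, X j * pderiv j (f ^ k) = C ((d : ℂ) * k) * f ^ k := by
    have := (h.hf.pow k).sum_X_mul_pderiv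
    rw [this, nsmul_eq_mul, map_mul, map_natCast, map_natCast]
    push_cast
    ring
  have hdd : C (c / d) * C (d : ℂ) = (C c : P (m + 1)) := by
    rw [← map_mul, div_mul_cancel₀ _ hd0]
  refine ⟨fun j => z j - C (c / d) * (f ^ k * X j), ⟨fun j => ?_, ?_, ?_, ?_⟩⟩
  · refine (hzh j).sub (IsHomogeneous.C_mul ?_ _)
    exact (h.hf.pow k).mul (isHomogeneous_X ℂ j)
  · have e2 : ∀ j, (z j - C (c / d) * (f ^ k * X j)) * pderiv j f =
        z j * pderiv j f - (C (c / d) * f ^ k) * (X j * pderiv j f) := fun j => by ring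
    rw [Finset.sum_congr rfl fun j _ => e2 j, Finset.sum_sub_distrib, ← Finset.mul_sum, hzf, hEf,
      pow_succ]
    linear_combination (-(f ^ k * f)) * hdd
  · have e2 : ∀ j, pderiv j (z j - C (c / d) * (f ^ k * X j)) =
        pderiv j (z j) - C (c / d) * (f ^ k + X j * pderiv j (f ^ k)) := by
      intro j
      rw [map_sub, Derivation.leibniz, pderiv_C, smul_zero, add_zero, Derivation.leibniz,
        pderiv_X_self, smul_eq_mul, smul_eq_mul, smul_eq_mul]
      ring
    rw [Finset.sum_congr rfl fun j _ => e2 j, Finset.sum_sub_distrib, ← Finset.mul_sum,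
      Finset.sum_add_distrib, hzdiv, hEk, Finset.sum_const, Finset.card_univ, Fintype.card_fin,
      nsmul_eq_mul]
    have e3 : (-(α + k) * c) = - (c / d * ((m + 1) + d * k)) := by
      rw [← hαd]
      field_simp
    rw [e3]
    simp only [map_neg, map_mul, map_add, map_natCast, map_one]
    push_cast
    ring
  · obtain ⟨K, w, r, hw⟩ := hS.ct
    set g := deh 0 f with hg
    let β : Fin m → P m := fun t => deh 0 (A t.succ 0)
    have hβ : ∀ t, β t = deh 0 (A t.succ 0) := fun t => rfl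
    have h1 : deh 0 (z 0) = ∑ t, pderiv t (β t) := by
      rw [hz, Fin.sum_univ_succ, hA2, map_zero, zero_add, map_sum]
      exact Finset.sum_congr rfl fun t _ => by rw [deh_pd]
    have h2 : deh 0 (v 0) = - ∑ t, β t * pderiv t g := by
      rw [hA3 0, Fin.sum_univ_succ, hA2, zero_mul, zero_add, map_sum, ← Finset.sum_neg_distrib]
      refine Finset.sum_congr rfl fun t _ => ?_
      rw [hA1 0 t.succ, map_mul, map_neg, deh_pd]
      ring
    refine ⟨K + 1, fun t => C (-(α + k)) * w t + g ^ (K + 1) * β t, C (-(α + k)) * r - C (c / d), ?_⟩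
    have e2 : ∀ t, pderiv t (C (-(α + k)) * w t + g ^ (K + 1) * β t) =
        C (-(α + k)) * pderiv t (w t) + (g ^ (K + 1) * pderiv t (β t) +
          C ((K : ℂ) + 1) * (g ^ K * (β t * pderiv t g))) := by
      intro t
      rw [map_add, Derivation.leibniz, pderiv_C, smul_zero, add_zero, Derivation.leibniz,
        Derivation.leibniz_pow, smul_eq_mul, smul_eq_mul, smul_eq_mul, nsmul_eq_mul, smul_eq_mul,
        Nat.add_sub_cancel, map_add, map_natCast, map_one]
      push_cast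
      ring
    have e3 : ∀ t, (C (-(α + k)) * w t + g ^ (K + 1) * β t) * pderiv t g =
        C (-(α + k)) * (w t * pderiv t g) + g ^ (K + 1) * (β t * pderiv t g) := fun t => by ring
    rw [Finset.sum_congr rfl fun t _ => e2 t, Finset.sum_congr rfl fun t _ => e3 t,
      Finset.sum_add_distrib, Finset.sum_add_distrib, Finset.sum_add_distrib, ← Finset.mul_sum,
      ← Finset.mul_sum, ← Finset.mul_sum, ← Finset.mul_sum, ← Finset.mul_sum, ← Finset.mul_sum]
    have e4 : deh 0 (z 0 - C (c / d) * (f ^ k * X 0)) = deh 0 (z 0) - C (c / d) * g ^ k := by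
      rw [map_sub, map_mul, deh_C, map_mul, map_pow, deh_self, mul_one]
    rw [e4, h1]
    rw [h2] at hw
    have e5 : (α + ((k + 1 : ℕ) : ℂ) + K) = (α + k + ((K + 1 : ℕ) : ℂ)) := by push_cast; ring
    rw [e5] at hw
    have e6 : C (α + k + ((K + 1 : ℕ) : ℂ)) = (C (α + k) + C ((K : ℂ) + 1) : P m) := by
      rw [← map_add]; congr 1; push_cast; ring
    rw [e6] at hw ⊢
    rw [map_neg]
    have p1 : g ^ (K + 1 + 1) = g ^ (K + 1) * g := pow_succ _ _
    have p2 : g ^ (k + 1 + K + 1) = g ^ k * (g ^ (K + 1) * g) := by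
      rw [← pow_succ, ← pow_add]; congr 1; ring
    have p3 : g ^ (k + (K + 1) + 1) = g ^ k * (g ^ (K + 1) * g) := by
      rw [← pow_succ, ← pow_add]; congr 1
    have p4 : g ^ K * g = g ^ (K + 1) := (pow_succ _ _).symm
    rw [p2] at hw
    rw [p1, p3]
    linear_combination (-C (α + k)) * hw - (C ((K : ℂ) + 1) * ∑ t, β t * pderiv t g) * p4

/-- no linear field `v` with `v(f) = 0` and nonzero divergence -/
def NoLin (f : P (m + 1)) : Prop := ∀ v : Fin (m + 1) → P (m + 1),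
  (∀ i, (v i).IsHomogeneous 1) → ∑ i, v i * pderiv i f = 0 → ∑ i, pderiv i (v i) = 0

theorem st_end (h : FH f d) (hW : WHall f) (hαd : α * d = m + 1) (hα : ∀ j : ℕ, α + j ≠ 0)
    (hL : NoLin f) : ∀ (k : ℕ) (v : Fin (m + 1) → P (m + 1)) (c : ℂ), St f d α k v c → c = 0 := by
  intro k
  induction k with
  | zero =>
    intro v c hS
    have h1 := hL v (fun i => by simpa using hS.hom i) hS.van
    rw [hS.dv, pow_zero, mul_one] at h1
    exact C_injective (Fin (m + 1)) ℂ (by rw [h1, map_zero])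
  | succ k ih =>
    intro v c hS
    obtain ⟨v', hv'⟩ := st_step h hW hαd hα k v c hS
    have := ih v' _ hv'
    exact (mul_eq_zero.1 this).resolve_left (neg_ne_zero.2 (hα k))

end Pool.Agent.U739.IS
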