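import Pool.Agent.U739.IS.Ex
import Pool.Agent.U739.IS.Gl

set_option autoImplicit false

/-! # The core theorem: the root `-(m+1)/(a d)` of the b-function of `F ^ a` -/

namespace Pool.Agent.U739.IS

open MvPolynomial Pool.Agent.H628R4.TP Pool.Agent.N127.PB Pool.Agent.W574.CN Pool.Agent.W574.SM
open Pool.Agent.U184 hiding nf_chart eval_map_deh ext_chart

/-- **The functional equation at `s = -(n+1)/d`, and to first order in the chart.** -/
theorem ext_main {n : ℕ} (f : MvPolynomial (Fin (n + 1)) ℂ) (d : ℕ) (hd : 0 < d)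
    (hf : f.IsHomogeneous d) (hf0 : f ≠ 0) (b : Polynomial ℂ) (hb : IsBFunction f b)
    (i : Fin (n + 1)) :
    ∃ (N : ℕ) (V : Fin (n + 1) → MvPolynomial (Fin (n + 1)) ℂ),
      (∀ l, (V l).IsHomogeneous (d * N + 1)) ∧
      (f * ∑ l, pderiv l (V l) + C (-((n : ℂ) + 1) / (d : ℂ) - N) * ∑ l, V l * pderiv l f =
        f ^ (N + 1) * C (b.eval (-((n : ℂ) + 1) / (d : ℂ)))) ∧
      ∃ (w1 : Fin n → MvPolynomial (Fin n) ℂ) (h1 : MvPolynomial (Fin n) ℂ),
        deh i f * ∑ t, pderiv t (w1 t) +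
          C (-((n : ℂ) + 1) / (d : ℂ) - N) * ∑ t, w1 t * pderiv t (deh i f) +
          ∑ t, (deh i (V (i.succAbove t)) - X t * deh i (V i)) * pderiv t (deh i f) =
        deh i f ^ (N + 1) * h1 := by
  classical
  obtain ⟨S, u, hu, hS⟩ := ext_vf f d hd hf b hb
  obtain ⟨N, V, hVh, hV⟩ := ext_fam f d hf S u hu
  let Y : Fin (n + 1) → ℕ → MvPolynomial (Fin (n + 1)) ℂ := fun l s =>
    homogeneousComponent (d * s + 1) (∑ m ∈ S, ((s : ℂ) ^ m) • u m l (f ^ (s + 1)))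
  have hYh : ∀ l s, (Y l s).IsHomogeneous (d * s + 1) := fun l s =>
    homogeneousComponent_isHomogeneous _ _
  have hNF : NF (deh i f) fun s => deh i (Y i s) :=
    nf_chart i f d hf S (fun m => u m i) (fun m => hu m i)
  obtain ⟨M₀, hM₀⟩ := ext_chart i f d hd b Y hYh hS N V hV hNF
  set M := N + M₀ with hM
  refine ⟨M, fun l => f ^ (M - N) * (V l).eval (C (-((n : ℂ) + 1) / (d : ℂ))), fun l => ?_, ?_, ?_⟩
  · have h1 := (hf.pow (M - N)).mul (eval_hom_family (V l) (d * N + 1) (hVh l)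
      (-((n : ℂ) + 1) / (d : ℂ)))
    have e : d * (M - N) + (d * N + 1) = d * M + 1 := by
      rw [← add_assoc, ← mul_add]; congr 2; omega
    rwa [e] at h1
  · have h1 := (id_and_deriv f hf0 M (fun l => Polynomial.C (f ^ (M - N)) * V l) (b.map C)
      (fun s hs => ?_) (-((n : ℂ) + 1) / (d : ℂ))).1
    · simp only [Polynomial.eval_mul, Polynomial.eval_C] at h1
      rw [h1, Polynomial.eval_map, Polynomial.eval₂_at_apply]
    · rw [Polynomial.eval_map, Polynomial.eval₂_at_apply, mul_comm, hS s]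
      refine Finset.sum_congr rfl fun l _ => ?_
      have e : s - M + (M - N) = s - N := by omega
      rw [hV l s (by omega), Polynomial.eval_mul, Polynomial.eval_C, ← mul_assoc, ← pow_add, e]
  · obtain ⟨w, h, hw, hw0⟩ := hM₀ M (by omega)
    have hg0 : deh i f ≠ 0 := fun h0 => hf0 (deh_inj i hf h0)
    refine ⟨fun t => (w t).derivative.eval (C (-((n : ℂ) + 1) / (d : ℂ))),
      h.derivative.eval (C (-((n : ℂ) + 1) / (d : ℂ))), ?_⟩
    have h1 := (id_and_deriv (deh i f) hg0 M w h hw (-((n : ℂ) + 1) / (d : ℂ))).2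
    simp only [hw0] at h1
    rw [← h1]
    refine congrArg₂ (· + ·) rfl ?_
    refine Finset.sum_congr rfl fun t _ => ?_
    rw [map_mul, map_mul, map_pow]
    ring

variable {m : ℕ}

theorem pd_pow {n : ℕ} (g : P n) (a : ℕ) (ha : 0 < a) (x : Fin n → P n) :
    ∑ i, x i * pderiv i (g ^ a) = C (a : ℂ) * (g ^ (a - 1) * ∑ i, x i * pderiv i g) := by
  rw [Finset.mul_sum, Finset.mul_sum]
  refine Finset.sum_congr rfl fun i _ => ?_
  rw [Derivation.leibniz_pow, smul_eq_mul, nsmul_eq_mul, map_natCast]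
  ring

/-- **The root `-(m+1)/(a d)` of the b-function of `F ^ a`.** -/
theorem core (F : P (m + 1)) (d a : ℕ) (ha : 0 < a) (h : FH F d) (hW : WHall F) (hL : NoLin F)
    (b : Polynomial ℂ) (hb : IsBFunction (F ^ a) b) :
    b.eval (-((m : ℂ) + 1) / ((d * a : ℕ) : ℂ)) = 0 := by
  have hd0 : (d : ℂ) ≠ 0 := Nat.cast_ne_zero.2 h.hd.ne'
  have ha0 : (a : ℂ) ≠ 0 := Nat.cast_ne_zero.2 ha.ne'
  obtain ⟨N, V, hVh, hV, w1, h1, hw1⟩ := ext_main (F ^ a) (d * a) (Nat.mul_pos h.hd ha) (h.hf.pow a)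
    (pow_ne_zero a h.hf0) b hb 0
  set s₀ : ℂ := -((m : ℂ) + 1) / ((d * a : ℕ) : ℂ) with hs
  set c : ℂ := b.eval s₀ with hc
  obtain ⟨α, hα⟩ : ∃ α : ℂ, α = ((m : ℂ) + 1) / d := ⟨_, rfl⟩
  have hαd : α * d = m + 1 := by rw [hα]; field_simp
  have hαj : ∀ j : ℕ, α + j ≠ 0 := by
    intro j h0
    have h2 : ((m + 1 + j * d : ℕ) : ℂ) = 0 := by
      push_cast
      linear_combination d * h0 - hαd
    have h3 := Nat.cast_eq_zero.1 h2
    omega
  have hα1 : ∀ k : ℕ, (a : ℂ) * (s₀ - k) = -(α + ((a * k : ℕ) : ℂ)) := by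
    intro k
    rw [hs, hα]
    push_cast
    field_simp
    ring
  have hα0 : α + ((a * N : ℕ) : ℂ) ≠ 0 := hαj _
  set N' := a * N with hN'
  set D := ∑ i, pderiv i (V i) with hD
  -- the equation for `F`
  have hF0 : F ≠ 0 := h.hf0
  have ep : a * (N + 1) = (a - 1) + (N' + 1) := by rw [mul_add, hN']; omega
  have ea : F ^ a = F ^ (a - 1) * F := by rw [← pow_succ]; congr 1; omega
  have hE1 : F * D - C (α + (N' : ℂ)) * ∑ i, V i * pderiv i F = F ^ (N' + 1) * C c := by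
    apply mul_left_cancel₀ (pow_ne_zero (a - 1) hF0)
    have e1 := hV
    rw [pd_pow F a ha, ← pow_mul, ep, pow_add] at e1
    have e2 : C (s₀ - N) * C (a : ℂ) = (- C (α + (N' : ℂ)) : P (m + 1)) := by
      rw [← map_mul, ← map_neg, mul_comm]; congr 1; exact hα1 N
    rw [ea] at e1
    linear_combination e1 - (F ^ (a - 1) * ∑ i, V i * pderiv i F) * e2
  have hg0 : deh 0 F ≠ 0 := fun h0 => h.hf0 (deh_inj 0 h.hf h0)
  set g := deh 0 F with hg
  have eg : g ^ a = g ^ (a - 1) * g := by rw [← pow_succ]; congr 1; omega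
  have hE2 : g * ∑ t, pderiv t (w1 t) - C (α + (N' : ℂ)) * ∑ t, w1 t * pderiv t g +
      C (a : ℂ) * ∑ t, cf V t * pderiv t g = g ^ (N' + 1) * h1 := by
    apply mul_left_cancel₀ (pow_ne_zero (a - 1) hg0)
    have e1 := hw1
    rw [map_pow, ← hg, pd_pow g a ha, pd_pow g a ha, ← pow_mul, ep, pow_add] at e1
    have e2 : C (s₀ - N) * C (a : ℂ) = (- C (α + (N' : ℂ)) : P m) := by
      rw [← map_mul, ← map_neg, mul_comm]; congr 1; exact hα1 N
    rw [eg] at e1
    have e3 : ∑ t, (deh 0 (V ((0 : Fin (m + 1)).succAbove t)) - X t * deh 0 (V 0)) * pderiv t g =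
      ∑ t, cf V t * pderiv t g := rfl
    rw [e3] at e1
    linear_combination e1 - (g ^ (a - 1) * ∑ t, w1 t * pderiv t g) * e2
  -- the factor
  obtain ⟨η, hη⟩ : ∃ η, η = C ((α + (N' : ℂ))⁻¹) * (D - C c * F ^ N') := ⟨_, rfl⟩
  have hCC : C ((α + (N' : ℂ))⁻¹) * C (α + (N' : ℂ)) = (1 : P (m + 1)) := by
    rw [← map_mul, inv_mul_cancel₀ hα0, map_one]
  have hVF : ∑ i, V i * pderiv i F = η * F := by
    have e1 : F ^ (N' + 1) = F ^ N' * F := pow_succ _ _
    rw [e1] at hE1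
    rw [hη]
    linear_combination (-C ((α + (N' : ℂ))⁻¹)) * hE1 - (∑ i, V i * pderiv i F) * hCC
  have hηD : C (α + (N' : ℂ)) * η = D - C c * F ^ N' := by
    rw [hη]
    linear_combination (D - C c * F ^ N') * hCC
  have hVh' : ∀ i, (V i).IsHomogeneous (d * N' + 1) := by
    intro i
    have := hVh i
    rwa [mul_assoc] at this
  have hηh : η.IsHomogeneous (d * N') := by
    rw [hη]
    refine IsHomogeneous.C_mul ?_ _
    refine IsHomogeneous.sub ?_ ?_
    · rw [hD]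
      exact IsHomogeneous.sum _ _ _ fun i _ => (hVh' i).pderiv
    · exact (h.hf.pow N').C_mul _
  have hEF : ∑ j, X j * pderiv j F = C (d : ℂ) * F := by
    have := h.hf.sum_X_mul_pderiv
    rw [this, nsmul_eq_mul, map_natCast]
  have hEη : ∑ j, X j * pderiv j η = C ((d : ℂ) * N') * η := by
    have := hηh.sum_X_mul_pderiv
    rw [this, nsmul_eq_mul, map_mul, map_natCast, map_natCast]
    push_cast
    ring
  have hdd : C ((d : ℂ)⁻¹) * C (d : ℂ) = (1 : P (m + 1)) := by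
    rw [← map_mul, inv_mul_cancel₀ hd0, map_one]
  refine st_end h hW hαd hαj hL N' (fun j => V j - C ((d : ℂ)⁻¹) * (η * X j)) c
    ⟨fun j => ?_, ?_, ?_, ?_⟩
  · refine (hVh' j).sub (IsHomogeneous.C_mul ?_ _)
    exact hηh.mul (isHomogeneous_X ℂ j)
  · have e2 : ∀ j, (V j - C ((d : ℂ)⁻¹) * (η * X j)) * pderiv j F =
        V j * pderiv j F - (C ((d : ℂ)⁻¹) * η) * (X j * pderiv j F) := fun j => by ring
    rw [Finset.sum_congr rfl fun j _ => e2 j, Finset.sum_sub_distrib, ← Finset.mul_sum, hVF, hEF]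
    linear_combination (-(η * F)) * hdd
  · have e2 : ∀ j, pderiv j (V j - C ((d : ℂ)⁻¹) * (η * X j)) =
        pderiv j (V j) - C ((d : ℂ)⁻¹) * (η + X j * pderiv j η) := by
      intro j
      rw [map_sub, Derivation.leibniz, pderiv_C, smul_zero, add_zero, Derivation.leibniz,
        pderiv_X_self, smul_eq_mul, smul_eq_mul, smul_eq_mul]
      ring
    rw [Finset.sum_congr rfl fun j _ => e2 j, Finset.sum_sub_distrib, ← Finset.mul_sum,
      Finset.sum_add_distrib, hEη, Finset.sum_const, Finset.card_univ, Fintype.card_fin,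
      nsmul_eq_mul, ← hD]
    have e3 : C (α + (N' : ℂ)) = C ((d : ℂ)⁻¹) * (C ((m : ℂ) + 1) + C ((d : ℂ) * N') :
        P (m + 1)) := by
      rw [← map_add, ← map_mul]; congr 1
      rw [← hαd]
      field_simp
    have e4 : ((m + 1 : ℕ) : P (m + 1)) = C ((m : ℂ) + 1) := by
      rw [map_add, map_natCast, map_one]; push_cast; ring
    rw [e3] at hηD
    rw [e4]
    linear_combination (-1 : P (m + 1)) * hηD
  · refine ⟨0, fun t => C (((a : ℂ) * d)⁻¹) * w1 t, - (C (((a : ℂ) * d)⁻¹) * h1), ?_⟩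
    have hadd : C (((a : ℂ) * d)⁻¹) * (C (a : ℂ) * C (d : ℂ)) = (1 : P m) := by
      rw [← map_mul, ← map_mul, inv_mul_cancel₀ (mul_ne_zero ha0 hd0), map_one]
    have e1 := cf_apply h.hf V
    rw [hVF, map_mul, ← hg] at e1
    have e2 : deh 0 (V 0 - C ((d : ℂ)⁻¹) * (η * X 0)) = deh 0 (V 0) - C ((d : ℂ)⁻¹) * deh 0 η := by
      rw [map_sub, map_mul, deh_C, map_mul, deh_self, mul_one]
    have e3 : ∀ t, pderiv t (C (((a : ℂ) * d)⁻¹) * w1 t) = C (((a : ℂ) * d)⁻¹) * pderiv t (w1 t) := by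
      intro t
      rw [← smul_eq_C_mul, Derivation.map_smul, smul_eq_C_mul]
    have e4 : ∀ t, C (((a : ℂ) * d)⁻¹) * w1 t * pderiv t g =
        C (((a : ℂ) * d)⁻¹) * (w1 t * pderiv t g) := fun t => by ring
    have hka : C (((a : ℂ) * d)⁻¹) * C (a : ℂ) = (C ((d : ℂ)⁻¹) : P m) := by
      rw [← map_mul]; congr 1; field_simp
    rw [e2, Finset.sum_congr rfl fun t _ => e3 t, Finset.sum_congr rfl fun t _ => e4 t,
      ← Finset.mul_sum, ← Finset.mul_sum]
    rw [e1] at hE2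
    rw [← hg]
    have e5 : α + (N' : ℂ) + ((0 : ℕ) : ℂ) = α + (N' : ℂ) := by push_cast; ring
    rw [e5, zero_add, pow_one, add_zero]
    linear_combination (-C (((a : ℂ) * d)⁻¹)) * hE2 - g * deh 0 (V 0) * hadd +
      g * deh 0 η * hka

end Pool.Agent.U739.IS
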