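import Pool.Agent.U739.IS.Nz

set_option autoImplicit false

/-! # Formal power series in `m` variables: diagonal operators, antisymmetric matrices -/

namespace Pool.Agent.U739.IS

open MvPowerSeries

/-- formal power series in `m` variables -/
abbrev T (m : ℕ) : Type := MvPowerSeries (Fin m) ℂ

variable {m : ℕ}

/-- the weight of an exponent -/
def wt (w : Fin m → ℕ) (a : Fin m →₀ ℕ) : ℕ := ∑ i, a i * w i

theorem wt_add (w : Fin m → ℕ) (a b : Fin m →₀ ℕ) : wt w (a + b) = wt w a + wt w b := by
  simp only [wt, Finsupp.add_apply, add_mul, Finset.sum_add_distrib]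

theorem wt_single (w : Fin m → ℕ) (i : Fin m) : wt w (Finsupp.single i 1) = w i := by
  unfold wt
  rw [Finset.sum_eq_single i]
  · rw [Finsupp.single_eq_same, one_mul]
  · intro j _ hj
    rw [Finsupp.single_eq_of_ne hj, zero_mul]
  · intro h
    exact absurd (Finset.mem_univ i) h

/-- the diagonal operator, which multiplies the monomials of weight `e` by `c e` -/
noncomputable def dg (w : Fin m → ℕ) (c : ℕ → ℂ) : T m →ₗ[ℂ] T m where
  toFun f := fun a => c (wt w a) * coeff a f
  map_add' f g := by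
    ext a
    show c (wt w a) * coeff a (f + g) = c (wt w a) * coeff a f + c (wt w a) * coeff a g
    rw [map_add, mul_add]
  map_smul' r f := by
    ext a
    show c (wt w a) * coeff a (r • f) = r • (c (wt w a) * coeff a f)
    rw [map_smul, smul_eq_mul, smul_eq_mul]; ring

theorem coeff_dg (w : Fin m → ℕ) (c : ℕ → ℂ) (a : Fin m →₀ ℕ) (f : T m) :
    coeff a (dg w c f) = c (wt w a) * coeff a f := rfl

theorem dg_dg (w : Fin m → ℕ) (c c' : ℕ → ℂ) (f : T m) :
    dg w c (dg w c' f) = dg w (fun e => c e * c' e) f := by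
  ext a
  rw [coeff_dg, coeff_dg, coeff_dg]; ring

theorem dg_congr (w : Fin m → ℕ) (c c' : ℕ → ℂ) (h : ∀ e, c e = c' e) (f : T m) :
    dg w c f = dg w c' f := by
  rw [show c = c' from funext h]

/-- all exponents of `p` have the weight `N - j` -/
def WH (w : Fin m → ℕ) (j N : ℕ) (p : T m) : Prop := ∀ a, coeff a p ≠ 0 → wt w a + j = N

theorem dg_mul {w : Fin m → ℕ} {j N : ℕ} {p : T m} (hp : WH w j N p) (c : ℕ → ℂ) (f : T m) :
    dg w (fun e => c (e + j)) (p * f) = p * dg w (fun e => c (e + N)) f := by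
  classical
  ext a
  rw [coeff_dg, coeff_mul, coeff_mul, Finset.mul_sum]
  refine Finset.sum_congr rfl fun x hx => ?_
  rw [coeff_dg]
  by_cases h : coeff x.1 p = 0
  · rw [h]; ring
  · have h1 := hp _ h
    have h2 : wt w a + j = wt w x.2 + N := by
      rw [← Finset.HasAntidiagonal.mem_antidiagonal.1 hx, wt_add, ← h1]; ring
    rw [h2]; ring

theorem dg_pderiv (w : Fin m → ℕ) (i : Fin m) (c : ℕ → ℂ) (f : T m) :
    dg w (fun e => c (e + w i)) (pderiv ℂ i f) = pderiv ℂ i (dg w c f) := by
  ext a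
  rw [coeff_dg, coeff_pderiv, coeff_pderiv, coeff_dg, wt_add, wt_single]; ring

/-- the Euler operator -/
theorem euler (w : Fin m → ℕ) (f : T m) :
    ∑ i, C (w i : ℂ) * X i * pderiv ℂ i f = dg w (fun e => (e : ℂ)) f := by
  have h : ∀ (i : Fin m) (a : Fin m →₀ ℕ), coeff a (C (w i : ℂ) * X i * pderiv ℂ i f) =
      (w i : ℂ) * (a i * coeff a f) := by
    intro i a
    rw [mul_assoc, coeff_C_mul]
    congr 1
    by_cases hm : a i = 0
    · rw [hm, Nat.cast_zero, zero_mul, mul_comm]
      rw [X, coeff_mul_monomial, if_neg]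
      intro h
      have := h i
      rw [Finsupp.single_eq_same, hm] at this
      omega
    · obtain ⟨n, rfl⟩ : ∃ n, a = Finsupp.single i 1 + n := by
        refine ⟨a - Finsupp.single i 1, ?_⟩
        rw [add_tsub_cancel_of_le]
        intro j
        by_cases hj : j = i
        · subst hj; rw [Finsupp.single_eq_same]; omega
        · rw [Finsupp.single_eq_of_ne hj]; exact Nat.zero_le _
      rw [X, coeff_add_monomial_mul, one_mul, coeff_pderiv, add_comm n]
      rw [Finsupp.add_apply, Finsupp.single_eq_same]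
      push_cast
      ring
  ext a
  rw [map_sum, coeff_dg, wt]
  rw [Finset.sum_congr rfl fun i _ => h i a]
  push_cast
  rw [Finset.sum_mul]
  refine Finset.sum_congr rfl fun i _ => ?_
  ring

theorem WH_pderiv {w : Fin m → ℕ} {N : ℕ} {p : T m} (hp : WH w 0 N p) (i : Fin m) :
    WH w (w i) N (pderiv ℂ i p) := by
  intro a ha
  rw [coeff_pderiv] at ha
  have := hp _ (left_ne_zero_of_mul ha)
  rw [wt_add, wt_single] at this
  omega

theorem WH_mul {w : Fin m → ℕ} {N M : ℕ} {p q : T m} (hp : WH w 0 N p) (hq : WH w 0 M q) :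
    WH w 0 (N + M) (p * q) := by
  classical
  intro a ha
  rw [coeff_mul] at ha
  obtain ⟨x, hx, hx0⟩ := Finset.exists_ne_zero_of_sum_ne_zero ha
  have h1 := hp _ (left_ne_zero_of_mul hx0)
  have h2 := hq _ (right_ne_zero_of_mul hx0)
  rw [← Finset.HasAntidiagonal.mem_antidiagonal.1 hx, wt_add]
  omega

theorem WH_one {w : Fin m → ℕ} : WH w 0 0 (1 : T m) := by
  classical
  intro a ha
  rw [coeff_one] at ha
  have : a = 0 := by
    by_contra h
    exact ha (if_neg h)
  rw [this]
  simp [wt]

theorem WH_pow {w : Fin m → ℕ} {N : ℕ} {p : T m} (hp : WH w 0 N p) (k : ℕ) :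
    WH w 0 (k * N) (p ^ k) := by
  induction k with
  | zero => rw [pow_zero, zero_mul]; exact WH_one
  | succ k ih =>
    rw [pow_succ, add_mul, one_mul]
    exact WH_mul ih hp

/-- `p` is an eigenvector -/
theorem dg_WH {w : Fin m → ℕ} {N : ℕ} {p : T m} (hp : WH w 0 N p) (c : ℕ → ℂ) :
    dg w c p = C (c N) * p := by
  ext a
  rw [coeff_dg, coeff_C_mul]
  by_cases h : coeff a p = 0
  · rw [h]; ring
  · have := hp a h
    rw [add_zero] at this
    rw [this]

theorem WH_ind (w : Fin m → ℕ) (e : ℕ) (f : T m) :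
    WH w 0 e (dg w (fun n => if n = e then 1 else 0) f) := by
  intro a ha
  rw [coeff_dg] at ha
  have h := left_ne_zero_of_mul ha
  by_contra hne
  exact h (if_neg hne)

theorem pd_comm {i j : Fin m} (z : T m) : pderiv ℂ i (pderiv ℂ j z) = pderiv ℂ j (pderiv ℂ i z) := by
  ext a
  simp only [coeff_pderiv, Finsupp.add_apply]
  rw [add_right_comm]
  by_cases hij : i = j
  · subst hij; ring
  · rw [Finsupp.single_eq_of_ne hij, Finsupp.single_eq_of_ne (Ne.symm hij)]
    ring_nf

/-- a derivation-like family with symmetric second derivatives -/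
theorem antisym_zero {R : Type*} [CommRing R] [IsAddTorsionFree R] {ι : Type*} [Fintype ι]
    (g : ι → ι → R) (h : ∀ i j, g i j = - g j i) : ∑ i, ∑ j, g i j = 0 := by
  have h1 : ∑ i, ∑ j, g i j = - ∑ i, ∑ j, g i j := by
    conv_lhs => rw [Finset.sum_comm]
    rw [← Finset.sum_neg_distrib]
    refine Finset.sum_congr rfl fun i _ => ?_
    rw [← Finset.sum_neg_distrib]
    exact Finset.sum_congr rfl fun j _ => h j i
  have h2 : (2 : ℕ) • ∑ i, ∑ j, g i j = 0 := by
    rw [two_nsmul]
    nth_rewrite 1 [h1]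
    exact neg_add_cancel _
  exact (smul_eq_zero_iff_right (two_ne_zero)).1 h2

section anti

variable {R : Type*} [CommRing R] [IsAddTorsionFree R] [Algebra ℂ R] {ι : Type*} [Fintype ι]
  (D : ι → Derivation ℂ R R) (hc : ∀ i j x, D i (D j x) = D j (D i x)) (F : R)
  (B : ι → ι → R) (hB : ∀ i j, B i j = - B j i)

include hc hB in
/-- the divergence of a Koszul field -/
theorem div_koszul : ∑ i, D i (∑ j, B i j * D j F) = ∑ j, (∑ i, D i (B i j)) * D j F := by
  have h1 : ∀ i, D i (∑ j, B i j * D j F) = ∑ j, D i (B i j) * D j F +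
      ∑ j, B i j * D i (D j F) := by
    intro i
    rw [map_sum, ← Finset.sum_add_distrib]
    refine Finset.sum_congr rfl fun j _ => ?_
    rw [Derivation.leibniz, smul_eq_mul, smul_eq_mul]
    ring
  rw [Finset.sum_congr rfl fun i _ => h1 i, Finset.sum_add_distrib,
    antisym_zero (fun i j => B i j * D i (D j F)) (fun i j => by rw [hB, hc]; ring), add_zero,
    Finset.sum_comm]
  refine Finset.sum_congr rfl fun j _ => ?_
  rw [Finset.sum_mul]

include hc hB in
theorem div_div : ∑ j, D j (∑ i, D i (B i j)) = 0 := by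
  have h1 : ∀ j, D j (∑ i, D i (B i j)) = ∑ i, D j (D i (B i j)) := fun j => map_sum _ _ _
  rw [Finset.sum_congr rfl fun j _ => h1 j]
  refine antisym_zero (fun j i => D j (D i (B i j))) fun j i => ?_
  rw [hB i j, map_neg, map_neg, hc]

end anti

end Pool.Agent.U739.IS
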