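import Pool.Agent.U184.Ext
import Pool.Agent.U184.Lift

set_option autoImplicit false

/-! # The functional equation of a form in `n + 1` variables at `s = -(n+1)/d` -/

namespace Pool.Agent.U739.IS

open MvPolynomial Pool.Agent.H628R4.TP Pool.Agent.N127.PB Pool.Agent.W574.CN Pool.Agent.W574.SM
open Pool.Agent.U184 hiding nf_chart eval_map_deh ext_chart

variable {n : ℕ}

section chart

/-- the component of degree `d s + 1` in a chart -/
theorem nf_chart (i : Fin (n + 1)) (f : MvPolynomial (Fin (n + 1)) ℂ) (d : ℕ) (hf : f.IsHomogeneous d)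
    (S : Finset ℕ) (u : ℕ → Module.End ℂ (MvPolynomial (Fin (n + 1)) ℂ))
    (hu : ∀ m, u m ∈ weylS (Fin (n + 1))) :
    NF (deh i f) fun s => deh i (homogeneousComponent (d * s + 1)
      (∑ m ∈ S, ((s : ℂ) ^ m) • u m (f ^ (s + 1)))) := by
  classical
  have hfun : (fun s : ℕ => deh i (homogeneousComponent (d * s + 1)
      (∑ m ∈ S, ((s : ℂ) ^ m) • u m (f ^ (s + 1))))) = fun s : ℕ => ∑ m ∈ S,
      (Polynomial.X ^ m : Polynomial ℂ).eval (s : ℂ) •
        deh i (homogeneousComponent (d * s + 1) (u m (f ^ (s + 1)))) := by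
    funext s
    rw [map_sum, map_sum]
    refine Finset.sum_congr rfl fun m _ => ?_
    rw [map_smul, map_smul, Polynomial.eval_pow, Polynomial.eval_X]
  rw [hfun]
  refine NF_sum S _ fun m _ => NF_poly ?_ _
  obtain ⟨κ, hκ, w, Φ, hΦ, hq⟩ := gr_weyl i (u m) (hu m)
  have hfun2 : (fun s : ℕ => deh i (homogeneousComponent (d * s + 1) (u m (f ^ (s + 1))))) =
      fun s : ℕ => ∑ k ∈ (Finset.univ : Finset κ).filter (fun k => w k = 1 - (d : ℤ)),
        Φ k ((d * (s + 1) : ℕ) : ℤ) (deh i f ^ (s + 1)) := by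
    funext s
    obtain ⟨q, hq1, hq2⟩ := hq ((d * (s + 1) : ℕ) : ℤ) (f ^ (s + 1))
      (Or.inr ⟨d * (s + 1), rfl, hf.pow (s + 1)⟩)
    rw [hq1, map_sum, map_sum, Finset.sum_filter]
    refine Finset.sum_congr rfl fun k _ => ?_
    rw [comp_homZ (hq2 k).1]
    by_cases hk : w k = 1 - (d : ℤ)
    · rw [if_pos hk, if_pos, (hq2 k).2, map_pow]
      rw [hk]; push_cast; ring
    · rw [if_neg hk, if_neg, map_zero]
      intro h'
      apply hk
      push_cast at h'
      linarith
  rw [hfun2]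
  refine NF_sum _ _ fun k _ => ?_
  obtain ⟨ι, hι, p, R, hR⟩ := hΦ k
  have hfun3 : (fun s : ℕ => Φ k ((d * (s + 1) : ℕ) : ℤ) (deh i f ^ (s + 1))) =
      fun s : ℕ => ∑ j ∈ (Finset.univ : Finset ι),
        ((p j).comp (Polynomial.C (d : ℂ) * (Polynomial.X + 1))).eval (s : ℂ) •
          (R j : Module.End ℂ (MvPolynomial (Fin n) ℂ)) (deh i f ^ (s + 1)) := by
    funext s
    rw [hR, LinearMap.sum_apply]
    refine Finset.sum_congr rfl fun j _ => ?_
    rw [LinearMap.smul_apply, Polynomial.eval_comp]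
    congr 2
    simp
  rw [hfun3]
  refine NF_sum _ _ fun j _ => NF_poly ?_ _
  exact NF_op (deh i f) _ (R j).2

theorem eval_map_deh (i : Fin (n + 1)) (V : Polynomial (MvPolynomial (Fin (n + 1)) ℂ)) (c : ℂ) :
    (V.map (deh i : MvPolynomial (Fin (n + 1)) ℂ →+* MvPolynomial (Fin n) ℂ)).eval (C c) =
      deh i (V.eval (C c)) := by
  have h : (C c : MvPolynomial (Fin n) ℂ) =
      (deh i : MvPolynomial (Fin (n + 1)) ℂ →+* MvPolynomial (Fin n) ℂ) (C c) :=
    ((deh i).commutes c).symm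
  rw [h, Polynomial.eval_map, Polynomial.eval₂_at_apply]
  rfl

/-- **The functional equation in a chart.** -/
theorem ext_chart (i : Fin (n + 1)) (f : MvPolynomial (Fin (n + 1)) ℂ) (d : ℕ) (hd : 0 < d)
    (b : Polynomial ℂ) (Y : Fin (n + 1) → ℕ → MvPolynomial (Fin (n + 1)) ℂ)
    (hYh : ∀ l s, (Y l s).IsHomogeneous (d * s + 1))
    (hY : ∀ s : ℕ, C (b.eval (s : ℂ)) * f ^ s = ∑ l, pderiv l (Y l s))
    (N : ℕ) (V : Fin (n + 1) → Polynomial (MvPolynomial (Fin (n + 1)) ℂ))
    (hV : ∀ (l : Fin (n + 1)) (s : ℕ), N ≤ s → Y l s = f ^ (s - N) * (V l).eval (C (s : ℂ)))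
    (hNF : NF (deh i f) fun s => deh i (Y i s)) : ∃ M₀ : ℕ, ∀ M, M₀ ≤ M →
      ∃ (w : Fin n → Polynomial (MvPolynomial (Fin n) ℂ))
        (h : Polynomial (MvPolynomial (Fin n) ℂ)),
        (∀ s : ℕ, M ≤ s → ∑ t, pderiv t (deh i f ^ (s - M) * (w t).eval (C (s : ℂ))) =
          deh i f ^ s * h.eval (C (s : ℂ))) ∧
        ∀ t, (w t).eval (C (-((n : ℂ) + 1) / (d : ℂ))) = deh i f ^ (M - N) *
          (deh i ((V (i.succAbove t)).eval (C (-((n : ℂ) + 1) / (d : ℂ)))) -
            X t * deh i ((V i).eval (C (-((n : ℂ) + 1) / (d : ℂ))))) := by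
  obtain ⟨M₁, hM₁⟩ := NF_mono hNF
  refine ⟨M₁ + N, fun M hM => ?_⟩
  obtain ⟨c, z, hz⟩ := hM₁ M (by omega)
  set g := deh i f with hg
  let dh : MvPolynomial (Fin (n + 1)) ℂ →+* MvPolynomial (Fin n) ℂ := deh i
  let L : Polynomial (MvPolynomial (Fin n) ℂ) :=
    Polynomial.C (C (d : ℂ)) * Polynomial.X + Polynomial.C (C ((n : ℂ) + 1))
  have hL : ∀ r : ℂ, L.eval (C r) = C ((d : ℂ) * r + (n + 1)) := by
    intro r
    simp only [L, Polynomial.eval_add, Polynomial.eval_mul, Polynomial.eval_C, Polynomial.eval_X,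
      map_add, map_mul]
  refine ⟨fun t => Polynomial.C (g ^ (M - N)) * ((V (i.succAbove t)).map dh -
    Polynomial.C (X t) * (V i).map dh) + L * z t,
    b.map C - L * c * Polynomial.C g, fun s hs => ?_, fun t => ?_⟩
  · have h1 := congrArg (deh i) (hY s)
    rw [map_mul, map_pow, Fin.sum_univ_succAbove _ i, map_add, map_sum] at h1
    have hC : deh i (C (b.eval (s : ℂ))) = C (b.eval (s : ℂ)) := (deh i).commutes _
    rw [hC, ← hg] at h1
    have h2 : deh i (pderiv i (Y i s)) = ((d : ℂ) * s + 1) • deh i (Y i s) -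
        ∑ t, X t * pderiv t (deh i (Y i s)) := by
      have := deh_euler i (N := ((d * s + 1 : ℕ) : ℤ)) (g := Y i s)
        (Or.inr ⟨d * s + 1, rfl, hYh i s⟩)
      rw [this]
      congr 2
      push_cast
      ring
    rw [h2] at h1
    simp only [deh_pderiv] at h1
    have hYd : ∀ l, deh i (Y l s) = g ^ (s - N) * ((V l).map dh).eval (C (s : ℂ)) := by
      intro l
      rw [hV l s (by omega), map_mul, map_pow, eval_map_deh]
    have h3 := hz s hs
    beta_reduce at h3
    have h4 : ∑ t, pderiv t (g ^ (s - M) * (Polynomial.C (g ^ (M - N)) *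
        ((V (i.succAbove t)).map dh - Polynomial.C (X t) * (V i).map dh) + L * z t).eval
          (C (s : ℂ))) = ∑ t, pderiv t (deh i (Y (i.succAbove t) s) - X t * deh i (Y i s)) +
        C ((d : ℂ) * s + (n + 1)) * ∑ t, pderiv t (g ^ (s - M) * (z t).eval (C (s : ℂ))) := by
      rw [Finset.mul_sum, ← Finset.sum_add_distrib]
      refine Finset.sum_congr rfl fun t _ => ?_
      rw [← smul_eq_C_mul, ← Derivation.map_smul, ← map_add, hYd, hYd, smul_eq_C_mul]
      congr 1
      simp only [Polynomial.eval_add, Polynomial.eval_mul, Polynomial.eval_C, Polynomial.eval_sub]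
      rw [hL]
      have e : g ^ (s - N) = g ^ (s - M) * g ^ (M - N) := by
        rw [← pow_add]; congr 1; omega
      rw [e]
      ring
    have h5 : ∑ t, pderiv t (deh i (Y (i.succAbove t) s) - X t * deh i (Y i s)) =
        ∑ t : Fin n, pderiv t (deh i (Y (i.succAbove t) s)) - ((n : MvPolynomial (Fin n) ℂ) * deh i (Y i s) +
          ∑ t, X t * pderiv t (deh i (Y i s))) := by
      have e2 : ∀ t : Fin n, pderiv t (deh i (Y (i.succAbove t) s) - X t * deh i (Y i s)) =
          pderiv t (deh i (Y (i.succAbove t) s)) - (deh i (Y i s) +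
            X t * pderiv t (deh i (Y i s))) := by
        intro t
        rw [map_sub, Derivation.leibniz, pderiv_X_self, smul_eq_mul, smul_eq_mul]
        ring
      rw [Finset.sum_congr rfl fun t _ => e2 t, Finset.sum_sub_distrib, Finset.sum_add_distrib]
      congr 2
      rw [Finset.sum_const, Finset.card_univ, Fintype.card_fin, nsmul_eq_mul]
    rw [h4, h5]
    have h6 : (b.map C - L * c * Polynomial.C g : Polynomial (MvPolynomial (Fin n) ℂ)).eval
        (C (s : ℂ)) = C (b.eval (s : ℂ)) - C ((d : ℂ) * s + (n + 1)) * c.eval (C (s : ℂ)) * g := by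
      rw [Polynomial.eval_sub, Polynomial.eval_mul, Polynomial.eval_mul, hL, Polynomial.eval_C,
        Polynomial.eval_map, Polynomial.eval₂_at_apply]
    rw [h6]
    rw [smul_eq_C_mul] at h1
    have h7 : C ((d : ℂ) * s + (n + 1)) = (C ((d : ℂ) * s + 1) + (n : MvPolynomial (Fin n) ℂ)) := by
      have : (n : MvPolynomial (Fin n) ℂ) = C (n : ℂ) := by rw [map_natCast]
      rw [this, ← map_add]; congr 1; ring
    rw [h7]
    linear_combination (-1 : MvPolynomial (Fin n) ℂ) * h1 -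
      (C ((d : ℂ) * s + 1) + (n : MvPolynomial (Fin n) ℂ)) * h3
  · have hd0 : (d : ℂ) ≠ 0 := Nat.cast_ne_zero.2 hd.ne'
    rw [Polynomial.eval_add, Polynomial.eval_mul, Polynomial.eval_mul, hL, Polynomial.eval_C,
      Polynomial.eval_sub, Polynomial.eval_mul, Polynomial.eval_C, eval_map_deh, eval_map_deh]
    have : (d : ℂ) * (-((n : ℂ) + 1) / (d : ℂ)) + (n + 1) = 0 := by field_simp; ring
    rw [this, map_zero, zero_mul, add_zero]

end chart

end Pool.Agent.U739.IS
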