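import Pool.Agent.U739.IS.ZDefs

set_option autoImplicit false

/-! # Linear vector fields with nonzero trace which annihilate a form

If `v(F) = 0` for a linear vector field `v` with nonzero trace, then `F` is weighted homogeneous in
suitable linear coordinates, with positive weights `β_i` and a degree `N d`, `∑ β_i ≠ N n`. -/

namespace Pool.Agent.U739.IS

open MvPolynomial

section Gen

variable {n : ℕ}

theorem lnd_mul (D : Derivation ℂ (MvPolynomial (Fin n) ℂ) (MvPolynomial (Fin n) ℂ)) : ∀ (N k l : ℕ), k + l = N → ∀ f g : (MvPolynomial (Fin n) ℂ),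
    D^[k] f = 0 → D^[l] g = 0 → D^[N] (f * g) = 0 := by
  intro N
  induction N with
  | zero =>
    intro k l h f g hf hg
    obtain ⟨rfl, rfl⟩ : k = 0 ∧ l = 0 := by omega
    simp only [Function.iterate_zero, id] at hf ⊢
    rw [hf, zero_mul]
  | succ N ih =>
    intro k l h f g hf hg
    rcases k with _ | k
    · simp only [Function.iterate_zero, id] at hf
      rw [hf, zero_mul]
      exact iterate_map_zero D _
    rcases l with _ | l
    · simp only [Function.iterate_zero, id] at hg
      rw [hg, mul_zero]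
      exact iterate_map_zero D _
    rw [Function.iterate_succ_apply, Derivation.leibniz, iterate_map_add, smul_eq_mul, smul_eq_mul]
    rw [ih (k + 1) l (by omega) f (D g) hf (by rwa [Function.iterate_succ_apply] at hg),
      ih (l + 1) k (by omega) g (D f) hg (by rwa [Function.iterate_succ_apply] at hf), add_zero]

theorem lnd_le (D : Derivation ℂ (MvPolynomial (Fin n) ℂ) (MvPolynomial (Fin n) ℂ)) {k l : ℕ} (h : k ≤ l) {f : (MvPolynomial (Fin n) ℂ)} (hf : D^[k] f = 0) :
    D^[l] f = 0 := by
  obtain ⟨j, rfl⟩ := Nat.exists_eq_add_of_le h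
  rw [add_comm, Function.iterate_add_apply, hf]
  exact iterate_map_zero D _

theorem lnd_all (D : Derivation ℂ (MvPolynomial (Fin n) ℂ) (MvPolynomial (Fin n) ℂ)) (h : ∀ i, ∃ k, D^[k] (X i) = 0) (f : (MvPolynomial (Fin n) ℂ)) :
    ∃ k, D^[k] f = 0 := by
  induction f using MvPolynomial.induction_on with
  | C c => exact ⟨1, by simp [← MvPolynomial.algebraMap_eq]⟩
  | add f g hf hg =>
    obtain ⟨k, hk⟩ := hf
    obtain ⟨l, hl⟩ := hg
    refine ⟨k + l, ?_⟩
    rw [iterate_map_add, lnd_le D (by omega) hk, lnd_le D (by omega) hl, add_zero]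
  | mul_X f i hf =>
    obtain ⟨k, hk⟩ := hf
    obtain ⟨l, hl⟩ := h i
    exact ⟨k + l, lnd_mul D _ k l rfl f (X i) hk hl⟩

/-- a linear form -/
noncomputable def lin (c : Fin n → ℂ) : (MvPolynomial (Fin n) ℂ) := ∑ j, C (c j) * X j

theorem lin_add (c c' : Fin n → ℂ) : lin (c + c') = lin c + lin c' := by
  simp [lin, add_mul, Finset.sum_add_distrib]

theorem lin_smul (r : ℂ) (c : Fin n → ℂ) : lin (r • c) = C r * lin c := by
  simp [lin, Finset.mul_sum, mul_assoc]

theorem lin_single (i : Fin n) : lin (Pi.single i 1) = (X i : (MvPolynomial (Fin n) ℂ)) := by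
  rw [lin, Finset.sum_eq_single i]
  · simp
  · intro j _ hj
    simp [Pi.single_eq_of_ne hj]
  · simp

/-- `lin` as a linear map -/
noncomputable def linL : (Fin n → ℂ) →ₗ[ℂ] (MvPolynomial (Fin n) ℂ) where
  toFun := lin
  map_add' := lin_add
  map_smul' r c := by rw [lin_smul, RingHom.id_apply, MvPolynomial.smul_eq_C_mul]

theorem linL_apply (c : Fin n → ℂ) : linL c = lin c := rfl

/-- the derivation which extends the endomorphism `T` of the linear forms -/
noncomputable def dE (T : Module.End ℂ (Fin n → ℂ)) : Derivation ℂ (MvPolynomial (Fin n) ℂ) (MvPolynomial (Fin n) ℂ) :=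
  mkDerivation ℂ fun i => lin (T (Pi.single i 1))

theorem dE_X (T : Module.End ℂ (Fin n → ℂ)) (i : Fin n) :
    dE T (X i) = lin (T (Pi.single i 1)) := mkDerivation_X ℂ _ i

theorem dE_lin (T : Module.End ℂ (Fin n → ℂ)) (c : Fin n → ℂ) : dE T (lin c) = lin (T c) := by
  have h : ((dE T : (MvPolynomial (Fin n) ℂ) →ₗ[ℂ] (MvPolynomial (Fin n) ℂ)) ∘ₗ linL) = linL ∘ₗ T := by
    apply (Pi.basisFun ℂ (Fin n)).ext
    intro i
    rw [Pi.basisFun_apply, LinearMap.comp_apply, LinearMap.comp_apply, linL_apply, linL_apply,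
      lin_single]
    exact dE_X T i
  exact LinearMap.congr_fun h c

theorem dE_iter (T : Module.End ℂ (Fin n → ℂ)) (k : ℕ) (c : Fin n → ℂ) :
    (dE T)^[k] (lin c) = lin ((T ^ k) c) := by
  induction k generalizing c with
  | zero => rfl
  | succ k ih => rw [Function.iterate_succ_apply, dE_lin, ih, pow_succ, Module.End.mul_apply]

theorem dE_add (S T : Module.End ℂ (Fin n → ℂ)) (f : (MvPolynomial (Fin n) ℂ)) : dE (S + T) f = dE S f + dE T f := by
  have h : dE (S + T) = dE S + dE T := by
    apply MvPolynomial.derivation_ext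
    intro i
    rw [Derivation.add_apply, dE_X, dE_X, dE_X, LinearMap.add_apply, lin_add]
  rw [h, Derivation.add_apply]

theorem dE_comm {S T : Module.End ℂ (Fin n → ℂ)} (h : Commute S T) (f : (MvPolynomial (Fin n) ℂ)) :
    dE S (dE T f) = dE T (dE S f) := by
  have h0 : ⁅dE S, dE T⁆ = 0 := by
    apply MvPolynomial.derivation_ext
    intro i
    rw [Derivation.commutator_apply, dE_X, dE_X, dE_lin, dE_lin, Derivation.zero_apply,
      ← Module.End.mul_apply, ← Module.End.mul_apply, h.eq, sub_self]
  have := Derivation.congr_fun h0 f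
  rw [Derivation.commutator_apply, Derivation.zero_apply, sub_eq_zero] at this
  exact this

theorem dE_nil {T : Module.End ℂ (Fin n → ℂ)} (h : IsNilpotent T) (f : (MvPolynomial (Fin n) ℂ)) :
    ∃ k, (dE T)^[k] f = 0 := by
  obtain ⟨k, hk⟩ := h
  refine lnd_all _ (fun i => ⟨k, ?_⟩) f
  rw [← lin_single, dE_iter, hk]
  simp [lin]

/-- If `T = N + S` with commuting `N`, `S`, `N` nilpotent, and `dE T f = 0`, then some iterate of
`dE S` annihilates `f`. -/
theorem ss_kill {N S : Module.End ℂ (Fin n → ℂ)} (hc : Commute S N) (hN : IsNilpotent N) (f : (MvPolynomial (Fin n) ℂ))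
    (hf : dE (N + S) f = 0) : ∃ k, (dE S)^[k] f = 0 := by
  obtain ⟨k, hk⟩ := dE_nil hN f
  have h1 : dE S f = -dE N f := by
    rw [dE_add] at hf
    linear_combination hf
  have hcomm : ∀ (j : ℕ) (g : (MvPolynomial (Fin n) ℂ)), dE S ((dE N)^[j] g) = (dE N)^[j] (dE S g) := by
    intro j
    induction j with
    | zero => intro g; rfl
    | succ j ih => intro g; rw [Function.iterate_succ_apply, ih, dE_comm hc,
        Function.iterate_succ_apply]
  have h2 : ∀ j : ℕ, (dE S)^[j] f = (-1) ^ j * (dE N)^[j] f := by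
    intro j
    induction j with
    | zero => simp
    | succ j ih =>
      rw [Function.iterate_succ_apply', ih]
      have e : ((-1 : (MvPolynomial (Fin n) ℂ)) ^ j) = C ((-1 : ℂ) ^ j) := by simp
      rw [e, ← MvPolynomial.smul_eq_C_mul, Derivation.map_smul, hcomm, h1, iterate_map_neg,
        ← Function.iterate_succ_apply, MvPolynomial.smul_eq_C_mul, ← e, pow_succ]
      ring
  exact ⟨k, by rw [h2, hk, mul_zero]⟩

/-! ### Eigenbasis -/

theorem exists_eigenbasis {S : Module.End ℂ (Fin n → ℂ)} (hS : S.IsSemisimple) :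
    ∃ (b : Module.Basis (Fin n) ℂ (Fin n → ℂ)) (α : Fin n → ℂ), ∀ i, S (b i) = α i • b i := by
  classical
  have hint : DirectSum.IsInternal (fun μ : ℂ => S.eigenspace μ) :=
    DirectSum.isInternal_submodule_of_iSupIndep_of_iSup_eq_top S.eigenspaces_iSupIndep
      hS.iSup_eigenspace_eq_top
  set b0 := hint.collectedBasis (fun μ => Module.finBasis ℂ (S.eigenspace μ)) with hb0
  set e := b0.indexEquiv (Pi.basisFun ℂ (Fin n)) with he
  refine ⟨b0.reindex e, fun i => (e.symm i).1, fun i => ?_⟩
  rw [Module.Basis.reindex_apply]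
  exact Module.End.mem_eigenspace_iff.1 (hint.collectedBasis_mem _ (e.symm i))

theorem trace_eigen {S : Module.End ℂ (Fin n → ℂ)} (b : Module.Basis (Fin n) ℂ (Fin n → ℂ))
    (α : Fin n → ℂ) (h : ∀ i, S (b i) = α i • b i) : LinearMap.trace ℂ _ S = ∑ i, α i := by
  classical
  rw [LinearMap.trace_eq_matrix_trace ℂ b S, Matrix.trace]
  refine Finset.sum_congr rfl fun i _ => ?_
  rw [Matrix.diag_apply, LinearMap.toMatrix_apply, h, map_smul, Module.Basis.repr_self]
  simp

/-- the diagonal derivation -/
noncomputable def dD (α : Fin n → ℂ) : Derivation ℂ (MvPolynomial (Fin n) ℂ) (MvPolynomial (Fin n) ℂ) := mkDerivation ℂ fun i => C (α i) * X i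

theorem dD_monomial (α : Fin n → ℂ) (m : Fin n →₀ ℕ) (c : ℂ) :
    dD α (monomial m c) = monomial m ((∑ i, (m i : ℂ) * α i) * c) := by
  rw [dD, mkDerivation_monomial, Finsupp.sum_fintype _ _ (by simp)]
  have h : ∀ i ∈ Finset.univ, monomial (m - Finsupp.single i 1) ((m i : ℕ) : ℂ) • (C (α i) * X i) =
      (monomial m ((m i : ℂ) * α i) : (MvPolynomial (Fin n) ℂ)) := by
    intro i _
    by_cases hi : m i = 0
    · simp [hi]
    · have h1 : m - Finsupp.single i 1 + Finsupp.single i 1 = m := by
        ext j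
        by_cases hj : j = i
        · subst hj
          simp only [Finsupp.coe_add, Finsupp.coe_tsub, Pi.add_apply, Pi.sub_apply,
            Finsupp.single_eq_same]
          omega
        · simp [Finsupp.single_eq_of_ne (by exact hj)]
      rw [smul_eq_mul, X, C_mul_monomial, monomial_mul, h1, mul_one]
  rw [Finset.sum_congr rfl h, ← map_sum, smul_monomial, smul_eq_mul, mul_comm]

theorem coeff_dD (α : Fin n → ℂ) (m : Fin n →₀ ℕ) (G : (MvPolynomial (Fin n) ℂ)) :
    coeff m (dD α G) = (∑ i, (m i : ℂ) * α i) * coeff m G := by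
  classical
  induction G using MvPolynomial.induction_on' with
  | monomial k c =>
    rw [dD_monomial, coeff_monomial, coeff_monomial]
    split_ifs with h
    · rw [h]
    · rw [mul_zero]
  | add p q hp hq => rw [map_add, coeff_add, coeff_add, hp, hq, mul_add]

theorem coeff_dD_iter (α : Fin n → ℂ) (m : Fin n →₀ ℕ) (k : ℕ) (G : (MvPolynomial (Fin n) ℂ)) :
    coeff m ((dD α)^[k] G) = (∑ i, (m i : ℂ) * α i) ^ k * coeff m G := by
  induction k generalizing G with
  | zero => simp
  | succ k ih => rw [Function.iterate_succ_apply, ih, coeff_dD, pow_succ]; ring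

theorem subst_X (g : Matrix (Fin n) (Fin n) ℂ) (i : Fin n) : subst g (X i) = lin (g i) :=
  aeval_X _ _

theorem subst_lin (g : Matrix (Fin n) (Fin n) ℂ) (c : Fin n → ℂ) :
    subst g (lin c) = lin (∑ i, c i • g i) := by
  rw [lin, map_sum, ← linL_apply, map_sum]
  refine Finset.sum_congr rfl fun i _ => ?_
  rw [map_mul, subst_X, map_smul, linL_apply, MvPolynomial.smul_eq_C_mul]
  congr 1
  exact algHom_C _ _

theorem subst_hom (g : Matrix (Fin n) (Fin n) ℂ) {F : (MvPolynomial (Fin n) ℂ)} {d : ℕ} (hF : F.IsHomogeneous d) :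
    (subst g F).IsHomogeneous d := by
  have := hF.aeval (fun i => ∑ j, C (g i j) * X j) (n := 1) (fun i => IsHomogeneous.sum _ _ _
    fun j _ => by simpa using (isHomogeneous_C (Fin n) (g i j)).mul (isHomogeneous_X ℂ j))
  rwa [one_mul] at this

/-- **The diagonal form.** -/
theorem diag_form {F : (MvPolynomial (Fin n) ℂ)} {T : Module.End ℂ (Fin n → ℂ)} (hF : dE T F = 0) :
    ∃ (g : Matrix (Fin n) (Fin n) ℂ) (α : Fin n → ℂ), g.det ≠ 0 ∧
      ∑ i, α i = LinearMap.trace ℂ _ T ∧
      ∀ m : Fin n →₀ ℕ, coeff m (subst g F) ≠ 0 → ∑ i, (m i : ℂ) * α i = 0 := by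
  classical
  obtain ⟨N, hN, S, hS, hNn, hSs, hT⟩ := T.exists_isNilpotent_isSemisimple
  have hcomm : Commute S N := Algebra.commute_of_mem_adjoin_singleton_of_commute hN
    (Algebra.commute_of_mem_adjoin_self hS).symm
  obtain ⟨b, α, hb⟩ := exists_eigenbasis hSs
  have htr : LinearMap.trace ℂ _ T = ∑ i, α i := by
    rw [hT, map_add, trace_eigen b α hb,
      (LinearMap.isNilpotent_trace_of_isNilpotent hNn).eq_zero, zero_add]
  obtain ⟨k, hk⟩ := ss_kill hcomm hNn F (by rw [← hT]; exact hF)
  let g : Matrix (Fin n) (Fin n) ℂ := fun j i => b.repr (Pi.single j 1) i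
  let h : Matrix (Fin n) (Fin n) ℂ := fun i j => b i j
  have hgh : g * h = 1 := by
    ext j l
    rw [Matrix.mul_apply]
    have h1 := congrFun (b.sum_repr (Pi.single j 1)) l
    rw [Finset.sum_apply] at h1
    simp only [Pi.smul_apply, smul_eq_mul] at h1
    rw [show (∑ x, g j x * h x l) = ∑ x, b.repr (Pi.single j 1) x * b x l from rfl, h1,
      Matrix.one_apply, Pi.single_apply]
    simp [eq_comm]
  have hhg : h * g = 1 := mul_eq_one_comm.1 hgh
  refine ⟨g, α, ?_, htr.symm, ?_⟩
  · intro h0
    have := congrArg Matrix.det hgh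
    rw [Matrix.det_mul, h0, zero_mul, Matrix.det_one] at this
    exact zero_ne_one this
  -- the two substitutions are inverse to each other
  have hcompX : ∀ (u w : Matrix (Fin n) (Fin n) ℂ), u * w = 1 → ∀ f : (MvPolynomial (Fin n) ℂ),
      subst w (subst u f) = f := by
    intro u w huw f
    have : (subst w).comp (subst u) = AlgHom.id ℂ (MvPolynomial (Fin n) ℂ) := by
      apply MvPolynomial.algHom_ext
      intro i
      rw [AlgHom.comp_apply, subst_X, subst_lin, AlgHom.id_apply, ← lin_single]
      congr 1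
      ext l
      rw [Finset.sum_apply]
      simp only [Pi.smul_apply, smul_eq_mul]
      have := congrFun (congrFun huw i) l
      rw [Matrix.mul_apply, Matrix.one_apply] at this
      rw [this, Pi.single_apply]
      simp [eq_comm]
    exact AlgHom.congr_fun this f
  have hder : ∀ f : (MvPolynomial (Fin n) ℂ), dE S (subst h f) = subst h (dD α f) := by
    intro f
    induction f using MvPolynomial.induction_on with
    | C c =>
      have h1 : subst h (C c) = C c := algHom_C _ _
      rw [h1, derivation_C, derivation_C, map_zero]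
    | add p q hp hq => rw [map_add, map_add, hp, hq, map_add, map_add]
    | mul_X p i hp =>
      rw [map_mul, Derivation.leibniz, Derivation.leibniz, hp, map_add, smul_eq_mul, smul_eq_mul,
        smul_eq_mul, smul_eq_mul, map_mul, map_mul, subst_X]
      have h1 : dD α (X i) = C (α i) * X i := mkDerivation_X ℂ _ i
      have h2 : dE S (lin (h i)) = C (α i) * lin (h i) := by
        rw [dE_lin]
        have : S (h i) = α i • h i := hb i
        rw [this, lin_smul]
      rw [h1, h2, map_mul, subst_X]
      have h3 : subst h (C (α i)) = C (α i) := algHom_C _ _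
      rw [h3]
  have hiter : ∀ (j : ℕ) (f : (MvPolynomial (Fin n) ℂ)), (dE S)^[j] (subst h f) = subst h ((dD α)^[j] f) := by
    intro j
    induction j with
    | zero => intro f; rfl
    | succ j ih => intro f; rw [Function.iterate_succ_apply, hder, ih,
        ← Function.iterate_succ_apply]
  intro m hm
  have h1 : (dD α)^[k] (subst g F) = 0 := by
    have h2 := hiter k (subst g F)
    rw [hcompX g h hgh F, hk] at h2
    have h3 := hcompX h g hhg ((dD α)^[k] (subst g F))
    rw [← h2, map_zero] at h3
    exact h3.symm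
  have h4 := coeff_dD_iter α m k (subst g F)
  rw [h1, coeff_zero] at h4
  rcases mul_eq_zero.1 h4.symm with h5 | h5
  · exact (pow_eq_zero_iff (by rintro rfl; simp at h5)).1 h5
  · exact absurd h5 hm

/-! ### Rational weights -/

theorem rat_weights (α : Fin n → ℂ) (hα : ∑ i, α i ≠ 0) :
    ∃ β : Fin n → ℤ, ∑ i, β i ≠ 0 ∧
      ∀ m : Fin n → ℕ, ∑ i, (m i : ℂ) * α i = 0 → ∑ i, (m i : ℤ) * β i = 0 := by
  classical
  obtain ⟨ℓ, hℓ⟩ : ∃ ℓ : Module.Dual ℚ ℂ, ℓ (∑ i, α i) ≠ 0 := by
    by_contra hcon
    push Not at hcon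
    exact hα ((Module.forall_dual_apply_eq_zero_iff ℚ _).1 hcon)
  obtain ⟨⟨c, hc⟩, hcq⟩ := IsLocalization.exist_integer_multiples (nonZeroDivisors ℤ)
    (Finset.univ : Finset (Fin n)) (fun i => ℓ (α i))
  have hc0 : (c : ℚ) ≠ 0 := by
    have := nonZeroDivisors.ne_zero hc
    exact_mod_cast this
  choose β hβ using fun i => hcq i (Finset.mem_univ i)
  have hβ' : ∀ i, (β i : ℚ) = c * ℓ (α i) := by
    intro i
    have := hβ i
    simp only [algebraMap_int_eq, eq_intCast] at this
    rw [this]
    simp [zsmul_eq_mul]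
  refine ⟨β, ?_, ?_⟩
  · intro h
    have h1 : ((∑ i, β i : ℤ) : ℚ) = c * ℓ (∑ i, α i) := by
      rw [map_sum, Finset.mul_sum]
      push_cast
      exact Finset.sum_congr rfl fun i _ => hβ' i
    rw [h, Int.cast_zero] at h1
    exact (mul_ne_zero hc0 hℓ) h1.symm
  · intro m hm
    have h1 : ((∑ i, (m i : ℤ) * β i : ℤ) : ℚ) = c * ℓ (∑ i, (m i : ℂ) * α i) := by
      rw [map_sum, Finset.mul_sum]
      push_cast
      refine Finset.sum_congr rfl fun i _ => ?_
      rw [hβ' i]
      have : (m i : ℂ) * α i = (m i : ℚ) • α i := by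
        rw [Rat.smul_def]
        push_cast
        rfl
      rw [this, map_smul, smul_eq_mul]
      ring
    rw [hm, map_zero, mul_zero] at h1
    exact_mod_cast h1

end Gen

/-! ### Gradings of forms with a linear vector field of nonzero trace -/

section Form

variable {m : ℕ}

theorem lin_of_hom {v : MvPolynomial (Fin (m + 1)) ℂ} (hv : v.IsHomogeneous 1) :
    v = lin fun j => coeff (Finsupp.single j 1) v := by
  classical
  ext k
  rw [lin, coeff_sum]
  simp only [coeff_C_mul, coeff_X]
  by_cases hk : coeff k v = 0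
  · rw [hk]
    symm
    refine Finset.sum_eq_zero fun j _ => ?_
    by_cases h : Finsupp.single j 1 = k
    · rw [h, hk, zero_mul]
    · rw [if_neg h, mul_zero]
  · have h1 : k.degree = 1 := by
      by_contra h
      exact hk (hv.coeff_eq_zero h)
    obtain ⟨j, rfl⟩ : ∃ j, k = Finsupp.single j 1 := by
      rw [Finsupp.degree_eq_sum] at h1
      obtain ⟨j, -, hj⟩ := Finset.exists_ne_zero_of_sum_ne_zero (by rw [h1]; exact one_ne_zero)
      refine ⟨j, ?_⟩
      have h2 := Finset.add_sum_erase Finset.univ (fun i => k i) (Finset.mem_univ j)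
      have h3 : ∑ i ∈ Finset.univ.erase j, k i = 0 := by omega
      have h4 : k j = 1 := by omega
      ext i
      by_cases hi : i = j
      · rw [hi, Finsupp.single_eq_same, h4]
      · rw [Finsupp.single_eq_of_ne hi]
        exact (Finset.sum_eq_zero_iff.1 h3) i (Finset.mem_erase.2 ⟨hi, Finset.mem_univ _⟩)
    rw [Finset.sum_eq_single j]
    · simp
    · intro i _ hi
      rw [if_neg, mul_zero]
      intro h
      exact hi (Finsupp.single_left_injective one_ne_zero h)
    · simp

theorem subst_one {n : ℕ} (F : MvPolynomial (Fin n) ℂ) : subst 1 F = F := by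
  classical
  have : subst (1 : Matrix (Fin n) (Fin n) ℂ) = AlgHom.id ℂ _ := by
    apply MvPolynomial.algHom_ext
    intro i
    rw [subst_X, AlgHom.id_apply, ← lin_single]
    congr 1
    ext j
    rw [Matrix.one_apply, Pi.single_apply]
    simp [eq_comm]
  rw [this, AlgHom.id_apply]

/-- the standard grading of a form -/
theorem grading_std {n : ℕ} {F : MvPolynomial (Fin n) ℂ} {d : ℕ} (hF : F.IsHomogeneous d)
    (hd : 0 < d) : Grading F (fun _ => 1) d :=
  ⟨fun _ => Nat.one_pos, hd, 1, by simp, by rw [subst_one]; exact hF⟩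

/-- If there is a linear vector field `v` with `v(F) = 0` and nonzero trace, then `F` is weighted
homogeneous of degree `N d`, in suitable linear coordinates, with positive weights `β i`, and
`∑ β i ≠ N (m + 1)`. -/
theorem exists_grading {F : MvPolynomial (Fin (m + 1)) ℂ} {d : ℕ} (hF : F.IsHomogeneous d)
    (hd : 0 < d) (h : ¬ NoTrace F) : ∃ (β : Fin (m + 1) → ℕ) (N : ℕ), 0 < N ∧
      Grading F β (N * d) ∧ ∑ i, β i ≠ N * (m + 1) := by
  classical
  rw [NoTrace] at h
  push Not at h
  obtain ⟨v, hv, hvF, hne⟩ := h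
  set A : Matrix (Fin (m + 1)) (Fin (m + 1)) ℂ := fun i j => coeff (Finsupp.single j 1) (v i)
    with hA
  have hvA : ∀ i, v i = lin (A i) := fun i => lin_of_hom (hv i)
  set T : Module.End ℂ (Fin (m + 1) → ℂ) := Matrix.toLin' A.transpose with hT
  have hTs : ∀ i, T (Pi.single i 1) = A i := by
    intro i
    rw [hT, Matrix.toLin'_apply, Matrix.mulVec_single_one]
    rfl
  have hdE : ∀ f : MvPolynomial (Fin (m + 1)) ℂ, dE T f = ∑ i, v i * pderiv i f := by
    intro f
    induction f using MvPolynomial.induction_on with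
    | C c => simp [derivation_C]
    | add p q hp hq =>
      rw [map_add, hp, hq, ← Finset.sum_add_distrib]
      exact Finset.sum_congr rfl fun i _ => by rw [map_add, mul_add]
    | mul_X p j hp =>
      rw [Derivation.leibniz, hp, dE_X, hTs, ← hvA, smul_eq_mul, smul_eq_mul]
      have h1 : ∀ i ∈ Finset.univ, v i * pderiv i (p * X j) =
          (if i = j then p * v i else 0) + X j * (v i * pderiv i p) := by
        intro i _
        rw [pderiv_mul]
        split_ifs with hij
        · subst hij
          rw [pderiv_X_self]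
          ring
        · rw [pderiv_X_of_ne (Ne.symm hij)]
          ring
      rw [Finset.sum_congr rfl h1, Finset.sum_add_distrib, ← Finset.mul_sum]
      simp
  have htr : LinearMap.trace ℂ _ T ≠ 0 := by
    rw [hT, Matrix.trace_toLin'_eq, Matrix.trace_transpose, Matrix.trace]
    intro h0
    apply hne
    have h1 : ∀ i, pderiv i (v i) = C (A i i) := by
      intro i
      rw [hvA i, lin, map_sum, Finset.sum_eq_single i]
      · rw [pderiv_C_mul, pderiv_X_self, mul_one]
      · intro j _ hj
        rw [pderiv_C_mul, pderiv_X_of_ne hj, mul_zero]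
      · simp
    rw [Finset.sum_congr rfl fun i _ => h1 i, ← map_sum]
    have h2 : ∑ i, A i i = 0 := h0
    rw [h2, map_zero]
  obtain ⟨g, α, hg, hα, hm⟩ := diag_form (F := F) (T := T) (by rw [hdE, hvF])
  obtain ⟨β, hβ, hβm⟩ := rat_weights α (by rw [hα]; exact htr)
  set N : ℕ := 1 + ∑ i, (β i).natAbs with hN
  have hle : ∀ i, (β i).natAbs < N := by
    intro i
    have := Finset.single_le_sum (f := fun i => (β i).natAbs) (fun _ _ => Nat.zero_le _)
      (Finset.mem_univ i)
    omega
  have hcast : ∀ i, (((N : ℤ) + β i).toNat : ℤ) = N + β i := by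
    intro i
    have := hle i
    apply Int.toNat_of_nonneg
    omega
  refine ⟨fun i => ((N : ℤ) + β i).toNat, N, by omega,
    ⟨?_, Nat.mul_pos (by omega) hd, g, hg, ?_⟩, ?_⟩
  · intro i
    have h1 := hle i
    have h2 := hcast i
    have h3 : (0 : ℤ) < N + β i := by omega
    rw [← h2] at h3
    exact_mod_cast h3
  · intro k hk
    have hd : ∑ i, k i = d := by
      have h1 := subst_hom g hF
      have h2 : k.degree = d := by
        by_contra h
        exact hk (h1.coeff_eq_zero h)
      rw [Finsupp.degree_eq_sum] at h2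
      exact h2
    have h0 := hβm k (hm k hk)
    rw [Finsupp.weight_apply, Finsupp.sum_fintype _ _ (by simp)]
    zify
    have h3 : ∀ i ∈ Finset.univ, ((k i • ((N : ℤ) + β i).toNat : ℕ) : ℤ) = N * k i + k i * β i := by
      intro i _
      rw [smul_eq_mul, Nat.cast_mul, hcast]
      ring
    rw [Finset.sum_congr rfl h3, Finset.sum_add_distrib, h0, add_zero, ← Finset.mul_sum]
    have h4 : (∑ i, (k i : ℤ)) = d := by exact_mod_cast hd
    rw [h4]
  · intro h0
    apply hβ
    zify at h0
    rw [Finset.sum_congr rfl fun i _ => hcast i, Finset.sum_add_distrib] at h0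
    simp only [Finset.sum_const, Finset.card_univ, Fintype.card_fin, nsmul_eq_mul] at h0
    push_cast at h0
    linear_combination h0

end Form

end Pool.Agent.U739.IS
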