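import Pool.Agent.U739.IS.Tr
import Pool.Agent.U184.Lift
import Pool.Agent.U184.Hc

set_option autoImplicit false

/-! # Vector fields which annihilate a form with a smooth hyperplane section -/

namespace Pool.Agent.U739.IS

open MvPolynomial Pool.Agent.U184 Pool.Agent.W574.CN

variable {m : ℕ}

/-- A form `f` of degree `d`, such that the hypersurface `f = 0` in `P^m` is smooth along the
hyperplane `x_0 = 0`, and transversal to it. -/
structure FH (f : P (m + 1)) (d : ℕ) : Prop where
  hd : 0 < d
  hf : f.IsHomogeneous d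
  hf0 : f ≠ 0
  hz : ∀ q : Fin (m + 1) → ℂ, q 0 = 0 → (∀ t : Fin m, eval q (pderiv t.succ f) = 0) → q = 0

variable {f : P (m + 1)} {d : ℕ}

/-- the ideal of the derivatives with respect to `x_1, …, x_m` -/
noncomputable def JF (f : P (m + 1)) : Ideal (P (m + 1)) :=
  Ideal.span (Set.range fun t : Fin m => pderiv t.succ f)

theorem mem_JF {x : P (m + 1)} : x ∈ JF f ↔ ∃ c : Fin m → P (m + 1),
    ∑ t, c t * pderiv t.succ f = x :=
  Ideal.mem_span_range_iff_exists_fun

theorem KE_all (h : FH f d) :
    KE (Fin.cons (X 0) (fun t : Fin m => pderiv t.succ f) : Fin (m + 1) → P (m + 1)) := by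
  refine KE_of_zero _ fun q hq => h.hz q ?_ fun t => ?_
  · have := hq 0
    rwa [Fin.cons_zero, eval_X] at this
  · have := hq t.succ
    rwa [Fin.cons_succ] at this

theorem X_mem (h : FH f d) {a : P (m + 1)} (ha : X 0 * a ∈ JF f) : a ∈ JF f := by
  obtain ⟨c, hc⟩ := mem_JF.1 ha
  obtain ⟨B, hB1, hB2, hB3⟩ := KE_all h (Fin.cons a (fun t => - c t)) (by
    rw [Fin.sum_univ_succ]
    simp only [Fin.cons_zero, Fin.cons_succ, neg_mul, Finset.sum_neg_distrib]
    rw [hc]
    ring)
  have h1 := hB3 0
  rw [Fin.sum_univ_succ, hB2, zero_mul, zero_add, Fin.cons_zero] at h1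
  simp only [Fin.cons_succ] at h1
  exact mem_JF.2 ⟨_, h1.symm⟩

theorem Xpow_mem (h : FH f d) (N : ℕ) {a : P (m + 1)} (ha : X 0 ^ N * a ∈ JF f) : a ∈ JF f := by
  induction N with
  | zero => rwa [pow_zero, one_mul] at ha
  | succ N ih =>
    apply ih
    apply X_mem h
    rwa [← mul_assoc, ← pow_succ']

theorem pd_hom (h : FH f d) (t : Fin (m + 1)) : (pderiv t f).IsHomogeneous (d - 1) :=
  h.hf.pderiv

/-- the homogeneous components of a combination of the derivatives -/
theorem hc_pd (h : FH f d) (x : P (m + 1)) (t : Fin (m + 1)) (e : ℕ) :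
    homogeneousComponent e (x * pderiv t f) =
      (if d - 1 ≤ e then homogeneousComponent (e - (d - 1)) x else 0) * pderiv t f := by
  split_ifs with hle
  · obtain ⟨r, rfl⟩ := Nat.exists_eq_add_of_le hle
    rw [mul_comm x, hc_mul (pd_hom h t), Nat.add_sub_cancel_left, mul_comm]
  · rw [mul_comm x, hc_mul_zero (pd_hom h t) _ _ (by omega), zero_mul]

/-- **The syzygies of the derivatives with respect to `x_1, …, x_m` are the Koszul ones.** -/
theorem K1 (h : FH f d) : ∀ (e : ℕ) (r : Fin m → P (m + 1)), (∀ t, (r t).IsHomogeneous e) →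
    ∑ t, r t * pderiv t.succ f = 0 → ∃ B : Fin m → Fin m → P (m + 1),
      (∀ i j, B i j = - B j i) ∧ (∀ i, B i i = 0) ∧ ∀ t, r t = ∑ s, B t s * pderiv s.succ f := by
  intro e
  induction e with
  | zero =>
    intro r hr hs
    obtain ⟨B, hB1, hB2, hB3⟩ := KE_all h (Fin.cons 0 r) (by
      rw [Fin.sum_univ_succ]
      simp only [Fin.cons_zero, Fin.cons_succ, zero_mul, zero_add]
      exact hs)
    refine ⟨fun t s => if d - 1 ≤ 0 then homogeneousComponent (0 - (d - 1)) (B t.succ s.succ) else 0,
      fun i j => ?_, fun i => ?_, fun t => ?_⟩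
    · beta_reduce
      split_ifs
      · rw [hB1 i.succ j.succ, map_neg]
      · rw [neg_zero]
    · beta_reduce
      rw [hB2]; split_ifs
      · rw [map_zero]
      · rfl
    · have h1 := hB3 t.succ
      rw [Fin.sum_univ_succ] at h1
      simp only [Fin.cons_zero, Fin.cons_succ] at h1
      have h2 := congrArg (homogeneousComponent 0) h1
      rw [homogeneousComponent_eq_self (hr t), map_add, map_sum, mul_comm (B t.succ 0),
        hc_mul_zero (isHomogeneous_X ℂ (0 : Fin (m + 1))) _ _ (by norm_num), zero_add] at h2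
      rw [h2]
      exact Finset.sum_congr rfl fun s _ => hc_pd h _ _ _
  | succ e ih =>
    intro r hr hs
    obtain ⟨B, hB1, hB2, hB3⟩ := KE_all h (Fin.cons 0 r) (by
      rw [Fin.sum_univ_succ]
      simp only [Fin.cons_zero, Fin.cons_succ, zero_mul, zero_add]
      exact hs)
    have h0 := hB3 0
    rw [Fin.sum_univ_succ] at h0
    simp only [Fin.cons_zero, Fin.cons_succ, hB2, zero_mul, zero_add] at h0
    obtain ⟨B', hB'1, hB'2, hB'3⟩ := ih (fun t => homogeneousComponent e (B 0 t.succ))
      (fun t => homogeneousComponent_isHomogeneous _ _) (by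
        have h1 := congrArg (homogeneousComponent (e + (d - 1))) h0
        rw [map_zero, map_sum] at h1
        rw [h1]
        refine Finset.sum_congr rfl fun t _ => ?_
        rw [hc_pd h, if_pos (by omega), Nat.add_sub_cancel])
    refine ⟨fun t s => - (X 0 * B' t s) + (if d - 1 ≤ e + 1 then
      homogeneousComponent (e + 1 - (d - 1)) (B t.succ s.succ) else 0),
      fun i j => ?_, fun i => ?_, fun t => ?_⟩
    · beta_reduce
      rw [hB'1 i j, hB1 i.succ j.succ]
      split_ifs
      · rw [map_neg]; ring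
      · ring
    · beta_reduce
      rw [hB'2, hB2]; split_ifs
      · rw [map_zero]; ring
      · ring
    · have h1 := hB3 t.succ
      rw [Fin.sum_univ_succ] at h1
      simp only [Fin.cons_zero, Fin.cons_succ] at h1
      have h2 := congrArg (homogeneousComponent (e + 1)) h1
      have h3 : homogeneousComponent (e + 1) (B t.succ 0 * X 0) =
          X 0 * homogeneousComponent e (B t.succ 0) := by
        rw [mul_comm (B t.succ 0), ← hc_mul (isHomogeneous_X ℂ (0 : Fin (m + 1)))]
        congr 2
        exact add_comm _ _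
      rw [homogeneousComponent_eq_self (hr t), map_add, map_sum, h3, hB1 t.succ 0, map_neg,
        Finset.sum_congr rfl fun s _ => hc_pd h (B t.succ s.succ) s.succ (e + 1), hB'3 t] at h2
      rw [h2, mul_neg, Finset.mul_sum, ← Finset.sum_neg_distrib, ← Finset.sum_add_distrib]
      refine Finset.sum_congr rfl fun s _ => ?_
      ring

/-- **Fields which annihilate `f`.** -/
theorem koszul_field (h : FH f d) (e : ℕ) (v : Fin (m + 1) → P (m + 1))
    (hv : ∀ i, (v i).IsHomogeneous (e + (d - 1))) (hvf : ∑ i, v i * pderiv i f = 0)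
    (h0 : v 0 ∈ JF f) : ∃ A : Fin (m + 1) → Fin (m + 1) → P (m + 1),
      (∀ i j, (A i j).IsHomogeneous e) ∧ (∀ i j, A i j = - A j i) ∧ (∀ i, A i i = 0) ∧
      ∀ i, v i = ∑ j, A i j * pderiv j f := by
  obtain ⟨c₁, hc₁⟩ := mem_JF.1 h0
  -- homogeneous coefficients
  obtain ⟨c, hch, hc⟩ : ∃ c : Fin m → P (m + 1), (∀ t, (c t).IsHomogeneous e) ∧
      ∑ t, c t * pderiv t.succ f = v 0 := by
    refine ⟨fun t => homogeneousComponent e (c₁ t),
      fun t => homogeneousComponent_isHomogeneous _ _, ?_⟩
    have h1 := congrArg (homogeneousComponent (e + (d - 1))) hc₁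
    rw [homogeneousComponent_eq_self (hv 0), map_sum] at h1
    rw [← h1]
    refine Finset.sum_congr rfl fun t _ => ?_
    rw [hc_pd h, if_pos (by omega), Nat.add_sub_cancel]
  obtain ⟨B, hB1, hB2, hB3⟩ := K1 h (e + (d - 1)) (fun t => v t.succ + c t * pderiv 0 f)
    (fun t => (hv t.succ).add ((hch t).mul (pd_hom h 0))) (by
      rw [Fin.sum_univ_succ, ← hc, Finset.sum_mul] at hvf
      rw [← hvf, ← Finset.sum_add_distrib]
      refine Finset.sum_congr rfl fun t _ => ?_
      ring)
  -- homogeneous matrix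
  let B₁ : Fin m → Fin m → P (m + 1) := fun t s => homogeneousComponent e (B t s)
  have hB4 : ∀ t, v t.succ = - (c t * pderiv 0 f) + ∑ s, B₁ t s * pderiv s.succ f := by
    intro t
    have h1 := congrArg (homogeneousComponent (e + (d - 1))) (hB3 t)
    beta_reduce at h1
    rw [homogeneousComponent_eq_self ((hv t.succ).add ((hch t).mul (pd_hom h 0))), map_sum] at h1
    have h2 : ∀ s, homogeneousComponent (e + (d - 1)) (B t s * pderiv s.succ f) =
        B₁ t s * pderiv s.succ f := by
      intro s
      rw [hc_pd h, if_pos (by omega), Nat.add_sub_cancel]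
    rw [Finset.sum_congr rfl fun s _ => h2 s] at h1
    linear_combination h1
  refine ⟨Fin.cons (Fin.cons 0 c) (fun t => Fin.cons (- c t) (B₁ t)), ?_, ?_, ?_, ?_⟩
  · intro i j
    refine Fin.cases ?_ (fun t => ?_) i <;> refine Fin.cases ?_ (fun s => ?_) j
    · simp only [Fin.cons_zero]
      exact isHomogeneous_zero _ _ _
    · simp only [Fin.cons_zero, Fin.cons_succ]
      exact hch s
    · simp only [Fin.cons_zero, Fin.cons_succ]
      exact (hch t).neg
    · simp only [Fin.cons_succ]
      exact homogeneousComponent_isHomogeneous _ _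
  · intro i j
    refine Fin.cases ?_ (fun t => ?_) i <;> refine Fin.cases ?_ (fun s => ?_) j
    · simp only [Fin.cons_zero, neg_zero]
    · simp only [Fin.cons_zero, Fin.cons_succ, neg_neg]
    · simp only [Fin.cons_zero, Fin.cons_succ]
    · simp only [Fin.cons_succ, B₁]
      rw [hB1 t s, map_neg]
  · intro i
    refine Fin.cases ?_ (fun t => ?_) i
    · simp only [Fin.cons_zero]
    · simp only [Fin.cons_succ, B₁]
      rw [hB2, map_zero]
  · intro i
    refine Fin.cases ?_ (fun t => ?_) i
    · rw [Fin.sum_univ_succ]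
      simp only [Fin.cons_zero, Fin.cons_succ, zero_mul, zero_add]
      exact hc.symm
    · rw [Fin.sum_univ_succ]
      simp only [Fin.cons_zero, Fin.cons_succ]
      rw [hB4 t]
      ring

/-- membership in the ideal can be checked in the chart `x_0 = 1` -/
theorem chart_mem (h : FH f d) (e : ℕ) (a : P (m + 1)) (ha : a.IsHomogeneous e)
    (hj : deh 0 a ∈ jac (deh 0 f)) : a ∈ JF f := by
  obtain ⟨c, hc⟩ := Ideal.mem_span_range_iff_exists_fun.1 hj
  set N := ∑ t, (c t).totalDegree + (d - 1) with hN
  have hct : ∀ t, (c t).totalDegree ≤ N + e - (d - 1) := by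
    intro t
    have : (c t).totalDegree ≤ ∑ t, (c t).totalDegree :=
      Finset.single_le_sum (f := fun t => (c t).totalDegree) (fun _ _ => Nat.zero_le _)
        (Finset.mem_univ t)
    omega
  choose C' hC1 hC2 using fun t => hom_lift (0 : Fin (m + 1)) (c t) (N + e - (d - 1)) (hct t)
  apply Xpow_mem h N
  have e1 : N + e - (d - 1) + (d - 1) = N + e := by omega
  have h1 : (∑ t, C' t * pderiv t.succ f - X 0 ^ N * a).IsHomogeneous (N + e) := by
    refine (IsHomogeneous.sum _ _ _ fun t _ => ?_).sub ?_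
    · have := (hC1 t).mul (pd_hom h t.succ)
      rwa [e1] at this
    · have := ((isHomogeneous_X ℂ (0 : Fin (m + 1))).pow N).mul ha
      rwa [one_mul] at this
  have h2 := deh_inj 0 h1 (by
    rw [map_sub, map_sum, map_mul, map_pow, deh_self, one_pow, one_mul, ← hc, sub_eq_zero]
    refine Finset.sum_congr rfl fun t _ => ?_
    rw [map_mul, hC2]
    congr 1
    exact deh_pderiv 0 t f)
  rw [sub_eq_zero] at h2
  exact mem_JF.2 ⟨_, h2⟩

/-- ideal membership is local -/
theorem local_global {n : ℕ} (J : Ideal (P n)) (a : P n)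
    (h : ∀ p : Fin n → ℂ, ∃ r : P n, eval p r ≠ 0 ∧ r * a ∈ J) : a ∈ J := by
  let I : Ideal (P n) := Submodule.comap (LinearMap.mulLeft (P n) a) J
  have hI : ∀ r, r ∈ I ↔ r * a ∈ J := by
    intro r
    show a * r ∈ J ↔ _
    rw [mul_comm]
  have h1 : I = ⊤ := by
    by_contra hne
    obtain ⟨M, hM, hIM⟩ := Ideal.exists_le_maximal I hne
    obtain ⟨p, hp⟩ := isMaximal_iff_eq_vanishingIdeal_singleton.1 hM
    obtain ⟨r, hr, hra⟩ := h p
    have h2 : r ∈ M := hIM ((hI r).2 hra)
    rw [hp, mem_vanishingIdeal_iff] at h2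
    exact hr (h2 p rfl)
  have h2 : (1 : P n) ∈ I := by rw [h1]; trivial
  have := (hI 1).1 h2
  rwa [one_mul] at this

end Pool.Agent.U739.IS
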