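import Pool.Agent.Helper816.Koszul

set_option autoImplicit false

/-! # Syzygies of polynomials in `m` variables whose ideal contains powers of the variables -/

open Finset

namespace Pool.Agent.U739.IS

open Pool.Agent.Helper816.Koszul

variable {A : Type*} [CommRing A]

/-- exterior multiplication with `∑ c_j e_j` -/
def wd {e : ℕ} (c : Fin e → A) (u : Finset (Fin e) → A) (G : Finset (Fin e)) : A :=
  ∑ j : Fin e, if j ∈ G then ksign A j G * c j * u (G.erase j) else 0

theorem wd_up {e : ℕ} (c : Fin (e + 1) → A) (u : Finset (Fin (e + 1)) → A) (G : Finset (Fin e)) :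
    wd c u (up G) = wd (fun j => c j.succ) (fun F => u (up F)) G := by
  unfold wd
  rw [Fin.sum_univ_succ, if_neg (zero_notMem_up G), zero_add]
  refine Finset.sum_congr rfl fun j _ => ?_
  rw [ksign_up]
  simp only [succ_mem_up]
  by_cases hj : j ∈ G
  · rw [if_pos hj, if_pos hj]
    congr 2
    ext x
    refine Fin.cases ?_ (fun x => ?_) x
    · simp [zero_notMem_up]
    · rw [Finset.mem_erase, succ_mem_up, succ_mem_up, Finset.mem_erase, Ne, Ne, Fin.succ_inj]
  · rw [if_neg hj, if_neg hj]

theorem wd_insert_up {e : ℕ} (c : Fin (e + 1) → A) (u : Finset (Fin (e + 1)) → A)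
    (G : Finset (Fin e)) :
    wd c u (insert 0 (up G)) = c 0 * u (up G) -
      wd (fun j => c j.succ) (fun F => u (insert 0 (up F))) G := by
  unfold wd
  rw [Fin.sum_univ_succ, if_pos (by simp), sub_eq_add_neg, ← Finset.sum_neg_distrib]
  congr 1
  · have h1 : ksign A (0 : Fin (e + 1)) (insert 0 (up G)) = 1 := ksign_zero _
    rw [h1, one_mul, Finset.erase_insert (zero_notMem_up G)]
  · refine Finset.sum_congr rfl fun j _ => ?_
    rw [ksign_insert_up]
    have : (j.succ ∈ insert 0 (up G)) ↔ j ∈ G := by
      rw [Finset.mem_insert, succ_mem_up]; simp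
    by_cases hj : j ∈ G
    · rw [if_pos (this.2 hj), if_pos hj]
      have h2 : (insert 0 (up G)).erase j.succ = insert 0 (up (G.erase j)) := by
        ext x
        refine Fin.cases ?_ (fun x => ?_) x
        · simp [(Fin.succ_ne_zero j).symm]
        · rw [Finset.mem_erase, Finset.mem_insert, succ_mem_up, Finset.mem_insert, succ_mem_up,
            Finset.mem_erase, Ne, Ne, Fin.succ_inj]
          simp
      rw [h2]
      ring
    · rw [if_neg (fun h => hj (this.1 h)), if_neg hj, neg_zero]

/-- the homotopy formula -/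
theorem homotopy {e : ℕ} (f c : Fin e → A) (u : Finset (Fin e) → A) (G : Finset (Fin e)) :
    kD f (wd c u) G + wd c (kD f u) G = (∑ j, f j * c j) * u G := by
  induction e with
  | zero => simp [kD, wd]
  | succ e ih =>
    have hsub : ∀ (v w : Finset (Fin e) → A) (a : A) (H : Finset (Fin e)),
        kD (fun j => f j.succ) (fun F => a * v F - w F) H =
          a * kD (fun j => f j.succ) v H - kD (fun j => f j.succ) w H := by
      intro v w a H
      have h1 := kD_add (fun j => f j.succ) (fun F => a * v F) (fun F => - w F) H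
      rw [kD_smul, kD_neg] at h1
      simp only [sub_eq_add_neg]
      exact h1
    have wadd : ∀ (v w : Finset (Fin e) → A) (a : A) (H : Finset (Fin e)),
        wd (fun j => c j.succ) (fun F => a * v F + w F) H =
          a * wd (fun j => c j.succ) v H + wd (fun j => c j.succ) w H := by
      intro v w a H
      unfold wd
      rw [Finset.mul_sum, ← Finset.sum_add_distrib]
      refine Finset.sum_congr rfl fun j _ => ?_
      split_ifs <;> ring
    have wneg : ∀ (v : Finset (Fin e) → A) (H : Finset (Fin e)),
        wd (fun j => c j.succ) (fun F => - v F) H = - wd (fun j => c j.succ) v H := by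
      intro v H
      unfold wd
      rw [← Finset.sum_neg_distrib]
      refine Finset.sum_congr rfl fun j _ => ?_
      split_ifs <;> ring
    rw [Fin.sum_univ_succ]
    by_cases h : (0 : Fin (e + 1)) ∈ G
    · rw [← insert_up_dn G h, kD_insert_up, wd_insert_up]
      have e1 : (fun F => wd c u (insert 0 (up F))) = fun F => c 0 * u (up F) -
          wd (fun j => c j.succ) (fun F => u (insert 0 (up F))) F := by
        funext F; rw [wd_insert_up]
      have e2 : (fun F => kD f u (insert 0 (up F))) = fun F =>
          - kD (fun j => f j.succ) (fun F => u (insert 0 (up F))) F := by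
        funext F; rw [kD_insert_up]
      have e3 := kD_up f u (dn G)
      have h3 := ih (fun j => f j.succ) (fun j => c j.succ) (fun F => u (insert 0 (up F))) (dn G)
      rw [e1, e2, hsub, wneg, e3]
      linear_combination h3
    · rw [← up_dn G h, kD_up, wd_up, wd_insert_up]
      have e1 : (fun F => wd c u (up F)) = fun F =>
          wd (fun j => c j.succ) (fun F => u (up F)) F := by
        funext F; rw [wd_up]
      have e2 : (fun F => kD f u (up F)) = fun F => f 0 * u (insert 0 (up F)) +
          kD (fun j => f j.succ) (fun F => u (up F)) F := by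
        funext F; rw [kD_up]
      have h3 := ih (fun j => f j.succ) (fun j => c j.succ) (fun F => u (up F)) (dn G)
      rw [e1, e2, wadd]
      linear_combination h3

/-- exactness in degree `i`, modulo the ideal `J` -/
def PP {e : ℕ} (f : Fin e → A) (J : Ideal A) (i : ℕ) : Prop :=
  ∀ u : Finset (Fin e) → A, (∀ G : Finset (Fin e), G.card + 1 = i → kD f u G ∈ J) →
    ∃ v : Finset (Fin e) → A, ∀ G : Finset (Fin e), G.card = i → u G - kD f v G ∈ J

theorem kD_mem {e : ℕ} (f : Fin e → A) (J : Ideal A) (u : Finset (Fin e) → A)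
    (G : Finset (Fin e)) (h : ∀ j, j ∉ G → u (insert j G) ∈ J) : kD f u G ∈ J := by
  unfold kD
  refine J.sum_mem fun j _ => ?_
  by_cases hj : j ∈ G
  · rw [if_neg (by simpa using hj)]
    exact J.zero_mem
  · rw [if_pos hj]
    exact J.mul_mem_left _ (h j hj)

theorem PP_step {e : ℕ} (f : Fin e → A) (J : Ideal A) (i : ℕ) (y : A)
    (hy : y ∈ Ideal.span (Set.range f)) (hreg : ∀ a, y * a ∈ J → a ∈ J)
    (h : PP f (J ⊔ Ideal.span {y}) (i + 1)) : PP f J i := by
  classical
  intro u hu
  obtain ⟨c, hc⟩ := Ideal.mem_span_range_iff_exists_fun.1 hy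
  have hcy : ∑ j, f j * c j = y := by
    rw [← hc]
    exact Finset.sum_congr rfl fun j _ => mul_comm _ _
  have h1 : ∀ G : Finset (Fin e), G.card = i → y * u G - kD f (wd c u) G ∈ J := by
    intro G hG
    rw [← hcy, ← homotopy f c u G, add_sub_cancel_left]
    unfold wd
    refine J.sum_mem fun j _ => ?_
    split_ifs with hj
    · refine J.mul_mem_left _ (hu _ ?_)
      rw [Finset.card_erase_of_mem hj]
      have : 0 < G.card := Finset.card_pos.2 ⟨j, hj⟩
      omega
    · exact J.zero_mem
  obtain ⟨w, hw⟩ := h (wd c u) (fun G hG => by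
    have h2 := h1 G (by omega)
    have e1 : kD f (wd c u) G = y * u G - (y * u G - kD f (wd c u) G) := by ring
    rw [e1]
    refine Ideal.sub_mem _ (Ideal.mul_mem_right _ _ (Ideal.mem_sup_right
      (Ideal.subset_span rfl))) (Ideal.mem_sup_left h2))
  have hw' : ∀ G : Finset (Fin e), ∃ a' v' : A, G.card = i + 1 → a' ∈ J ∧
      wd c u G - kD f w G = a' + y * v' := by
    intro G
    by_cases hG : G.card = i + 1
    · obtain ⟨a', ha', z, hz, h3⟩ := Submodule.mem_sup.1 (hw G hG)
      obtain ⟨v', rfl⟩ := Ideal.mem_span_singleton'.1 hz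
      exact ⟨a', v', fun _ => ⟨ha', by rw [← h3, mul_comm y]⟩⟩
    · exact ⟨0, 0, fun h => absurd h hG⟩
  choose a' v' hv' using hw'
  refine ⟨v', fun G hG => hreg _ ?_⟩
  have h4 : kD f (wd c u) G = kD f a' G + y * kD f v' G := by
    have e2 : kD f (wd c u) G = kD f (fun F => kD f w F + (a' F + y * v' F)) G := by
      refine kD_congr f _ _ G fun j hj => ?_
      have := (hv' (insert j G) (by rw [Finset.card_insert_of_notMem hj, hG])).2
      linear_combination this
    rw [e2, kD_add, kD_kD, zero_add, kD_add, kD_smul]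
  have h5 : y * (u G - kD f v' G) = (y * u G - kD f (wd c u) G) + kD f a' G := by
    rw [h4]; ring
  rw [h5]
  refine J.add_mem (h1 G hG) (kD_mem f J _ G fun j hj => (hv' _ ?_).1)
  rw [Finset.card_insert_of_notMem hj, hG]

/-- a sequence which is regular modulo `J` -/
def RegSeq (J : Ideal A) : List A → Prop
  | [] => True
  | y :: l => (∀ a, y * a ∈ J → a ∈ J) ∧ RegSeq (J ⊔ Ideal.span {y}) l

theorem PP_of_reg {e : ℕ} (f : Fin e → A) (l : List A) :
    ∀ (J : Ideal A) (i : ℕ), (∀ y ∈ l, y ∈ Ideal.span (Set.range f)) → RegSeq J l →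
      e < i + l.length → PP f J i := by
  induction l with
  | nil =>
    intro J i _ _ hi u _
    refine ⟨0, fun G hG => ?_⟩
    exfalso
    have h1 := Finset.card_le_univ G
    rw [Fintype.card_fin] at h1
    simp only [List.length_nil] at hi
    omega
  | cons y l ih =>
    intro J i hl hr hi
    refine PP_step f J i y (hl y (by simp)) hr.1 (ih _ _ (fun z hz => hl z (by simp [hz])) hr.2 ?_)
    simp only [List.length_cons] at hi
    omega

/-- all syzygies are Koszul syzygies -/
def KE {ι : Type*} [Fintype ι] (f : ι → A) : Prop :=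
  ∀ r : ι → A, ∑ j, r j * f j = 0 → ∃ B : ι → ι → A, (∀ i j, B i j = - B j i) ∧
    (∀ i, B i i = 0) ∧ ∀ i, r i = ∑ j, B i j * f j

theorem KE_of_PP {e : ℕ} (f : Fin e → A) (h : PP f ⊥ 1) : KE f := by
  classical
  intro r hr
  obtain ⟨v, hv⟩ := h (fun G => ∑ j ∈ G, r j) (fun G hG => by
    have hG0 : G = ∅ := Finset.card_eq_zero.1 (by omega)
    rw [hG0, Ideal.mem_bot, ← hr]
    unfold kD
    refine Finset.sum_congr rfl fun j _ => ?_
    rw [if_pos (Finset.notMem_empty j)]
    simp [ksign, mul_comm])
  refine ⟨fun i j => if i < j then -v {i, j} else if j < i then v {j, i} else 0, fun i j => ?_,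
    fun i => by simp, fun i => ?_⟩
  · beta_reduce
    rcases lt_trichotomy i j with h1 | h1 | h1
    · rw [if_pos h1, if_neg (not_lt.2 h1.le), if_pos h1]
    · subst h1; simp
    · rw [if_neg (not_lt.2 h1.le), if_pos h1, if_pos h1, neg_neg]
  · have h2 := hv {i} (Finset.card_singleton i)
    rw [Ideal.mem_bot, Finset.sum_singleton, sub_eq_zero] at h2
    rw [h2]
    unfold kD
    refine Finset.sum_congr rfl fun j _ => ?_
    beta_reduce
    rcases lt_trichotomy i j with h1 | h1 | h1
    · rw [if_pos (by simpa using h1.ne'), if_pos h1]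
      have e1 : ksign A j {i} = -1 := by
        unfold ksign
        rw [Finset.filter_true_of_mem (by simpa using h1)]
        simp
      have e2 : ({i, j} : Finset (Fin e)) = insert j {i} := Finset.pair_comm _ _
      rw [e1, e2]
      ring
    · subst h1
      rw [if_neg (by simp), if_neg (lt_irrefl _), if_neg (lt_irrefl _), zero_mul]
    · rw [if_pos (by simpa using h1.ne), if_neg (not_lt.2 h1.le), if_pos h1]
      have e1 : ksign A j {i} = 1 := by
        unfold ksign
        rw [Finset.filter_false_of_mem (by simpa using h1.le)]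
        simp
      rw [e1]
      ring

end Pool.Agent.U739.IS
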