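import Pool.Agent.U739.IS.Dg

set_option autoImplicit false

/-! # The local lemma at an isolated weighted homogeneous singularity -/

namespace Pool.Agent.U739.IS

open MvPowerSeries

variable {m : ℕ}

instance instTF : IsAddTorsionFree (T m) := .of_isTorsionFree ℂ _

/-- the ideal of the partial derivatives -/
noncomputable def Jac (G : T m) : Ideal (T m) := Ideal.span (Set.range fun i => pderiv ℂ i G)

theorem mem_Jac {G x : T m} : x ∈ Jac G ↔ ∃ c : Fin m → T m, ∑ i, c i * pderiv ℂ i G = x :=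
  Ideal.mem_span_range_iff_exists_fun

/-- the sum of the weights -/
def sw (w : Fin m → ℕ) : ℕ := ∑ i, w i

structure LD (w : Fin m → ℕ) (D : ℕ) (G : T m) : Prop where
  hD : 0 < D
  hG : WH w 0 D G
  ke : KE fun i => pderiv ℂ i G

variable {w : Fin m → ℕ} {D : ℕ} {G : T m}

theorem euler_G (h : LD w D G) : ∑ i, C (w i : ℂ) * X i * pderiv ℂ i G = C (D : ℂ) * G := by
  rw [euler, dg_WH h.hG]

theorem G_mem (h : LD w D G) : G ∈ Jac G := by
  have hD : (D : ℂ) ≠ 0 := Nat.cast_ne_zero.2 h.hD.ne'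
  have h1 : C (D : ℂ) * G ∈ Jac G := by
    rw [← euler_G h]
    exact Ideal.sum_mem _ fun i _ => Ideal.mul_mem_left _ _ (Ideal.subset_span ⟨i, rfl⟩)
  have h2 := (Jac G).mul_mem_left (C (D : ℂ)⁻¹) h1
  rwa [← mul_assoc, ← map_mul, inv_mul_cancel₀ hD, map_one, one_mul] at h2

/-- diagonal operators preserve the ideal of the partial derivatives -/
theorem dg_comb (h : LD w D G) (c : ℕ → ℂ) (z : Fin m → T m) :
    dg w c (∑ i, z i * pderiv ℂ i G) =
      ∑ i, dg w (fun e => c (e + D - w i)) (z i) * pderiv ℂ i G := by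
  rw [map_sum]
  refine Finset.sum_congr rfl fun i _ => ?_
  have h1 := dg_mul (WH_pderiv h.hG i) (fun n => c (n - w i)) (z i)
  rw [mul_comm (z i), mul_comm (dg w _ (z i)), ← h1]
  exact dg_congr _ _ _ (fun e => by rw [Nat.add_sub_cancel]) _

theorem dg_Jac (h : LD w D G) (c : ℕ → ℂ) {x : T m} (hx : x ∈ Jac G) : dg w c x ∈ Jac G := by
  obtain ⟨z, rfl⟩ := mem_Jac.1 hx
  rw [dg_comb h]
  exact mem_Jac.2 ⟨_, rfl⟩

theorem field_form (h : LD w D G) (v : Fin m → T m) (u : T m)
    (hv : ∑ i, v i * pderiv ℂ i G = u * G) : ∃ B : Fin m → Fin m → T m,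
      (∀ i j, B i j = - B j i) ∧
      ∀ i, v i = C (D : ℂ)⁻¹ * (C (w i : ℂ) * X i * u) + ∑ j, B i j * pderiv ℂ j G := by
  have hD : (D : ℂ) ≠ 0 := Nat.cast_ne_zero.2 h.hD.ne'
  have h1 : C (D : ℂ)⁻¹ * C (D : ℂ) = (1 : T m) := by
    rw [← map_mul, inv_mul_cancel₀ hD, map_one]
  obtain ⟨B, hB, -, hB2⟩ := h.ke (fun i => v i - C (D : ℂ)⁻¹ * (C (w i : ℂ) * X i * u)) (by
    simp only [sub_mul, Finset.sum_sub_distrib]
    rw [hv]
    have h2 : ∑ i, C (D : ℂ)⁻¹ * (C (w i : ℂ) * X i * u) * pderiv ℂ i G =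
        C (D : ℂ)⁻¹ * u * ∑ i, C (w i : ℂ) * X i * pderiv ℂ i G := by
      rw [Finset.mul_sum]
      exact Finset.sum_congr rfl fun i _ => by ring
    rw [h2, euler_G h]
    linear_combination (-(u * G)) * h1)
  exact ⟨B, hB, fun i => by rw [← hB2 i]; ring⟩

theorem div_form (h : LD w D G) (v : Fin m → T m) (u : T m)
    (hv : ∑ i, v i * pderiv ℂ i G = u * G) (β : ℂ) : ∃ z : Fin m → T m,
      ∑ i, pderiv ℂ i (z i) = 0 ∧
      ∑ i, pderiv ℂ i (v i) - C β * u =
        C (D : ℂ)⁻¹ * dg w (fun e => (e : ℂ) + sw w - D * β) u + ∑ i, z i * pderiv ℂ i G := by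
  classical
  have hD : (D : ℂ) ≠ 0 := Nat.cast_ne_zero.2 h.hD.ne'
  obtain ⟨B, hB, hv2⟩ := field_form h v u hv
  refine ⟨fun j => ∑ i, pderiv ℂ i (B i j), ?_, ?_⟩
  · exact div_div (fun i => pderiv ℂ i) (fun i j x => pd_comm x) B hB
  · have h1 := div_koszul (fun i => pderiv ℂ i) (fun i j x => pd_comm x) G B hB
    have h2 : ∑ i, pderiv ℂ i (v i) = ∑ i, pderiv ℂ i (C (D : ℂ)⁻¹ * (C (w i : ℂ) * X i * u)) +
        ∑ i, pderiv ℂ i (∑ j, B i j * pderiv ℂ j G) := by
      rw [← Finset.sum_add_distrib]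
      refine Finset.sum_congr rfl fun i _ => ?_
      rw [← map_add, ← hv2 i]
    have h3 : ∀ i, pderiv ℂ i (C (D : ℂ)⁻¹ * (C (w i : ℂ) * X i * u)) =
        C (D : ℂ)⁻¹ * (C (w i : ℂ) * u + C (w i : ℂ) * X i * pderiv ℂ i u) := by
      intro i
      simp only [Derivation.leibniz, pderiv_C, pderiv_X_self, smul_eq_mul]
      ring
    have h4 : dg w (fun e => (e : ℂ) + sw w - D * β) u =
        dg w (fun e => (e : ℂ)) u + (C (sw w : ℂ) - C ((D : ℂ) * β)) * u := by
      ext a
      rw [map_add, coeff_dg, coeff_dg, ← map_sub C, coeff_C_mul]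
      ring
    have h5 : ∑ i, C (w i : ℂ) * u = C (sw w : ℂ) * u := by
      rw [← Finset.sum_mul, ← map_sum, sw]
      push_cast
      rfl
    rw [h2, h1, Finset.sum_congr rfl fun i _ => h3 i, ← Finset.mul_sum, Finset.sum_add_distrib,
      h5, euler, h4]
    have h6 : C (D : ℂ)⁻¹ * C ((D : ℂ) * β) = (C β : T m) := by
      rw [← map_mul, ← mul_assoc, inv_mul_cancel₀ hD, one_mul]
    linear_combination u * h6

/-- **The resonant degree.** -/
theorem reso (h : LD w D G) (α : ℂ) (hα : ∀ j : ℕ, α + j ≠ 0) (k : ℕ) (hk : 1 ≤ k) (e0 : ℕ)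
    (he : (e0 : ℂ) + sw w - D * (α + k) = 0) (K : ℕ) :
    ∀ (v : Fin m → T m) (x r : T m),
      G ^ (K + 1) * x = G * ∑ i, pderiv ℂ i (v i) - C (α + k + K) * ∑ i, v i * pderiv ℂ i G +
        G ^ (k + K + 1) * r → dg w (fun e => if e = e0 then 1 else 0) x ∈ Jac G := by
  have main : ∀ (K : ℕ) (v : Fin m → T m) (x r : T m),
      G ^ (K + 1) * x = G * ∑ i, pderiv ℂ i (v i) - C (α + k + K) * ∑ i, v i * pderiv ℂ i G +
        G ^ (k + K + 1) * r → ∃ (z : Fin m → T m) (r' : T m), ∑ i, pderiv ℂ i (z i) = 0 ∧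
        G ^ K * dg w (fun e => if e = e0 then 1 else 0) x =
          ∑ i, z i * pderiv ℂ i G + G ^ (k + K) * r' := by
    intro K v x r hE
    set β : ℂ := α + k + K with hβ
    have hβ0 : β ≠ 0 := by
      have := hα (k + K)
      rw [hβ, add_assoc]
      push_cast at this
      exact this
    have hC : C β⁻¹ * C β = (1 : T m) := by rw [← map_mul, inv_mul_cancel₀ hβ0, map_one]
    set u : T m := C β⁻¹ * (∑ i, pderiv ℂ i (v i) + G ^ (k + K) * r - G ^ K * x) with hu
    have hv : ∑ i, v i * pderiv ℂ i G = u * G := by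
      rw [hu]
      have e1 : G ^ (k + K + 1) = G ^ (k + K) * G := pow_succ _ _
      have e2 : G ^ (K + 1) = G ^ K * G := pow_succ _ _
      rw [e1, e2] at hE
      linear_combination (-(∑ i, v i * pderiv ℂ i G)) * hC + C β⁻¹ * hE
    have hu2 : G ^ K * x = ∑ i, pderiv ℂ i (v i) - C β * u + G ^ (k + K) * r := by
      rw [hu]
      linear_combination (∑ i, pderiv ℂ i (v i) + G ^ (k + K) * r - G ^ K * x) * hC
    obtain ⟨z, hz, hz2⟩ := div_form h v u hv β
    rw [hz2] at hu2
    have h3 := congrArg (dg w (fun e => if e = e0 + K * D then 1 else 0)) hu2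
    rw [map_add, map_add, dg_comb h] at h3
    have e3 := dg_mul (WH_pow h.hG K) (fun e => if e = e0 + K * D then 1 else 0) x
    rw [show (fun e => (fun e => if e = e0 + K * D then (1 : ℂ) else 0) (e + 0)) =
      (fun e => if e = e0 + K * D then (1 : ℂ) else 0) from rfl] at e3
    have e4 : dg w (fun e => (fun e => if e = e0 + K * D then (1 : ℂ) else 0) (e + K * D)) x =
        dg w (fun e => if e = e0 then 1 else 0) x :=
      dg_congr _ _ _ (fun e => by
        show (if e + K * D = e0 + K * D then (1 : ℂ) else 0) = _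
        by_cases he : e = e0
        · rw [if_pos he, if_pos (by omega)]
        · rw [if_neg he, if_neg (by omega)]) _
    rw [e3, e4] at h3
    have e5 := dg_mul (WH_pow h.hG (k + K)) (fun e => if e = e0 + K * D then 1 else 0) r
    rw [show (fun e => (fun e => if e = e0 + K * D then (1 : ℂ) else 0) (e + 0)) =
      (fun e => if e = e0 + K * D then (1 : ℂ) else 0) from rfl] at e5
    rw [e5] at h3
    have e6 : dg w (fun e => if e = e0 + K * D then 1 else 0)
        (C (D : ℂ)⁻¹ * dg w (fun e => (e : ℂ) + sw w - D * β) u) = 0 := by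
      ext a
      rw [coeff_dg, coeff_C_mul, coeff_dg, map_zero]
      by_cases ha : wt w a = e0 + K * D
      · rw [if_pos ha, ha]
        have : ((e0 + K * D : ℕ) : ℂ) + sw w - D * β = 0 := by
          rw [hβ]; push_cast; linear_combination he
        rw [this]; ring
      · rw [if_neg ha, zero_mul]
    rw [e6, zero_add] at h3
    refine ⟨_, _, ?_, h3⟩
    have e7 : ∀ i, pderiv ℂ i (dg w (fun e => if e + D - w i = e0 + K * D then 1 else 0) (z i)) =
        dg w (fun e => if e + D = e0 + K * D then 1 else 0) (pderiv ℂ i (z i)) := by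
      intro i
      rw [← dg_pderiv]
      exact dg_congr _ _ _ (fun e => by
        have : e + w i + D - w i = e + D := by omega
        rw [this]) _
    rw [Finset.sum_congr rfl fun i _ => e7 i, ← map_sum, hz, map_zero]
  induction K with
  | zero =>
    intro v x r hE
    obtain ⟨z, r', -, h2⟩ := main 0 v x r hE
    rw [pow_zero, one_mul, add_zero] at h2
    rw [h2]
    refine Ideal.add_mem _ (mem_Jac.2 ⟨z, rfl⟩) ?_
    obtain ⟨k', rfl⟩ : ∃ k', k = k' + 1 := ⟨k - 1, by omega⟩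
    rw [pow_succ, mul_assoc, mul_left_comm]
    exact Ideal.mul_mem_right _ _ (G_mem h)
  | succ K ih =>
    intro v x r hE
    obtain ⟨z, r', hz, h2⟩ := main (K + 1) v x r hE
    set β : ℂ := α + k + K with hβ
    have hβ0 : β ≠ 0 := by
      have := hα (k + K)
      rw [hβ, add_assoc]
      push_cast at this
      exact this
    have hC : C β⁻¹ * C β = (1 : T m) := by rw [← map_mul, inv_mul_cancel₀ hβ0, map_one]
    have h3 := ih (fun i => - (C β⁻¹ * z i)) (dg w (fun e => if e = e0 then 1 else 0) x) r' (by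
      have e1 : ∀ i, pderiv ℂ i (-(C β⁻¹ * z i)) = -(C β⁻¹ * pderiv ℂ i (z i)) := by
        intro i
        rw [map_neg, Derivation.leibniz, pderiv_C, smul_zero, add_zero, smul_eq_mul]
      have e2 : ∑ i, -(C β⁻¹ * z i) * pderiv ℂ i G = -(C β⁻¹ * ∑ i, z i * pderiv ℂ i G) := by
        rw [Finset.mul_sum, ← Finset.sum_neg_distrib]
        exact Finset.sum_congr rfl fun i _ => by ring
      rw [Finset.sum_congr rfl fun i _ => e1 i, Finset.sum_neg_distrib, ← Finset.mul_sum, hz, e2,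
        h2]
      have e3 : G ^ (k + (K + 1)) = G ^ (k + K + 1) := by rw [add_assoc]
      rw [e3]
      linear_combination (-(∑ i, z i * pderiv ℂ i G)) * hC)
    rw [dg_dg] at h3
    have e4 : dg w (fun e => (if e = e0 then (1 : ℂ) else 0) * (if e = e0 then 1 else 0)) x =
        dg w (fun e => if e = e0 then 1 else 0) x :=
      dg_congr _ _ _ (fun e => by by_cases he : e = e0 <;> simp [he]) _
    rw [e4] at h3
    exact h3

/-- **The local lemma.** -/
theorem loc_main (h : LD w D G) (α : ℂ) (hα : ∀ j : ℕ, α + j ≠ 0) (k : ℕ) (hk : 1 ≤ k) (K : ℕ)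
    (V v : Fin m → T m) (H r r' : T m) (h0 : ∑ i, V i * pderiv ℂ i G = H * G)
    (h1 : ∑ i, pderiv ℂ i (V i) - C (α + k) * H = G ^ k * r)
    (h2 : G ^ (K + 1) * H = G * ∑ i, pderiv ℂ i (v i) - C (α + k + K) * ∑ i, v i * pderiv ℂ i G +
        G ^ (k + K + 1) * r') : H ∈ Jac G := by
  classical
  have hD : (D : ℂ) ≠ 0 := Nat.cast_ne_zero.2 h.hD.ne'
  obtain ⟨z, -, hz2⟩ := div_form h V H h0 (α + k)
  rw [h1] at hz2
  have h3 : dg w (fun e => (e : ℂ) + sw w - D * (α + k)) H ∈ Jac G := by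
    have e1 : C (D : ℂ) * C (D : ℂ)⁻¹ = (1 : T m) := by
      rw [← map_mul, mul_inv_cancel₀ hD, map_one]
    have e2 : dg w (fun e => (e : ℂ) + sw w - D * (α + k)) H =
        C (D : ℂ) * (G ^ k * r - ∑ i, z i * pderiv ℂ i G) := by
      rw [hz2]
      linear_combination (-(dg w (fun e => (e : ℂ) + sw w - D * (α + k)) H)) * e1
    rw [e2]
    refine Ideal.mul_mem_left _ _ (Ideal.sub_mem _ ?_ (mem_Jac.2 ⟨z, rfl⟩))
    obtain ⟨k', rfl⟩ : ∃ k', k = k' + 1 := ⟨k - 1, by omega⟩
    rw [pow_succ, mul_assoc, mul_left_comm]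
    exact Ideal.mul_mem_right _ _ (G_mem h)
  have h4 := dg_Jac h (fun e => if (e : ℂ) + sw w - D * (α + k) = 0 then 0 else
    ((e : ℂ) + sw w - D * (α + k))⁻¹) h3
  rw [dg_dg] at h4
  have h5 : dg w (fun e => (if (e : ℂ) + sw w - D * (α + k) = 0 then 0 else
      ((e : ℂ) + sw w - D * (α + k))⁻¹) * ((e : ℂ) + sw w - D * (α + k))) H =
      H - dg w (fun e => if (e : ℂ) + sw w - D * (α + k) = 0 then 1 else 0) H := by
    ext a
    rw [map_sub, coeff_dg, coeff_dg]
    by_cases hc : ((wt w a : ℕ) : ℂ) + sw w - D * (α + k) = 0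
    · rw [if_pos hc, if_pos hc]; ring
    · rw [if_neg hc, if_neg hc, inv_mul_cancel₀ hc]; ring
  rw [h5] at h4
  have h6 : dg w (fun e => if (e : ℂ) + sw w - D * (α + k) = 0 then 1 else 0) H ∈ Jac G := by
    by_cases hex : ∃ e0 : ℕ, (e0 : ℂ) + sw w - D * (α + k) = 0
    · obtain ⟨e0, he0⟩ := hex
      have h7 := reso h α hα k hk e0 he0 K v H r' h2
      have e8 : dg w (fun e => if (e : ℂ) + sw w - D * (α + k) = 0 then 1 else 0) H =
          dg w (fun e => if e = e0 then 1 else 0) H := dg_congr _ _ _ (fun e => by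
        by_cases he : e = e0
        · rw [if_pos he, he, if_pos he0]
        · rw [if_neg he, if_neg]
          intro h9
          apply he
          have : (e : ℂ) = e0 := by linear_combination h9 - he0
          exact_mod_cast this) _
      rw [e8]
      exact h7
    · have e8 : dg w (fun e => if (e : ℂ) + sw w - D * (α + k) = 0 then 1 else 0) H = 0 := by
        ext a
        rw [coeff_dg, map_zero, if_neg (fun h9 => hex ⟨_, h9⟩), zero_mul]
      rw [e8]
      exact Ideal.zero_mem _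
  have := Ideal.add_mem _ h4 h6
  rwa [sub_add_cancel] at this

end Pool.Agent.U739.IS
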