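import Pool.Agent.U739.IS.Tr

set_option autoImplicit false

/-! # The lowest weight in a functional equation at a weighted homogeneous singularity -/

namespace Pool.Agent.U739.IS

open MvPowerSeries

variable {m : ℕ}

variable {w : Fin m → ℕ} {D : ℕ} {G : T m}

theorem wt_pos (hw : ∀ i, 0 < w i) {a : Fin m →₀ ℕ} (h : wt w a = 0) : a = 0 := by
  ext i
  have h1 : a i * w i ≤ wt w a :=
    Finset.single_le_sum (f := fun i => a i * w i) (fun _ _ => Nat.zero_le _) (Finset.mem_univ i)
  rw [h] at h1
  have h2 : a i * w i = 0 := Nat.le_zero.1 h1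
  exact (Nat.mul_eq_zero.1 h2).resolve_right (hw i).ne'

theorem dg_zero (hw : ∀ i, 0 < w i) (x : T m) :
    dg w (fun e => if e = 0 then 1 else 0) x = C (constantCoeff x) := by
  classical
  ext a
  rw [coeff_dg, coeff_C]
  by_cases ha : a = 0
  · subst ha
    rw [if_pos rfl, if_pos (by simp [wt]), one_mul]
    rfl
  · rw [if_neg ha, if_neg (fun h => ha (wt_pos hw h)), zero_mul]

theorem low_desc (h : LD w D G) (hs : 0 < sw w)
    (hm : ∀ i, constantCoeff (pderiv ℂ i G) = 0) : ∀ (N : ℕ) (c : ℂ) (z : Fin m → T m),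
      ∑ i, pderiv ℂ i (z i) = 0 → C c * G ^ N = ∑ i, z i * pderiv ℂ i G → c = 0 := by
  have hD : (D : ℂ) ≠ 0 := Nat.cast_ne_zero.2 h.hD.ne'
  intro N
  induction N with
  | zero =>
    intro c z _ hz
    have h1 := congrArg constantCoeff hz
    rw [pow_zero, mul_one, constantCoeff_C, map_sum, Finset.sum_eq_zero] at h1
    · exact h1
    · intro i _
      rw [map_mul, hm, mul_zero]
  | succ N ih =>
    intro c z hd hz
    obtain ⟨z', hz1, hz2⟩ := div_form h z (C c * G ^ N) (by rw [← hz, pow_succ]; ring) 0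
    rw [hd, map_zero, zero_mul, sub_zero] at hz2
    have e1 : dg w (fun e => (e : ℂ) + sw w - D * 0) (C c * G ^ N) =
        C ((N * D : ℕ) + sw w : ℂ) * (C c * G ^ N) := by
      have hW := WH_pow h.hG N
      ext a
      rw [coeff_dg, coeff_C_mul, coeff_C_mul, coeff_C_mul]
      by_cases ha : coeff a (G ^ N) = 0
      · rw [ha]; ring
      · have := hW a ha
        rw [add_zero] at this
        rw [this]
        push_cast
        ring
    rw [e1] at hz2
    have h3 := ih ((D : ℂ)⁻¹ * ((N * D : ℕ) + sw w : ℂ) * c) (fun i => - z' i) (by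
      rw [← neg_zero, ← hz1, ← Finset.sum_neg_distrib]
      exact Finset.sum_congr rfl fun i _ => map_neg _ _) (by
      have e2 : ∑ i, -z' i * pderiv ℂ i G = - ∑ i, z' i * pderiv ℂ i G := by
        rw [← Finset.sum_neg_distrib]
        exact Finset.sum_congr rfl fun i _ => by ring
      rw [e2, map_mul, map_mul]
      linear_combination (-1 : T m) * hz2)
    refine (mul_eq_zero.1 h3).resolve_left (mul_ne_zero (inv_ne_zero hD) ?_)
    rw [← Nat.cast_add]
    exact Nat.cast_ne_zero.2 (by omega)

/-- the value of the functional equation -/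
theorem low (h : LD w D G) (hw : ∀ i, 0 < w i) (hs : 0 < sw w)
    (hm : ∀ i, constantCoeff (pderiv ℂ i G) = 0) (N : ℕ) (V : Fin m → T m) (e : T m)
    (hV : G * ∑ i, pderiv ℂ i (V i) - C ((sw w : ℂ) / D + N) * ∑ i, V i * pderiv ℂ i G =
      G ^ (N + 1) * e) : constantCoeff e = 0 := by
  have hD : (D : ℂ) ≠ 0 := Nat.cast_ne_zero.2 h.hD.ne'
  set β : ℂ := (sw w : ℂ) / D + N with hβ
  have hβ0 : β ≠ 0 := by
    have h1 : β * D = ((sw w + N * D : ℕ) : ℂ) := by
      rw [hβ]; push_cast; field_simp
    intro h0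
    rw [h0, zero_mul] at h1
    have := Nat.cast_eq_zero.1 h1.symm
    omega
  have hC : C β⁻¹ * C β = (1 : T m) := by rw [← map_mul, inv_mul_cancel₀ hβ0, map_one]
  set u : T m := C β⁻¹ * (∑ i, pderiv ℂ i (V i) - G ^ N * e) with hu
  have hv : ∑ i, V i * pderiv ℂ i G = u * G := by
    rw [hu]
    have e1 : G ^ (N + 1) = G ^ N * G := pow_succ _ _
    rw [e1] at hV
    linear_combination (-(∑ i, V i * pderiv ℂ i G)) * hC - C β⁻¹ * hV
  have hu2 : ∑ i, pderiv ℂ i (V i) - C β * u = G ^ N * e := by
    rw [hu]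
    linear_combination (-(∑ i, pderiv ℂ i (V i) - G ^ N * e)) * hC
  obtain ⟨z, hz, hz2⟩ := div_form h V u hv β
  rw [hu2] at hz2
  have h3 := congrArg (dg w (fun e => if e = N * D then 1 else 0)) hz2
  rw [map_add, dg_comb h] at h3
  have e3 := dg_mul (WH_pow h.hG N) (fun e => if e = N * D then 1 else 0) e
  rw [show (fun e => (fun e => if e = N * D then (1 : ℂ) else 0) (e + 0)) =
    (fun e => if e = N * D then (1 : ℂ) else 0) from rfl] at e3
  have e4 : dg w (fun e => (fun e => if e = N * D then (1 : ℂ) else 0) (e + N * D)) e =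
      dg w (fun e => if e = 0 then 1 else 0) e :=
    dg_congr _ _ _ (fun e => by
      show (if e + N * D = N * D then (1 : ℂ) else 0) = _
      by_cases he : e = 0
      · rw [if_pos he, if_pos (by omega)]
      · rw [if_neg he, if_neg (by omega)]) _
  rw [e3, e4, dg_zero hw] at h3
  have e6 : dg w (fun e => if e = N * D then 1 else 0)
      (C (D : ℂ)⁻¹ * dg w (fun e => (e : ℂ) + sw w - D * β) u) = 0 := by
    ext a
    rw [coeff_dg, coeff_C_mul, coeff_dg, map_zero]
    by_cases ha : wt w a = N * D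
    · rw [if_pos ha, ha]
      have : ((N * D : ℕ) : ℂ) + sw w - D * β = 0 := by
        rw [hβ]; push_cast; field_simp; ring
      rw [this]; ring
    · rw [if_neg ha, zero_mul]
  rw [e6, zero_add] at h3
  refine low_desc h hs hm N _ _ ?_ (by rw [mul_comm]; exact h3)
  have e7 : ∀ i, pderiv ℂ i (dg w (fun e => if e + D - w i = N * D then 1 else 0) (z i)) =
      dg w (fun e => if e + D = N * D then 1 else 0) (pderiv ℂ i (z i)) := by
    intro i
    rw [← dg_pderiv]
    exact dg_congr _ _ _ (fun e => by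
      have : e + w i + D - w i = e + D := by omega
      rw [this]) _
  rw [Finset.sum_congr rfl fun i _ => e7 i, ← map_sum, hz, map_zero]


end Pool.Agent.U739.IS
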