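import Pool.Agent.U739.IS.Kz

set_option autoImplicit false

/-! # `m` polynomials in `m` variables with the origin as only common zero: Koszul syzygies -/

namespace Pool.Agent.U739.IS

open MvPolynomial

variable {σ : Type}

/-- the ideal generated by the `N`-th powers of the variables in `S` -/
noncomputable def PI (σ : Type) (N : ℕ) (S : Set σ) : Ideal (MvPolynomial σ ℂ) :=
  Ideal.span ((fun i => X i ^ N) '' S)

theorem mem_PI (N : ℕ) (S : Set σ) (x : MvPolynomial σ ℂ) :
    x ∈ PI σ N S ↔ ∀ α ∈ x.support, ∃ i ∈ S, N ≤ α i := by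
  have h := @mem_ideal_span_monomial_image σ ℂ _ x ((fun i => Finsupp.single i N) '' S)
  rw [Set.image_image] at h
  have e : (fun i : σ => (monomial (Finsupp.single i N) (1 : ℂ) : MvPolynomial σ ℂ)) =
      fun i => X i ^ N := by
    funext i
    rw [X_pow_eq_monomial]
  rw [e] at h
  unfold PI
  rw [h]
  refine forall₂_congr fun α hα => ?_
  constructor
  · rintro ⟨_, ⟨i, hi, rfl⟩, h2⟩
    refine ⟨i, hi, ?_⟩
    have := h2 i
    rwa [Finsupp.single_eq_same] at this
  · rintro ⟨i, hi, h2⟩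
    refine ⟨_, ⟨i, hi, rfl⟩, ?_⟩
    intro j
    by_cases hj : j = i
    · subst hj
      rw [Finsupp.single_eq_same]
      exact h2
    · rw [Finsupp.single_eq_of_ne hj]
      exact Nat.zero_le _

theorem PI_reg (N : ℕ) (S : Set σ) (j : σ) (hj : j ∉ S) (a : MvPolynomial σ ℂ)
    (h : X j ^ N * a ∈ PI σ N S) : a ∈ PI σ N S := by
  classical
  rw [mem_PI] at h ⊢
  intro α hα
  obtain ⟨i, hi, h2⟩ := h (Finsupp.single j N + α) (by
    rw [mem_support_iff, X_pow_eq_monomial, coeff_monomial_mul, one_mul]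
    exact mem_support_iff.1 hα)
  refine ⟨i, hi, ?_⟩
  have hij : i ≠ j := fun h => hj (h ▸ hi)
  rw [Finsupp.add_apply, Finsupp.single_eq_of_ne hij, zero_add] at h2
  exact h2

theorem PI_insert (N : ℕ) (S : Set σ) (j : σ) :
    PI σ N S ⊔ Ideal.span {X j ^ N} = PI σ N (insert j S) := by
  unfold PI
  rw [Set.image_insert_eq, Ideal.span_insert, sup_comm]

theorem RegSeq_X (N : ℕ) (l : List σ) (hl : l.Nodup) :
    ∀ S : Set σ, (∀ j ∈ l, j ∉ S) → RegSeq (PI σ N S) (l.map fun j => X j ^ N) := by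
  induction l with
  | nil => intro _ _; trivial
  | cons j l ih =>
    intro S hS
    rw [List.nodup_cons] at hl
    rw [List.map_cons]
    refine ⟨fun a ha => PI_reg N S j (hS j (by simp)) a ha, ?_⟩
    rw [PI_insert]
    refine ih hl.2 _ fun k hk => ?_
    rintro (rfl | h)
    · exact hl.1 hk
    · exact hS k (by simp [hk]) h

theorem PI_empty (N : ℕ) : PI σ N ∅ = ⊥ := by
  unfold PI
  rw [Set.image_empty, Ideal.span_empty]

/-- Nullstellensatz -/
theorem exists_pow {ι : Type} [Fintype σ] (f : ι → MvPolynomial σ ℂ)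
    (h : ∀ q : σ → ℂ, (∀ j, eval q (f j) = 0) → q = 0) :
    ∃ N : ℕ, 0 < N ∧ ∀ t, X t ^ N ∈ Ideal.span (Set.range f) := by
  have h1 : ∀ t : σ, (X t : MvPolynomial σ ℂ) ∈ (Ideal.span (Set.range f)).radical := by
    intro t
    rw [← vanishingIdeal_zeroLocus_eq_radical (K := ℂ), mem_vanishingIdeal_iff]
    intro q hq
    rw [zeroLocus_span] at hq
    have h2 : q = 0 := h q fun j => hq (f j) ⟨j, rfl⟩
    rw [h2]
    simp
  choose n hn using h1
  refine ⟨∑ t, n t + 1, Nat.succ_pos _, fun t => ?_⟩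
  have h2 := Finset.single_le_sum (f := n) (fun _ _ => Nat.zero_le _) (Finset.mem_univ t)
  obtain ⟨k, hk⟩ := Nat.exists_eq_add_of_le (h2.trans (Nat.le_succ _))
  rw [Nat.succ_eq_add_one] at hk
  rw [hk, pow_add]
  exact Ideal.mul_mem_right _ _ (hn t)

/-- **Koszul syzygies.** -/
theorem KE_of_zero {m : ℕ} (f : Fin m → MvPolynomial (Fin m) ℂ)
    (h : ∀ q : Fin m → ℂ, (∀ j, eval q (f j) = 0) → q = 0) : KE f := by
  obtain ⟨N, -, hN⟩ := exists_pow f h
  refine KE_of_PP f (PP_of_reg f ((List.finRange m).map fun j => X j ^ N) ⊥ 1 ?_ ?_ ?_)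
  · intro y hy
    obtain ⟨j, -, rfl⟩ := List.mem_map.1 hy
    exact hN j
  · rw [← PI_empty N]
    exact RegSeq_X N _ (List.nodup_finRange m) ∅ fun _ _ h => h
  · rw [List.length_map, List.length_finRange]
    omega

end Pool.Agent.U739.IS
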