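import Pool.Agent.U739.IS.Loc

set_option autoImplicit false

/-! # The Piola identity, the chain rule, flatness -/

namespace Pool.Agent.U739.IS

open MvPowerSeries Matrix

section alg

variable {R : Type*} [CommRing R] [Algebra ℂ R] {n : ℕ}

theorem deriv_prod {ι : Type*} [DecidableEq ι] (D : Derivation ℂ R R) (s : Finset ι) (f : ι → R) :
    D (∏ i ∈ s, f i) = ∑ l ∈ s, D (f l) * ∏ i ∈ s.erase l, f i := by
  induction s using Finset.induction_on with
  | empty => simp
  | insert a s ha ih =>
    rw [Finset.prod_insert ha, D.leibniz, ih, Finset.sum_insert ha, Finset.erase_insert ha,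
      smul_eq_mul, smul_eq_mul, add_comm, mul_comm (∏ i ∈ s, f i), Finset.mul_sum]
    congr 1
    apply Finset.sum_congr rfl
    intro l hl
    have hla : l ≠ a := by rintro rfl; exact ha hl
    rw [Finset.erase_insert_of_ne hla.symm, Finset.prod_insert (by
      intro h; exact ha (Finset.mem_of_mem_erase h))]
    ring

/-- Leibniz rule for determinants -/
theorem deriv_det (D : Derivation ℂ R R) (M : Matrix (Fin n) (Fin n) R) :
    D M.det = ∑ l, (M.updateRow l (fun k => D (M l k))).det := by
  rw [← det_transpose, det_apply]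
  have h1 : ∀ l, (M.updateRow l (fun k => D (M l k))).det =
      ∑ σ : Equiv.Perm (Fin n),
        Equiv.Perm.sign σ • (D (M l (σ l)) * ∏ i ∈ Finset.univ.erase l, M i (σ i)) := by
    intro l
    rw [← det_transpose, det_apply]
    apply Finset.sum_congr rfl
    intro σ _
    congr 1
    simp only [transpose_apply]
    rw [← Finset.mul_prod_erase Finset.univ _ (Finset.mem_univ l), updateRow_self]
    congr 1
    apply Finset.prod_congr rfl
    intro i hi
    rw [updateRow_ne (Finset.ne_of_mem_erase hi)]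
  simp_rw [h1]
  rw [Finset.sum_comm, map_sum]
  apply Finset.sum_congr rfl
  intro σ _
  rw [← Finset.smul_sum]
  have h2 : D (Equiv.Perm.sign σ • ∏ i, Mᵀ (σ i) i) = Equiv.Perm.sign σ • D (∏ i, Mᵀ (σ i) i) := by
    rcases Int.units_eq_one_or (Equiv.Perm.sign σ) with h | h <;> simp [h]
  rw [h2, deriv_prod]
  rfl

omit [Algebra ℂ R] in
theorem det_swap_rows (M : Matrix (Fin n) (Fin n) R) (j l : Fin n) (hjl : j ≠ l) (a b : Fin n → R) :
    ((M.updateRow j a).updateRow l b).det = - ((M.updateRow l a).updateRow j b).det := by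
  have h : (M.updateRow l a).updateRow j b =
      (((M.updateRow j a).updateRow l b).submatrix (Equiv.swap j l) id) := by
    ext i k
    simp only [submatrix_apply, id]
    by_cases hi : i = j
    · subst hi
      rw [updateRow_self, Equiv.swap_apply_left, updateRow_self]
    · rw [updateRow_ne hi]
      by_cases hi2 : i = l
      · subst hi2
        rw [updateRow_self, Equiv.swap_apply_right, updateRow_ne hjl, updateRow_self]
      · rw [updateRow_ne hi2, Equiv.swap_apply_of_ne_of_ne hi hi2, updateRow_ne hi2, updateRow_ne hi]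
  rw [h, det_permute, Equiv.Perm.sign_swap hjl]
  simp

/-- the Jacobian matrix -/
def JM (D : Fin n → Derivation ℂ R R) (u : Fin n → R) : Matrix (Fin n) (Fin n) R :=
  Matrix.of fun j t => D j (u t)

/-- the Piola identity -/
theorem piola [IsAddTorsionFree R] (D : Fin n → Derivation ℂ R R)
    (hc : ∀ i j x, D i (D j x) = D j (D i x)) (u : Fin n → R) (k : Fin n) :
    ∑ j, D j ((JM D u).adjugate k j) = 0 := by
  set H := JM D u with hH
  have h1 : ∀ j, D j (H.adjugate k j) = ∑ l, if l = j then 0 else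
      ((H.updateRow j (Pi.single k 1)).updateRow l (fun i => D j (D l (u i)))).det := by
    intro j
    rw [adjugate_apply, deriv_det]
    apply Finset.sum_congr rfl
    intro l _
    by_cases hl : l = j
    · subst hl
      rw [if_pos rfl]
      apply det_eq_zero_of_row_eq_zero l
      intro i
      rw [updateRow_self, updateRow_self]
      by_cases hik : i = k
      · subst hik
        rw [Pi.single_eq_same]
        exact (D l).map_one_eq_zero
      · rw [Pi.single_eq_of_ne hik, map_zero]
    · rw [if_neg hl]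
      congr 2
      funext i
      rw [updateRow_ne hl]
      rfl
  simp_rw [h1]
  apply antisym_zero
  intro j l
  by_cases hjl : l = j
  · subst hjl; simp
  · rw [if_neg hjl, if_neg (Ne.symm hjl), det_swap_rows _ _ _ (Ne.symm hjl)]
    congr 3
    funext i
    rw [hc]

end alg

variable {m : ℕ}

/-- polynomials in `m` variables -/
abbrev P (m : ℕ) : Type := MvPolynomial (Fin m) ℂ

/-- the chain rule -/
theorem chain (S : P m →ₐ[ℂ] T m) (j : Fin m) (Q : P m) : pderiv ℂ j (S Q) =
    ∑ t, pderiv ℂ j (S (MvPolynomial.X t)) * S (MvPolynomial.pderiv t Q) := by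
  classical
  induction Q using MvPolynomial.induction_on with
  | C a =>
    have h1 : S (MvPolynomial.C a) = C a := S.commutes a
    rw [h1, pderiv_C, Finset.sum_eq_zero]
    intro t _
    rw [MvPolynomial.pderiv_C, map_zero, mul_zero]
  | add p q hp hq =>
    rw [map_add, map_add, hp, hq, ← Finset.sum_add_distrib]
    refine Finset.sum_congr rfl fun t _ => ?_
    rw [map_add, map_add, mul_add]
  | mul_X p k hp =>
    rw [map_mul, Derivation.leibniz, hp]
    have h1 : ∀ t, pderiv ℂ j (S (MvPolynomial.X t)) * S (MvPolynomial.pderiv t (p * MvPolynomial.X k)) =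
        S p * (pderiv ℂ j (S (MvPolynomial.X t)) * S (MvPolynomial.pderiv t (MvPolynomial.X k))) +
        S (MvPolynomial.X k) * (pderiv ℂ j (S (MvPolynomial.X t)) * S (MvPolynomial.pderiv t p)) := by
      intro t
      rw [Derivation.leibniz, smul_eq_mul, smul_eq_mul, map_add, map_mul, map_mul]
      ring
    rw [Finset.sum_congr rfl fun t _ => h1 t, Finset.sum_add_distrib, ← Finset.mul_sum,
      ← Finset.mul_sum, smul_eq_mul, smul_eq_mul]
    congr 2
    rw [Finset.sum_eq_single k]
    · rw [MvPolynomial.pderiv_X_self, map_one, mul_one]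
    · intro t _ ht
      rw [MvPolynomial.pderiv_X_of_ne ht.symm, map_zero, mul_zero]
    · intro h
      exact absurd (Finset.mem_univ k) h

/-- the Jacobian matrix of `S` -/
noncomputable def JS (S : P m →ₐ[ℂ] T m) : Matrix (Fin m) (Fin m) (T m) :=
  JM (fun j => (pderiv ℂ j : Derivation ℂ (T m) (T m))) fun t => S (MvPolynomial.X t)

theorem JS_apply (S : P m →ₐ[ℂ] T m) (j t : Fin m) :
    JS S j t = pderiv ℂ j (S (MvPolynomial.X t)) := rfl

/-- the transported vector field -/
noncomputable def tv (S : P m →ₐ[ℂ] T m) (V : Fin m → P m) (j : Fin m) : T m :=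
  ∑ t, (JS S).adjugate t j * S (V t)

theorem adj_sum (S : P m →ₐ[ℂ] T m) (t t' : Fin m) :
    ∑ j, (JS S).adjugate t j * pderiv ℂ j (S (MvPolynomial.X t')) =
      if t = t' then (JS S).det else 0 := by
  have h1 := congrFun (congrFun (adjugate_mul (JS S)) t) t'
  rw [Matrix.mul_apply, Matrix.smul_apply, Matrix.one_apply, smul_eq_mul, mul_ite, mul_one,
    mul_zero] at h1
  exact h1

theorem tv_apply (S : P m →ₐ[ℂ] T m) (V : Fin m → P m) (Q : P m) :
    ∑ j, tv S V j * pderiv ℂ j (S Q) =
      (JS S).det * S (∑ t, V t * MvPolynomial.pderiv t Q) := by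
  classical
  have h1 : ∀ j, tv S V j * pderiv ℂ j (S Q) = ∑ t, ∑ t', (S (V t) * S (MvPolynomial.pderiv t' Q)) *
      ((JS S).adjugate t j * pderiv ℂ j (S (MvPolynomial.X t'))) := by
    intro j
    rw [chain, tv, Finset.sum_mul_sum]
    refine Finset.sum_congr rfl fun t _ => Finset.sum_congr rfl fun t' _ => ?_
    ring
  rw [Finset.sum_congr rfl fun j _ => h1 j, Finset.sum_comm, map_sum, Finset.mul_sum]
  refine Finset.sum_congr rfl fun t _ => ?_
  rw [Finset.sum_comm]
  have h2 : ∀ t', ∑ j, (S (V t) * S (MvPolynomial.pderiv t' Q)) *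
      ((JS S).adjugate t j * pderiv ℂ j (S (MvPolynomial.X t'))) =
      if t = t' then (JS S).det * S (V t * MvPolynomial.pderiv t' Q) else 0 := by
    intro t'
    rw [← Finset.mul_sum, adj_sum]
    split_ifs
    · rw [map_mul]; ring
    · rw [mul_zero]
  rw [Finset.sum_congr rfl fun t' _ => h2 t', Finset.sum_ite_eq, if_pos (Finset.mem_univ t)]

theorem tv_div (S : P m →ₐ[ℂ] T m) (V : Fin m → P m) :
    ∑ j, pderiv ℂ j (tv S V j) = (JS S).det * S (∑ t, MvPolynomial.pderiv t (V t)) := by
  classical
  have h1 : ∀ j, pderiv ℂ j (tv S V j) = ∑ t, S (V t) * pderiv ℂ j ((JS S).adjugate t j) +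
      ∑ t, ∑ t', S (MvPolynomial.pderiv t' (V t)) *
      ((JS S).adjugate t j * pderiv ℂ j (S (MvPolynomial.X t'))) := by
    intro j
    rw [tv, map_sum, ← Finset.sum_add_distrib]
    refine Finset.sum_congr rfl fun t _ => ?_
    rw [Derivation.leibniz, smul_eq_mul, smul_eq_mul, chain S j (V t), Finset.mul_sum, add_comm]
    congr 1
    refine Finset.sum_congr rfl fun t' _ => ?_
    ring
  rw [Finset.sum_congr rfl fun j _ => h1 j, Finset.sum_add_distrib]
  have h2 : ∑ j, ∑ t, S (V t) * pderiv ℂ j ((JS S).adjugate t j) = 0 := by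
    rw [Finset.sum_comm]
    refine Finset.sum_eq_zero fun t _ => ?_
    rw [← Finset.mul_sum]
    have h3 := piola (fun j => (pderiv ℂ j : Derivation ℂ (T m) (T m)))
      (fun i j x => pd_comm x) (fun t => S (MvPolynomial.X t)) t
    rw [show ∑ j, pderiv ℂ j ((JS S).adjugate t j) = 0 from h3, mul_zero]
  rw [h2, zero_add, Finset.sum_comm, map_sum, Finset.mul_sum]
  refine Finset.sum_congr rfl fun t _ => ?_
  rw [Finset.sum_comm]
  have h2 : ∀ t', ∑ j, S (MvPolynomial.pderiv t' (V t)) *
      ((JS S).adjugate t j * pderiv ℂ j (S (MvPolynomial.X t'))) =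
      if t = t' then (JS S).det * S (MvPolynomial.pderiv t' (V t)) else 0 := by
    intro t'
    rw [← Finset.mul_sum, adj_sum]
    split_ifs
    · ring
    · rw [mul_zero]
  rw [Finset.sum_congr rfl fun t' _ => h2 t', Finset.sum_ite_eq, if_pos (Finset.mem_univ t)]

/-! ### Flatness -/

theorem flatT (m : ℕ) : Module.Flat (P m) (T m) :=
  Module.Flat.of_linearEquiv (MvPowerSeries.toAdicCompletionAlgEquiv (Fin m) ℂ).toLinearEquiv

theorem algMap_T (p : P m) : algebraMap (P m) (T m) p = (p : T m) := rfl

theorem triv_rel {R S : Type} [CommRing R] [CommRing S] [Algebra R S] [Module.Flat R S] {n : ℕ}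
    (f : Fin n → R) (x : Fin n → S) (h : ∑ i, f i • x i = 0) :
    ∃ (k : ℕ) (a : Fin n → Fin k → R) (y : Fin k → S), (∀ i, x i = ∑ j, a i j • y j) ∧
      ∀ j, ∑ i, f i * a i j = 0 :=
  Module.Flat.isTrivialRelation_of_sum_smul_eq_zero (R := R) (M := S) h

theorem KE_flat (f : Fin m → P m) (h : KE f) : KE (fun i => (f i : T m)) := by
  classical
  intro r hr
  have hfl := flatT m
  have h1 : ∑ i, f i • r i = 0 := by
    rw [← hr]
    refine Finset.sum_congr rfl fun i _ => ?_
    rw [Algebra.smul_def, algMap_T, mul_comm]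
  obtain ⟨k, a, y, h2, h3⟩ := triv_rel f r h1
  have h4 : ∀ l, ∃ B : Fin m → Fin m → P m, (∀ i j, B i j = - B j i) ∧
    (∀ i, B i i = 0) ∧ ∀ i, a i l = ∑ j, B i j * f j := fun l => h (fun i => a i l) (by
      rw [← h3 l]
      exact Finset.sum_congr rfl fun i _ => mul_comm _ _)
  choose B hB1 hB2 hB3 using h4
  refine ⟨fun i j => ∑ l, (B l i j : T m) * y l, ?_, ?_, ?_⟩
  · intro i j
    rw [← Finset.sum_neg_distrib]
    refine Finset.sum_congr rfl fun l _ => ?_
    rw [hB1 l i j, ← algMap_T, map_neg, algMap_T, neg_mul]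
  · intro i
    refine Finset.sum_eq_zero fun l _ => ?_
    rw [hB2 l i, MvPolynomial.coe_zero, zero_mul]
  · intro i
    rw [h2 i]
    simp_rw [Finset.sum_mul]
    rw [Finset.sum_comm]
    refine Finset.sum_congr rfl fun l _ => ?_
    rw [Algebra.smul_def, hB3 l i, map_sum, Finset.sum_mul]
    refine Finset.sum_congr rfl fun j _ => ?_
    rw [map_mul, algMap_T, algMap_T]
    ring

theorem mem_flat (f : Fin m → P m) (x : P m) (c : Fin m → T m)
    (h : (x : T m) = ∑ i, c i * (f i : T m)) :
    ∃ a : P m, MvPolynomial.constantCoeff a ≠ 0 ∧ a * x ∈ Ideal.span (Set.range f) := by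
  classical
  have hfl := flatT m
  have h1 : ∑ i, (Fin.cons x (fun i => - f i) : Fin (m + 1) → P m) i •
      (Fin.cons 1 c : Fin (m + 1) → T m) i = 0 := by
    rw [Fin.sum_univ_succ]
    simp only [Fin.cons_zero, Fin.cons_succ]
    have e1 : ∀ i, (- f i) • c i = - (c i * (f i : T m)) := by
      intro i
      rw [Algebra.smul_def, map_neg, algMap_T]
      ring
    rw [Finset.sum_congr rfl fun i _ => e1 i, Finset.sum_neg_distrib, ← h, Algebra.smul_def,
      algMap_T, mul_one, add_neg_cancel]
  obtain ⟨k, a, y, h2, h3⟩ := triv_rel _ _ h1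
  have h20 := h2 0
  rw [Fin.cons_zero] at h20
  obtain ⟨l, hl⟩ : ∃ l, constantCoeff ((a 0 l : P m) : T m) ≠ 0 := by
    by_contra hcon
    push Not at hcon
    have h5 := congrArg constantCoeff h20
    rw [map_sum, map_one, Finset.sum_eq_zero] at h5
    · exact one_ne_zero h5
    · intro l _
      rw [Algebra.smul_def, map_mul, algMap_T, hcon l, zero_mul]
  refine ⟨a 0 l, hl, ?_⟩
  have h3l := h3 l
  rw [Fin.sum_univ_succ] at h3l
  simp only [Fin.cons_zero, Fin.cons_succ] at h3l
  have e : a 0 l * x = ∑ i : Fin m, a i.succ l * f i := by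
    have e2 : ∑ i : Fin m, -f i * a i.succ l = - ∑ i : Fin m, a i.succ l * f i := by
      rw [← Finset.sum_neg_distrib]
      exact Finset.sum_congr rfl fun i _ => by ring
    rw [e2] at h3l
    linear_combination h3l
  rw [e]
  exact Ideal.sum_mem _ fun i _ => Ideal.mul_mem_left _ _ (Ideal.subset_span ⟨i, rfl⟩)

end Pool.Agent.U739.IS
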