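import Pool.Agent.U739.IS.Core
import Pool.Agent.U739.IS.Low

set_option autoImplicit false

/-! # The root given by the weights of a singular point -/

namespace Pool.Agent.U739.IS

open MvPolynomial Pool.Agent.H628R4.TP Pool.Agent.N127.PB Pool.Agent.W574.CN Pool.Agent.W574.SM
open Pool.Agent.U184 hiding nf_chart eval_map_deh ext_chart

variable {m : ℕ}

/-- a functional equation at a complex number -/
theorem loc_eq {n : ℕ} (f : P n) (hf0 : f ≠ 0) (b : Polynomial ℂ) (hb : IsBFunction f b) (c : ℂ) :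
    ∃ (N : ℕ) (V : Fin n → P n) (h : P n),
      f * ∑ l, pderiv l (V l) + C (c - N) * ∑ l, V l * pderiv l f =
        f ^ (N + 1) * (C (b.eval c) - f * h) := by
  classical
  obtain ⟨Q, hQ⟩ := hb
  choose p u hu hdec using fun m => normal (Q m).1 (Q m).2
  choose N' U' hU' using fun (m : ℕ) (l : Fin n) => stmA2 (Fin n) (u m l) (hu m l) f
  obtain ⟨N, hN⟩ : ∃ N : ℕ, ∀ m ∈ Q.support, ∀ l, N' m l ≤ N + 1 := by
    refine ⟨∑ m ∈ Q.support, ∑ l, N' m l, fun m hm l => ?_⟩
    have a1 : N' m l ≤ ∑ l, N' m l := Finset.single_le_sum (f := fun l => N' m l)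
      (fun _ _ => Nat.zero_le _) (Finset.mem_univ l)
    have a2 : ∑ l, N' m l ≤ ∑ m ∈ Q.support, ∑ l, N' m l :=
      Finset.single_le_sum (f := fun m => ∑ l, N' m l) (fun _ _ => Nat.zero_le _) hm
    omega
  let W : Fin n → Polynomial (P n) := fun l => ∑ m ∈ Q.support,
    Polynomial.X ^ m * (Polynomial.C (f ^ (N + 1 - N' m l)) *
      (U' m l).comp (Polynomial.X + 1))
  have hW : ∀ (l : Fin n) (s : ℕ), N ≤ s →
      ∑ m ∈ Q.support, ((s : ℂ) ^ m) • u m l (f ^ (s + 1)) =
        f ^ (s - N) * (W l).eval (C (s : ℂ)) := by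
    intro l s hs
    simp only [W, Polynomial.eval_finsetSum, Finset.mul_sum]
    refine Finset.sum_congr rfl fun m hm => ?_
    have hNm := hN m hm l
    rw [hU' m l (s + 1) (by omega)]
    rw [Polynomial.eval_mul, Polynomial.eval_mul, Polynomial.eval_pow, Polynomial.eval_X,
      Polynomial.eval_C, Polynomial.eval_comp, Polynomial.eval_add, Polynomial.eval_X,
      Polynomial.eval_one, ← map_pow, smul_eq_C_mul]
    have e1 : s + 1 - N' m l = (s - N) + (N + 1 - N' m l) := by omega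
    rw [e1, pow_add]
    have e2 : ((s + 1 : ℕ) : P n) = C (s : ℂ) + 1 := by
      push_cast; rw [map_natCast]
    rw [e2]
    ring
  let hh : Polynomial (P n) := b.map C -
    Polynomial.C f * ∑ m ∈ Q.support, Polynomial.X ^ m * Polynomial.C (p m)
  have h1 := (id_and_deriv f hf0 N W hh (fun s hs => ?_) c).1
  · refine ⟨N, fun l => (W l).eval (C c), ∑ m ∈ Q.support, C c ^ m * p m, ?_⟩
    rw [h1]
    congr 1
    simp only [hh, Polynomial.eval_sub, Polynomial.eval_mul, Polynomial.eval_C,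
      Polynomial.eval_map, Polynomial.eval₂_at_apply, Polynomial.eval_finsetSum,
      Polynomial.eval_pow, Polynomial.eval_X]
  · have e0 : hh.eval (C (s : ℂ)) = C (b.eval (s : ℂ)) -
        f * ∑ m ∈ Q.support, C (s : ℂ) ^ m * p m := by
      simp only [hh, Polynomial.eval_sub, Polynomial.eval_mul, Polynomial.eval_C,
        Polynomial.eval_map, Polynomial.eval₂_at_apply, Polynomial.eval_finsetSum,
        Polynomial.eval_pow, Polynomial.eval_X]
    have e1 : ∀ l, pderiv l (f ^ (s - N) * (W l).eval (C (s : ℂ))) =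
        ∑ m ∈ Q.support, ((s : ℂ) ^ m) • pderiv l (u m l (f ^ (s + 1))) := by
      intro l
      rw [← hW l s hs, map_sum]
      exact Finset.sum_congr rfl fun m _ => by rw [Derivation.map_smul]
    rw [Finset.sum_congr rfl fun l _ => e1 l, Finset.sum_comm, e0]
    have e2 := hQ s
    rw [Finsupp.sum] at e2
    have e3 : ∀ m ∈ Q.support, ((s : ℂ) ^ m) • ((Q m : Module.End ℂ (P n))) (f ^ (s + 1)) =
        ((s : ℂ) ^ m) • (p m * f ^ (s + 1)) +
          ∑ l, ((s : ℂ) ^ m) • pderiv l (u m l (f ^ (s + 1))) := by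
      intro m _
      rw [hdec m (f ^ (s + 1)), smul_add, Finset.smul_sum]
    rw [Finset.sum_congr rfl e3, Finset.sum_add_distrib] at e2
    have e4 : ∑ m ∈ Q.support, ((s : ℂ) ^ m) • (p m * f ^ (s + 1)) =
        f ^ s * (f * ∑ m ∈ Q.support, C (s : ℂ) ^ m * p m) := by
      rw [Finset.mul_sum, Finset.mul_sum]
      refine Finset.sum_congr rfl fun m _ => ?_
      rw [smul_eq_C_mul, ← map_pow, pow_succ]
      ring
    rw [e4] at e2
    linear_combination (-1 : P n) * e2



theorem cc_SS (Φ : T m ≃ₐ[ℂ] T m) (p : Fin m → ℂ) (Q : P m) :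
    MvPowerSeries.constantCoeff (SS Φ p Q) = eval p Q := by
  rw [SS_apply, cc_Phi]
  exact cc_tr p Q

/-- **The root given by a weighted homogeneous singular point.** -/
theorem root_loc (g : P m) (hg0 : g ≠ 0) (a : ℕ) (ha : 0 < a) (p : Fin m → ℂ)
    (hp : eval p g = 0) (hpd : ∀ t, eval p (pderiv t g) = 0) (Φ : T m ≃ₐ[ℂ] T m) (w : Fin m → ℕ)
    (D : ℕ) (G : P m) (hw : ∀ i, 0 < w i) (hD : 0 < D) (hG : IsWeightedHomogeneous w G D)
    (hz : ∀ q : Fin m → ℂ, (∀ i, eval q (pderiv i G) = 0) → q = 0)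
    (hΦ : Φ ((tr p g : P m) : T m) = (G : T m)) (b : Polynomial ℂ) (hb : IsBFunction (g ^ a) b) :
    b.eval (-((∑ i, w i : ℕ) : ℂ) / ((a * D : ℕ) : ℂ)) = 0 := by
  have hD0 : (D : ℂ) ≠ 0 := Nat.cast_ne_zero.2 hD.ne'
  have ha0 : (a : ℂ) ≠ 0 := Nat.cast_ne_zero.2 ha.ne'
  have hm : 0 < m := by
    rcases Nat.eq_zero_or_pos m with h0 | h0
    · exfalso
      subst h0
      apply hg0
      rw [eq_C_of_isEmpty g] at hp ⊢
      rw [eval_C] at hp
      rw [hp, map_zero]
    · exact h0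
  have hs : 0 < sw w := by
    have h1 : w ⟨0, hm⟩ ≤ sw w :=
      Finset.single_le_sum (f := w) (fun _ _ => Nat.zero_le _) (Finset.mem_univ _)
    have := hw ⟨0, hm⟩
    omega
  set c : ℂ := -((∑ i, w i : ℕ) : ℂ) / ((a * D : ℕ) : ℂ) with hc
  obtain ⟨N, V, h, hV⟩ := loc_eq (g ^ a) (pow_ne_zero a hg0) b hb c
  have hac : (a : ℂ) * (c - N) = - ((sw w : ℂ) / D + ((a * N : ℕ) : ℂ)) := by
    rw [hc, sw]
    push_cast
    field_simp
    ring
  set N' := a * N with hN'
  have ep : a * (N + 1) = (a - 1) + (N' + 1) := by rw [mul_add, hN']; omega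
  have ea : g ^ a = g ^ (a - 1) * g := by rw [← pow_succ]; congr 1; omega
  have hE1 : g * ∑ i, pderiv i (V i) - C ((sw w : ℂ) / D + (N' : ℂ)) * ∑ i, V i * pderiv i g =
      g ^ (N' + 1) * (C (b.eval c) - g ^ a * h) := by
    apply mul_left_cancel₀ (pow_ne_zero (a - 1) hg0)
    have e1 := hV
    rw [pd_pow g a ha, ← pow_mul, ep, pow_add] at e1
    have e2 : C (c - N) * C (a : ℂ) = (- C ((sw w : ℂ) / D + (N' : ℂ)) : P m) := by
      rw [← map_mul, ← map_neg, mul_comm]; congr 1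
    rw [ea] at e1 ⊢
    linear_combination e1 - (g ^ (a - 1) * ∑ i, V i * pderiv i g) * e2
  have hL := mk_LD w D G hD hG hz
  set S := SS Φ p with hS
  have hSg : S g = (G : T m) := hΦ
  have hCS : ∀ r : ℂ, S (C r) = MvPowerSeries.C r := fun r => S.commutes r
  have hmc : ∀ i, MvPowerSeries.constantCoeff (MvPowerSeries.pderiv ℂ i (G : T m)) = 0 := by
    intro i
    rw [← hSg, chain, map_sum]
    refine Finset.sum_eq_zero fun t _ => ?_
    rw [map_mul, hS, cc_SS, hpd, mul_zero]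
  have h1 := low hL hw hs hmc N' (tv S V) ((JS S).det * (MvPowerSeries.C (b.eval c) -
    S g ^ a * S h)) (by
      rw [tv_div, ← hSg, tv_apply]
      have e := congrArg S hE1
      rw [map_sub, map_mul, map_mul, hCS, map_mul, map_sub, hCS, map_mul, map_pow, map_pow] at e
      linear_combination (JS S).det * e)
  rw [map_mul] at h1
  have h2 := (mul_eq_zero.1 h1).resolve_left ((unit_iff _).1 (unit_JS Φ p))
  rw [map_sub, MvPowerSeries.constantCoeff_C, map_mul, map_pow, hS, cc_SS, hp,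
    zero_pow ha.ne', zero_mul, sub_zero] at h2
  exact h2

end Pool.Agent.U739.IS
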