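import Pool.Agent.U739.IS.RoA
import Pool.Agent.U739.IS.CP
import Pool.Agent.U184.Tw

set_option autoImplicit false

/-! # The root `-1/a` of the b-function of `F ^ a` -/

namespace Pool.Agent.U739.IS

open MvPolynomial Pool.Agent.H628R4.TP Pool.Agent.W574.CN

variable {m : ℕ}

theorem Act_weyl {S : P m →ₐ[ℂ] T m} {u v : T m} (huv : u * v = 1)
    (hS : ∀ (i : Fin m) (x : P m), MvPowerSeries.pderiv ℂ i (S x) = S (pderiv i x))
    (Q : Module.End ℂ (P m)) (hQ : Q ∈ weylS (Fin m)) : Act S u Q := by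
  induction hQ using Algebra.adjoin_induction with
  | mem R h =>
    rcases h with ⟨i, rfl⟩ | ⟨i, rfl⟩
    · exact Act_X i
    · exact Act_d v huv hS i
  | algebraMap r => exact Act_algebraMap r
  | add R R' _ _ h h' => exact Act_add h h'
  | mul R R' _ _ h h' => exact Act_mul h h'

/-- **The root `-1/a`.** -/
theorem root_one (F : P m) (hF0 : F ≠ 0) (hu : ¬ IsUnit F) (a : ℕ) (ha : 0 < a)
    (b : Polynomial ℂ) (hb : IsBFunction (F ^ a) b) : b.eval (-1 / (a : ℂ)) = 0 := by
  classical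
  have ha0 : (a : ℂ) ≠ 0 := Nat.cast_ne_zero.2 ha.ne'
  obtain ⟨p, hp⟩ : ∃ p : Fin m → ℂ, eval p F ≠ 0 := by
    by_contra h
    push Not at h
    exact hF0 (MvPolynomial.funext fun q => by rw [h q, map_zero])
  let S : P m →ₐ[ℂ] T m := cT.comp (tr p)
  have hSa : ∀ x, S x = ((tr p x : P m) : T m) := fun x => rfl
  have hSinj : Function.Injective S := by
    intro x y hxy
    rw [hSa, hSa] at hxy
    have h2 := MvPolynomial.coe_injective _ _ hxy
    have h3 := congrArg (tr (-p)) h2
    rwa [tr_neg', tr_neg'] at h3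
  have hSd : ∀ (i : Fin m) (x : P m), MvPowerSeries.pderiv ℂ i (S x) = S (pderiv i x) := by
    intro i x
    rw [chain, Finset.sum_eq_single i]
    · have : S (X i) = MvPowerSeries.X i + MvPowerSeries.C (p i) := by
        rw [hSa, tr_X, coe_add, coe_X, coe_C]
      rw [this, map_add, MvPowerSeries.pderiv_X_self, MvPowerSeries.pderiv_C, add_zero, one_mul]
    · intro t _ ht
      have : S (X t) = MvPowerSeries.X t + MvPowerSeries.C (p t) := by
        rw [hSa, tr_X, coe_add, coe_X, coe_C]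
      rw [this, map_add, MvPowerSeries.pderiv_X_of_ne ht, MvPowerSeries.pderiv_C, add_zero, zero_mul]
    · intro h; exact absurd (Finset.mem_univ i) h
  obtain ⟨U, hU⟩ : IsUnit (S F) := by
    rw [unit_iff]
    have : MvPowerSeries.constantCoeff (S F) = eval p F := cc_tr p F
    rw [this]
    exact hp
  set u : T m := S F with hudef
  set v : T m := (↑U⁻¹ : T m) with hv
  have huv : u * v = 1 := by rw [← hU, hv, Units.mul_inv]
  obtain ⟨Q, hQ⟩ := hb
  have hact : ∀ k, Act S u (Q k : Module.End ℂ (P m)) := fun k =>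
    Act_weyl huv hSd _ (Q k).2
  choose Q' hQ1 hQ2 using hact
  choose z hz1 hz2 using fun k => hQ2 k (fun _ => 1) (CP_const 1)
  have hz3 : ∀ (k t : ℕ), S ((Q k : Module.End ℂ (P m)) (F ^ t)) = u ^ t * z k t := by
    intro k t
    rw [← hQ1, ← hz2, mul_one, map_pow]
  -- the polynomial identity
  have hCP : CP fun s : ℂ => ∑ k ∈ Q.support,
      (Polynomial.X ^ k : Polynomial ℂ).eval s •
        (u ^ a * z k ((Polynomial.C (a : ℂ) * (Polynomial.X + 1) : Polynomial ℂ).eval s)) :=
    CP_sum _ fun k => CP_poly (CP_mul (CP_comp (hz1 k) _) _) _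
  have hCP2 : CP fun s : ℂ => b.eval s • (1 : T m) := CP_poly (CP_const 1) b
  have hid := CP_ext hCP2 hCP (fun s => by
    have h1 := congrArg S (hQ s)
    rw [map_mul, map_pow, map_pow, Finsupp.sum, map_sum] at h1
    have h2 : S (C (b.eval (s : ℂ))) = b.eval (s : ℂ) • (1 : T m) := by
      have : S (C (b.eval (s : ℂ))) = algebraMap ℂ (T m) (b.eval (s : ℂ)) := S.commutes _
      rw [this, Algebra.algebraMap_eq_smul_one]
    have h3 : ∀ k ∈ Q.support, S (((s : ℂ) ^ k) • (Q k : Module.End ℂ (P m)) ((F ^ a) ^ (s + 1))) =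
        (u ^ a) ^ s * ((Polynomial.X ^ k : Polynomial ℂ).eval (s : ℂ) • (u ^ a * z k
          ((Polynomial.C (a : ℂ) * (Polynomial.X + 1) : Polynomial ℂ).eval (s : ℂ)))) := by
      intro k _
      rw [map_smul, ← pow_mul, hz3, Polynomial.eval_pow, Polynomial.eval_X, Polynomial.eval_mul,
        Polynomial.eval_C, Polynomial.eval_add, Polynomial.eval_X, Polynomial.eval_one,
        mul_smul_comm, ← mul_assoc, ← pow_mul, ← pow_add]
      congr 3
      push_cast
      ring
    rw [h2, Finset.sum_congr rfl h3, ← Finset.mul_sum, ← hudef, mul_comm] at h1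
    have h4 : v ^ (a * s) * (u ^ a) ^ s = 1 := by
      rw [← pow_mul, ← mul_pow, mul_comm v, huv, one_pow]
    calc b.eval (s : ℂ) • (1 : T m) = v ^ (a * s) * ((u ^ a) ^ s * b.eval (s : ℂ) • (1 : T m)) := by
          rw [← mul_assoc, h4, one_mul]
      _ = _ := by rw [h1, ← mul_assoc, h4, one_mul]) (-1 / (a : ℂ))
  beta_reduce at hid
  have e1 : (Polynomial.C (a : ℂ) * (Polynomial.X + 1) : Polynomial ℂ).eval (-1 / (a : ℂ)) =
      ((a - 1 : ℕ) : ℂ) := by
    rw [Polynomial.eval_mul, Polynomial.eval_C, Polynomial.eval_add, Polynomial.eval_X,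
      Polynomial.eval_one, Nat.cast_sub ha]
    push_cast
    field_simp
    ring
  rw [e1] at hid
  have e2 : S (C (b.eval (-1 / (a : ℂ)))) = S (F * ∑ k ∈ Q.support,
      ((-1 / (a : ℂ)) ^ k) • (Q k : Module.End ℂ (P m)) (F ^ (a - 1))) := by
    have h2 : S (C (b.eval (-1 / (a : ℂ)))) = b.eval (-1 / (a : ℂ)) • (1 : T m) := by
      have : S (C (b.eval (-1 / (a : ℂ)))) = algebraMap ℂ (T m) (b.eval (-1 / (a : ℂ))) :=
        S.commutes _
      rw [this, Algebra.algebraMap_eq_smul_one]
    rw [h2, hid, map_mul, map_sum, Finset.mul_sum]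
    refine Finset.sum_congr rfl fun k _ => ?_
    rw [map_smul, hz3, Polynomial.eval_pow, Polynomial.eval_X, mul_smul_comm, ← mul_assoc,
      ← hudef, ← pow_succ', Nat.sub_add_cancel ha]
  have e3 := hSinj e2
  by_contra hne
  apply hu
  exact isUnit_of_dvd_unit ⟨_, e3⟩ ((isUnit_iff_ne_zero.2 hne).map C)

/-- the functional equation of a form gives the one of its dehomogenization -/
theorem isB_deh' (f : P (m + 1)) (d : ℕ) (hf : f.IsHomogeneous d) (b : Polynomial ℂ)
    (hb : IsBFunction f b) (i : Fin (m + 1)) : IsBFunction (deh i f) b :=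
  Pool.Agent.U184.isB_of_unit _ b (functionalEq_deh i (fun _ : Unit => f) d (fun _ => hf) b
    (Pool.Agent.U184.functionalEq_unit f b hb))

end Pool.Agent.U739.IS
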