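import Pool.Agent.U739.IS.Pi

set_option autoImplicit false

/-! # The local lemma at a point of a hypersurface -/

namespace Pool.Agent.U739.IS

open MvPowerSeries Matrix

variable {m : ℕ}

theorem unit_iff (z : T m) : IsUnit z ↔ constantCoeff z ≠ 0 := by
  rw [isUnit_iff_constantCoeff, isUnit_iff_ne_zero]

theorem cc_Phi (Φ : T m ≃ₐ[ℂ] T m) (z : T m) : constantCoeff (Φ z) = constantCoeff z := by
  have h1 : ¬ IsUnit (z - C (constantCoeff z)) := by
    rw [unit_iff, map_sub, constantCoeff_C, sub_self]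
    exact fun h => h rfl
  have h2 : ¬ IsUnit (Φ (z - C (constantCoeff z))) := by
    intro h
    apply h1
    have := h.map Φ.symm
    rwa [AlgEquiv.symm_apply_apply] at this
  rw [unit_iff, not_not, map_sub, map_sub] at h2
  have h3 : Φ (C (constantCoeff z)) = C (constantCoeff z) := Φ.commutes _
  rw [h3, constantCoeff_C, sub_eq_zero] at h2
  exact h2

/-- a power series without constant coefficient -/
theorem split_cc (z : T m) (hz : constantCoeff z = 0) : ∃ a : Fin m → T m, z = ∑ s, X s * a s := by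
  classical
  let Z : ℕ → T m := fun k => (fun β => if ∀ i : Fin m, i.val < k → β i = 0 then coeff β z else 0)
  have hZ : ∀ k β, coeff β (Z k) = if ∀ i : Fin m, i.val < k → β i = 0 then coeff β z else 0 :=
    fun k β => rfl
  have h1 : ∀ k : Fin m, (X k : T m) ∣ Z k - Z (k + 1) := by
    intro k
    rw [X_dvd_iff]
    intro β hβ
    rw [map_sub, hZ, hZ]
    by_cases h : ∀ i : Fin m, i.val < k → β i = 0
    · rw [if_pos h, if_pos, sub_self]
      intro i hi
      rcases Nat.lt_succ_iff_lt_or_eq.1 hi with h2 | h2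
      · exact h i h2
      · rw [Fin.ext h2]; exact hβ
    · rw [if_neg h, if_neg, sub_self]
      exact fun h2 => h fun i hi => h2 i (by omega)
  choose a ha using h1
  refine ⟨a, ?_⟩
  rw [Finset.sum_congr rfl fun s _ => (ha s).symm]
  have h2 := Finset.sum_range_sub' Z m
  rw [← Fin.sum_univ_eq_sum_range (fun i => Z i - Z (i + 1)) m] at h2
  rw [h2]
  have h3 : Z 0 = z := by
    ext β
    rw [hZ, if_pos]
    intro i hi
    exact absurd hi (Nat.not_lt_zero _)
  have h4 : Z m = 0 := by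
    ext β
    rw [hZ, map_zero]
    split_ifs with h
    · have : β = 0 := by
        ext i
        exact h i i.isLt
      rw [this, coeff_zero_eq_constantCoeff_apply, hz]
    · rfl
  rw [h3, h4, sub_zero]

/-- translation of the point `p` to the origin -/
noncomputable def tr (p : Fin m → ℂ) : P m →ₐ[ℂ] P m :=
  MvPolynomial.aeval fun i => MvPolynomial.X i + MvPolynomial.C (p i)

theorem tr_X (p : Fin m → ℂ) (i : Fin m) :
    tr p (MvPolynomial.X i) = MvPolynomial.X i + MvPolynomial.C (p i) :=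
  MvPolynomial.aeval_X _ _

theorem tr_neg (p : Fin m → ℂ) (Q : P m) : tr p (tr (-p) Q) = Q := by
  have h : (tr p).comp (tr (-p)) = AlgHom.id ℂ (P m) := by
    apply MvPolynomial.algHom_ext
    intro i
    rw [AlgHom.comp_apply, tr_X, map_add, tr_X]
    have : tr p (MvPolynomial.C ((-p) i)) = MvPolynomial.C ((-p) i) := (tr p).commutes _
    rw [this, Pi.neg_apply, map_neg]
    simp
  exact congrArg (fun φ : P m →ₐ[ℂ] P m => φ Q) h

theorem tr_neg' (p : Fin m → ℂ) (Q : P m) : tr (-p) (tr p Q) = Q := by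
  have := tr_neg (-p) Q
  rwa [neg_neg] at this

theorem cc_tr (p : Fin m → ℂ) (Q : P m) :
    MvPolynomial.constantCoeff (tr p Q) = MvPolynomial.eval p Q := by
  induction Q using MvPolynomial.induction_on with
  | C a =>
    have : tr p (MvPolynomial.C a) = MvPolynomial.C a := (tr p).commutes _
    rw [this, MvPolynomial.constantCoeff_C, MvPolynomial.eval_C]
  | add p q hp hq => rw [map_add, map_add, map_add, hp, hq]
  | mul_X q k hq =>
    rw [map_mul, map_mul, map_mul, hq, tr_X, map_add, MvPolynomial.constantCoeff_X,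
      MvPolynomial.constantCoeff_C, zero_add, MvPolynomial.eval_X]

/-- polynomials as power series -/
noncomputable def cT : P m →ₐ[ℂ] T m :=
  { (MvPolynomial.coeToMvPowerSeries.ringHom : P m →+* T m) with
    commutes' := fun r => MvPolynomial.coe_C r }

theorem cT_apply (p : P m) : cT p = (p : T m) := rfl

/-- `Q ↦ Φ(Q(p + x))` -/
noncomputable def SS (Φ : T m ≃ₐ[ℂ] T m) (p : Fin m → ℂ) : P m →ₐ[ℂ] T m :=
  (Φ : T m →ₐ[ℂ] T m).comp (cT.comp (tr p))

theorem SS_apply (Φ : T m ≃ₐ[ℂ] T m) (p : Fin m → ℂ) (Q : P m) :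
    SS Φ p Q = Φ ((tr p Q : P m) : T m) := rfl

theorem unit_JS (Φ : T m ≃ₐ[ℂ] T m) (p : Fin m → ℂ) : IsUnit (JS (SS Φ p)).det := by
  classical
  rw [unit_iff]
  have h : ∀ t i : Fin m, pderiv ℂ i (SS Φ p (MvPolynomial.X t)) = pderiv ℂ i (Φ (X t)) := by
    intro t i
    rw [SS_apply, tr_X, MvPolynomial.coe_add, map_add, map_add,
      MvPolynomial.coe_X, MvPolynomial.coe_C]
    have h3 : Φ (C (p t)) = C (p t) := Φ.commutes _
    rw [h3, pderiv_C, add_zero]
  have h0 : ∀ j : Fin m, constantCoeff (Φ (X j)) = 0 := by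
    intro j
    rw [cc_Phi, constantCoeff_X]
  have key : ∀ j : Fin m, ∃ a : Fin m → ℂ, ∀ i : Fin m,
      constantCoeff (pderiv ℂ i (X j : T m)) =
        ∑ s, constantCoeff (pderiv ℂ i (Φ (X s))) * a s := by
    intro j
    obtain ⟨a, ha⟩ := split_cc (Φ.symm (X j)) (by rw [cc_Phi, constantCoeff_X])
    refine ⟨fun s => constantCoeff (a s), fun i => ?_⟩
    have h1 : (X j : T m) = ∑ s, Φ (X s) * Φ (a s) := by
      rw [← Φ.apply_symm_apply (X j), ha, map_sum]
      exact Finset.sum_congr rfl fun s _ => map_mul _ _ _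
    rw [h1, map_sum, map_sum]
    refine Finset.sum_congr rfl fun s _ => ?_
    rw [Derivation.leibniz, smul_eq_mul, smul_eq_mul, map_add, map_mul, map_mul, h0, cc_Phi]
    ring
  choose a ha using key
  let B0 : Matrix (Fin m) (Fin m) ℂ := Matrix.of fun i s => constantCoeff (pderiv ℂ i (Φ (X s)))
  let A0 : Matrix (Fin m) (Fin m) ℂ := Matrix.of fun s j => a j s
  have hAB : B0 * A0 = 1 := by
    ext i j
    rw [Matrix.mul_apply, Matrix.one_apply]
    have := ha j i
    rw [show ∑ s, B0 i s * A0 s j = ∑ s, constantCoeff (pderiv ℂ i (Φ (X s))) * a j s from rfl,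
      ← this]
    by_cases hij : i = j
    · subst hij
      rw [if_pos rfl, pderiv_X_self, map_one]
    · rw [if_neg hij, pderiv_X_of_ne (fun h => hij h.symm), map_zero]
  have hdet : constantCoeff (JS (SS Φ p)).det = B0.det := by
    rw [RingHom.map_det]
    congr 1
    ext i s
    rw [RingHom.mapMatrix_apply, Matrix.map_apply, JS_apply, h]
    rfl
  rw [hdet]
  intro h1
  have h2 := congrArg Matrix.det hAB
  rw [det_mul, h1, zero_mul, det_one] at h2
  exact zero_ne_one h2

theorem weight_wt (w : Fin m → ℕ) (a : Fin m →₀ ℕ) : Finsupp.weight w a = wt w a := by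
  rw [Finsupp.weight_apply, Finsupp.sum_fintype]
  · rfl
  · intro i; rw [zero_smul]

theorem WH_of_poly {w : Fin m → ℕ} {n : ℕ} {g : P m}
    (hg : MvPolynomial.IsWeightedHomogeneous w g n) : WH w 0 n (g : T m) := by
  intro a ha
  rw [MvPolynomial.coeff_coe] at ha
  rw [add_zero, ← weight_wt]
  exact hg ha

theorem coe_pderiv (G : P m) (i : Fin m) :
    pderiv ℂ i (G : T m) = ((MvPolynomial.pderiv i G : P m) : T m) := by
  classical
  have h := chain (cT (m := m)) i G
  rw [cT_apply] at h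
  rw [h, Finset.sum_eq_single i]
  · rw [cT_apply, cT_apply, MvPolynomial.coe_X, pderiv_X_self, one_mul]
  · intro t _ ht
    rw [cT_apply, MvPolynomial.coe_X, pderiv_X_of_ne ht, zero_mul]
  · intro h; exact absurd (Finset.mem_univ i) h

/-- The polynomial `g` is, at `p` and in suitable formal coordinates, a weighted homogeneous
polynomial of positive degree, with positive weights and an isolated critical point. -/
def WHIso (g : P m) (p : Fin m → ℂ) : Prop :=
  ∃ (Φ : T m ≃ₐ[ℂ] T m) (w : Fin m → ℕ) (D : ℕ) (G : P m), 0 < D ∧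
    MvPolynomial.IsWeightedHomogeneous w G D ∧
    (∀ q : Fin m → ℂ, (∀ i, MvPolynomial.eval q (MvPolynomial.pderiv i G) = 0) → q = 0) ∧
    Φ ((tr p g : P m) : T m) = (G : T m)

theorem mk_LD (w : Fin m → ℕ) (D : ℕ) (G : P m) (hD : 0 < D)
    (hG : MvPolynomial.IsWeightedHomogeneous w G D)
    (h0 : ∀ q : Fin m → ℂ, (∀ i, MvPolynomial.eval q (MvPolynomial.pderiv i G) = 0) → q = 0) :
    LD w D (G : T m) := by
  refine ⟨hD, WH_of_poly hG, ?_⟩
  have h1 := KE_flat _ (KE_of_zero (fun i => MvPolynomial.pderiv i G) h0)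
  have e : (fun i => pderiv ℂ i (G : T m)) =
      fun i => ((MvPolynomial.pderiv i G : P m) : T m) := by
    funext i
    exact coe_pderiv G i
  rw [e]
  exact h1

/-- the ideal of the partial derivatives -/
noncomputable def jac (g : P m) : Ideal (P m) :=
  Ideal.span (Set.range fun i => MvPolynomial.pderiv i g)

/-- a formal solution gives a local one -/
theorem local_mem (g : P m) (p : Fin m → ℂ) (Φ : T m ≃ₐ[ℂ] T m) (H : P m)
    (h : (JS (SS Φ p)).det * SS Φ p H ∈ Jac (SS Φ p g)) :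
    ∃ a : P m, MvPolynomial.eval p a ≠ 0 ∧ a * H ∈ jac g := by
  classical
  set S := SS Φ p with hS
  obtain ⟨c, hc⟩ := mem_Jac.1 h
  obtain ⟨u, hu⟩ := unit_JS Φ p
  rw [← hS] at hu
  have h1 : S H = ∑ t, (∑ j, (↑u⁻¹ : T m) * (c j * pderiv ℂ j (S (MvPolynomial.X t)))) *
      S (MvPolynomial.pderiv t g) := by
    have e1 : S H = (↑u⁻¹ : T m) * ((JS S).det * S H) := by
      rw [← hu, ← mul_assoc, Units.inv_mul, one_mul]
    rw [e1, ← hc, Finset.mul_sum]
    simp_rw [Finset.sum_mul]
    rw [Finset.sum_comm]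
    refine Finset.sum_congr rfl fun j _ => ?_
    rw [chain, Finset.mul_sum, Finset.mul_sum]
    refine Finset.sum_congr rfl fun t _ => ?_
    ring
  have h2 := congrArg Φ.symm h1
  rw [map_sum] at h2
  have h3 : ((tr p H : P m) : T m) =
      ∑ t, Φ.symm (∑ j, (↑u⁻¹ : T m) * (c j * pderiv ℂ j (S (MvPolynomial.X t)))) *
        ((tr p (MvPolynomial.pderiv t g) : P m) : T m) := by
    rw [hS, SS_apply, AlgEquiv.symm_apply_apply] at h2
    rw [h2]
    refine Finset.sum_congr rfl fun t _ => ?_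
    rw [map_mul, hS, SS_apply Φ p (MvPolynomial.pderiv t g), AlgEquiv.symm_apply_apply]
  obtain ⟨a, ha, haH⟩ := mem_flat _ _ _ h3
  refine ⟨tr (-p) a, ?_, ?_⟩
  · have h5 := cc_tr p (tr (-p) a)
    rw [tr_neg] at h5
    rw [← h5]
    exact ha
  · obtain ⟨b, hb⟩ := Ideal.mem_span_range_iff_exists_fun.1 haH
    have h5 := congrArg (tr (-p)) hb
    rw [map_mul, tr_neg', map_sum] at h5
    rw [← h5]
    refine Ideal.sum_mem _ fun t _ => ?_
    rw [map_mul, tr_neg']
    exact Ideal.mul_mem_left _ _ (Ideal.subset_span ⟨t, rfl⟩)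

/-- **The local lemma at a point.** -/
theorem loc_pt (g : P m) (p : Fin m → ℂ) (hW : WHIso g p) (α : ℂ) (hα : ∀ j : ℕ, α + j ≠ 0)
    (k : ℕ) (hk : 1 ≤ k) (K : ℕ) (V v : Fin m → P m) (H r r' : P m)
    (h0 : ∑ i, V i * MvPolynomial.pderiv i g = H * g)
    (h1 : ∑ i, MvPolynomial.pderiv i (V i) - MvPolynomial.C (α + k) * H = g ^ k * r)
    (h2 : g ^ (K + 1) * H = g * ∑ i, MvPolynomial.pderiv i (v i) -
      MvPolynomial.C (α + k + K) * ∑ i, v i * MvPolynomial.pderiv i g + g ^ (k + K + 1) * r') :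
    ∃ a : P m, MvPolynomial.eval p a ≠ 0 ∧ a * H ∈ jac g := by
  obtain ⟨Φ, w, D, G, hD, hG, hz, hΦ⟩ := hW
  have hL := mk_LD w D G hD hG hz
  apply local_mem g p Φ H
  set S := SS Φ p with hS
  have hSg : S g = (G : T m) := hΦ
  have hC : ∀ c : ℂ, S (MvPolynomial.C c) = C c := fun c => S.commutes c
  rw [hSg]
  refine loc_main hL α hα k hk K (tv S V) (tv S v) _ ((JS S).det * S r) ((JS S).det * S r') ?_ ?_ ?_
  · rw [← hSg, tv_apply, h0, map_mul, mul_assoc]
  · rw [tv_div, ← hSg]
    have e := congrArg S h1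
    rw [map_sub, map_mul, hC, map_mul, map_pow] at e
    linear_combination (JS S).det * e
  · rw [tv_div, ← hSg, tv_apply]
    have e := congrArg S h2
    rw [map_add, map_sub, map_mul, map_mul, map_mul, map_mul, hC, map_pow, map_pow] at e
    linear_combination (JS S).det * e

end Pool.Agent.U739.IS
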