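import Pool.Agent.W574.CN.Defs
import Pool.Agent.W574.MO.FormDefs

set_option autoImplicit false

/-! # Forms in `m + 1` variables with isolated weighted homogeneous singularities

This file contains the definitions which are used in the statements. -/

namespace Pool.Agent.U739.IS

open MvPolynomial Pool.Agent.W574.CN Pool.Agent.W574.MO

variable {m : ℕ}

/-- translation of the point `p` of `ℂ ^ m` to the origin -/
noncomputable def trans (p : Fin m → ℂ) : MvPolynomial (Fin m) ℂ →ₐ[ℂ] MvPolynomial (Fin m) ℂ :=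
  aeval fun i => X i + C (p i)

/-- `p` is a singular point of the hypersurface `g = 0` in `ℂ ^ m`, and the germ of `g` at `p` is
weighted homogeneous of degree `D > 0` with the weights `w i > 0`, with an isolated singularity: an
automorphism `Φ` of `ℂ⟦y⟧` (a formal change of coordinates) transforms `g(p + y)` into a weighted
homogeneous polynomial `G` of degree `D`, whose partial derivatives have the origin as their only
common zero. -/
def WHPoint (g : MvPolynomial (Fin m) ℂ) (p : Fin m → ℂ) (w : Fin m → ℕ) (D : ℕ) : Prop :=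
  eval p g = 0 ∧ (∀ t, eval p (pderiv t g) = 0) ∧ (∀ i, 0 < w i) ∧ 0 < D ∧
    ∃ (Φ : MvPowerSeries (Fin m) ℂ ≃ₐ[ℂ] MvPowerSeries (Fin m) ℂ) (G : MvPolynomial (Fin m) ℂ),
      IsWeightedHomogeneous w G D ∧
      (∀ q : Fin m → ℂ, (∀ i, eval q (pderiv i G) = 0) → q = 0) ∧
      Φ ((trans p g : MvPolynomial (Fin m) ℂ) : MvPowerSeries (Fin m) ℂ) =
        (G : MvPowerSeries (Fin m) ℂ)

/-- `F` is a nonzero form of degree `d > 0` in the variables `x_0, …, x_m`, and the hypersurface
`F = 0` in the projective space `P^m` has only weighted homogeneous isolated singularities; the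
coordinates are such that the section of `F = 0` by the hyperplane `x_0 = 0` is smooth (the
derivatives `∂F/∂x_t`, `t = 1, …, m`, have no common zero `≠ 0` with `x_0 = 0`). A general hyperplane
has this property if all singularities are isolated, and, conversely, it implies that the singular
points are in the chart `x_0 = 1` and isolated. `deh 0 F` is the polynomial `F(1, y_1, …, y_m)`. -/
structure IsoForm (F : MvPolynomial (Fin (m + 1)) ℂ) (d : ℕ) : Prop where
  hd : 0 < d
  hF : F.IsHomogeneous d
  hF0 : F ≠ 0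
  hyp : ∀ q : Fin (m + 1) → ℂ, q 0 = 0 → (∀ t : Fin m, eval q (pderiv t.succ F) = 0) → q = 0
  sing : ∀ p : Fin m → ℂ, eval p (deh 0 F) = 0 → (∀ t, eval p (pderiv t (deh 0 F)) = 0) →
    ∃ (w : Fin m → ℕ) (D : ℕ), WHPoint (deh 0 F) p w D

/-- Every linear vector field `v = ∑ v_i ∂_i` with `v(F) = 0` has divergence (trace) zero. -/
def NoTrace (F : MvPolynomial (Fin (m + 1)) ℂ) : Prop :=
  ∀ v : Fin (m + 1) → MvPolynomial (Fin (m + 1)) ℂ, (∀ i, (v i).IsHomogeneous 1) →
    ∑ i, v i * pderiv i F = 0 → ∑ i, pderiv i (v i) = 0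

/-- the linear substitution `x_i ↦ ∑_j g_{ij} x_j` -/
noncomputable def subst {n : ℕ} (g : Matrix (Fin n) (Fin n) ℂ) :
    MvPolynomial (Fin n) ℂ →ₐ[ℂ] MvPolynomial (Fin n) ℂ :=
  aeval fun i => ∑ j, C (g i j) * X j

/-- In suitable linear coordinates, `F` is weighted homogeneous of degree `D > 0` with the positive
weights `β i`. A form of degree `d > 0` has the grading with `β i = 1`, `D = d`; some forms have
other ones, for example `x ^ 5 + y ^ 4 z` has the grading with the weights `4, 4, 4` and `4, 3, 8`, of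
degree `20`. -/
def Grading {n : ℕ} (F : MvPolynomial (Fin n) ℂ) (β : Fin n → ℕ) (D : ℕ) : Prop :=
  (∀ i, 0 < β i) ∧ 0 < D ∧ ∃ g : Matrix (Fin n) (Fin n) ℂ, g.det ≠ 0 ∧
    IsWeightedHomogeneous β (subst g F) D

end Pool.Agent.U739.IS
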