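import Pool.Agent.U739.IS.ZDefs

set_option autoImplicit false

/-! # The motivic zeta functions of powers of forms with isolated weighted homogeneous singularities

`M` is a commutative ring with a unit `L`; the main examples are `M = K₀(Var_ℂ)[1/L]` and the
Grothendieck rings of varieties with an action of `μ = lim μ_n`, localized at `L`. The variable `X` of
`M⟦X⟧` is denoted by `T` in the comments. The formulas are for `∑_k [A_k] T^k`, where `[A_k]` is the
motivic volume of the set `A_k` of the arcs `φ`, in the set of arcs which is considered, such that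
`ord f(φ) = k`, or such that in addition the first non-zero coefficient of `f(φ)` is `1` (angular
component `1`).

*Weighted homogeneous points.* Let `G(y_1, …, y_m)` be weighted homogeneous of degree `D` with the
weights `w_i`, with an isolated singularity. For an arc `φ` with `φ(0) = 0`, let
`λ = min_i ord(φ_i) / w_i`. If `λ = r + k` with `0 < r ≤ 1`, then `φ_i = t^(k w_i) ψ_i`, where `ψ` is an
arc with `λ = r`, and `G(φ) = t^(k D) G(ψ)`. So the motivic zeta function of `G ^ a` at the origin is the
part of the arcs with `0 < λ ≤ 1`, times `∑_k (L^(-∑ w_i) T^(a D))^k`. There are only finitely many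
`r ≤ 1`. For an arc with `λ = r` let `x(t)` be the arc `t^(-r w_i) φ_i` (with fractional exponents), so
that `x(0) ≠ 0`. If `G(x(0)) ≠ 0`, then `ord G(φ) = r D`; and if `G(x(0)) = 0`, then some derivative of `G`
does not vanish at `x(0)`, so that, by the implicit function theorem, the arcs with
`ord G(φ) = e + k`, for some `e`, have the volume `c L^(-k)`. So the part of the arcs with `0 < λ ≤ 1` is
of the form `A + B / (1 - L⁻¹ T^a)` with polynomials `A`, `B` in `T`; see `WHMot`.

*The affine space.* Let `F` be a form such that `F = 0` has only isolated weighted homogeneous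
singularities in `P^m`, and let `f = F ^ a`. Let `β_0, …, β_m` be positive weights such that `F` is weighted
homogeneous of degree `D`, after a linear change of the coordinates (for example `β_i = 1` and
`D = deg F`). As before the motivic zeta function of `f`, for all arcs of `ℂ ^ (m + 1)` or for the arcs at the
origin, is the part of the arcs with `0 ≤ λ < 1` (or `0 < λ ≤ 1`), times `1 / (1 - L^(-∑ β_i) T^(a D))`. The
arcs with `λ = r` give arcs `x(t)` with `x(0) ≠ 0` (with fractional exponents, if `r β_i` is not an integer),
where `F(x(0)) ≠ 0`, or `x(0)` is a smooth point of `F = 0`, or it is on one of the lines of singular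
points. The first two kinds contribute `U + W / (1 - L⁻¹ T^a)` with polynomials `U`, `W` in `T`. The arcs
of the third kind contribute series as in `WHMot`, as there are weighted homogeneous coordinates
of a transversal slice which are compatible with the action of the stabilizer (a finite cyclic
group); see `MotIso`. -/

namespace Pool.Agent.U739.IS

open MvPolynomial Pool.Agent.W574.CN Pool.Agent.W574.MO

variable {m : ℕ} {M : Type} [CommRing M]

/-- `Z` is (of the form of) the local motivic zeta function of the `a`-th power of a weighted
homogeneous polynomial of degree `D`, with an isolated singularity, where `W` is the sum of the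
weights: `Z = (A + B / (1 - L⁻¹ T^a)) / (1 - L^(-W) T^(a D))`, where `A` and `B` are polynomials in `T` with
coefficients in `M`. -/
def WHMot (L : Mˣ) (a W D : ℕ) (Z : PowerSeries M) : Prop :=
  ∃ A B : Polynomial M,
    Z = ((A : PowerSeries M) + (B : PowerSeries M) * geo L a 1) * geo L (a * D) W

/-- `Z` is (of the form of) the motivic zeta function of `F ^ a`, for all arcs or for the arcs at the
origin: for all positive weights `β` such that `F` is weighted homogeneous of degree `D` in suitable
linear coordinates (for example `β = (1, …, 1)` and `D = deg F`), `Z` is equal to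
`(U + W / (1 - L⁻¹ T^a) + ∑_p Z_p) / (1 - L^(-∑ β_i) T^(a D))`, with polynomials `U`, `W` in `T` with
coefficients in `M`, and with contributions `Z_p` (`WHMot`) of the singular points `p` of `F = 0` (they
are in the chart `x_0 = 1`). -/
def MotIso (L : Mˣ) (F : MvPolynomial (Fin (m + 1)) ℂ) (a : ℕ) (Z : PowerSeries M) : Prop :=
  ∀ (β : Fin (m + 1) → ℕ) (D : ℕ), Grading F β D →
    ∃ (U W : Polynomial M) (S : Finset (Fin m → ℂ)) (w : (Fin m → ℂ) → Fin m → ℕ)
      (D' : (Fin m → ℂ) → ℕ) (Zp : (Fin m → ℂ) → PowerSeries M),
      (∀ p ∈ S, WHPoint (deh 0 F) p (w p) (D' p) ∧ WHMot L a (∑ i, w p i) (D' p) (Zp p)) ∧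
      Z = ((U : PowerSeries M) + (W : PowerSeries M) * geo L a 1 + ∑ p ∈ S, Zp p) *
        geo L (a * D) (∑ i, β i)

/-- The motivic zeta function of `F ^ a` at a point `x ≠ 0` with `F(x) = 0`: a multiple of
`T^a / (1 - L⁻¹ T^a)` if `x` is a smooth point of `F = 0`; otherwise `x = c (1, p)`, where `p` is a singular
point of `F(1, y) = 0`, and it is the one of `F(1, y) ^ a` at `p`, see `WHMot`. -/
def PointIso (L : Mˣ) (F : MvPolynomial (Fin (m + 1)) ℂ) (a : ℕ) (x : Fin (m + 1) → ℂ)
    (Z : PowerSeries M) : Prop :=
  (∃ t, eval x (pderiv t F) ≠ 0 ∧ ∃ w₀ : M,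
    Z = PowerSeries.C w₀ * (PowerSeries.X ^ a * geo L a 1)) ∨
  ∃ (c : ℂ) (p : Fin m → ℂ) (w : Fin m → ℕ) (D : ℕ), c ≠ 0 ∧
    x = (fun i => c * (Fin.cons 1 p : Fin (m + 1) → ℂ) i) ∧ WHPoint (deh 0 F) p w D ∧
    WHMot L a (∑ i, w i) D Z

end Pool.Agent.U739.IS
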