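import Pool.Agent.U739.IS.ZDefs
import Pool.Agent.N103.PointA
import Pool.Agent.N103.TDefs

set_option autoImplicit false

/-! # The topological zeta functions of powers of forms with isolated weighted homogeneous
singularities

Let `F` be a form in the variables `x_0, …, x_m`, such that the hypersurface `F = 0` in `P^m` has only
isolated weighted homogeneous singularities, and let `f = F ^ a`.

*Weighted homogeneous points.* Let `G` be weighted homogeneous of degree `D` with the weights `w_i`,
with an isolated singularity, and let `h` be the weighted blow-up of the origin. Its exceptional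
divisor `E` is the weighted projective space, with the numerical data `(a D, ∑ w_i)` for `G ^ a`, and the
strict transform of `G = 0`, with the data `(a, 1)`, is quasi-smooth and meets `E` transversally (on the
local coverings of the cyclic quotient singularities). So the local topological zeta function is
`1 / (a D s + ∑ w_i) * (A + B / (a s + 1))`, where `A` (and `B`) is the sum of the Euler characteristics
of the strata of `E` outside (and on) the strict transform, each multiplied by the order of the
isotropy group. For the `e`-th twisted zeta function only the strata count for which `e` divides the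
multiplicities (`e` divides the exponent vector of `f`, in the local lattice of the quotient).

*The affine space.* Let `β_0, …, β_m` be positive weights such that `F` is weighted homogeneous of
degree `D`, after a linear change of the coordinates (for example `β_i = 1` and `D = deg F`). Consider
the weighted blow-up of the origin of `ℂ ^ (m + 1)`. The exceptional divisor has the numerical data
`(a D, ∑ β_i)` for `f`. Its points correspond to the orbits in `ℂ ^ (m + 1) ∖ 0`; near a point of the
exceptional divisor, and near a point of the corresponding orbit, `f` is, on a local covering, up to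
a unit and a power of the equation of the exceptional divisor, the germ of `f` at a point of the
orbit. If `F = 0` is singular there, then `f` is the `a`-th power of a weighted homogeneous polynomial
as above, and the coordinates can be chosen compatible with the isotropy group. So the zeta function
of `f` is `c₀ + c₁ / (a s + 1) + ∑ n_p Z_p` (the points different from the origin), plus
`1 / (a D s + ∑ β_i)` times a similar sum; see `TwIso`. -/

namespace Pool.Agent.U739.IS

open MvPolynomial Pool.Agent.W574.CN Pool.Agent.W574.SM Pool.Agent.N103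

variable {m : ℕ}

/-- `Y` is a sum `c₀ + c₁ Φ(a, 1) + ∑_p Z_p` with integers `c₀`, `c₁`, where the sum is over finitely many
singular points `p` of `F(1, y) = 0`, and `Z_p = Φ(a D_p, ∑ w_{p,i}) (A_p + B_p Φ(a, 1))` with integers
`A_p`, `B_p`; `w_p`, `D_p` are the weights and the degree at `p`, and `Φ(N, ν) = 1 / (N s + ν)` if `e` divides
`N`, and `0` if not (`facT e N ν`). -/
def TwSum (e : ℕ) (F : MvPolynomial (Fin (m + 1)) ℂ) (a : ℕ) (Y : RatFunc ℂ) : Prop :=
  ∃ (S : Finset (Fin m → ℂ)) (w : (Fin m → ℂ) → Fin m → ℕ) (D : (Fin m → ℂ) → ℕ)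
    (A B : (Fin m → ℂ) → ℤ) (c₀ c₁ : ℤ),
    (∀ p ∈ S, WHPoint (deh 0 F) p (w p) (D p)) ∧
    Y = (c₀ : RatFunc ℂ) + (c₁ : RatFunc ℂ) * facT e a 1 +
      ∑ p ∈ S, facT e (a * D p) (∑ i, w p i) *
        ((A p : RatFunc ℂ) + (B p : RatFunc ℂ) * facT e a 1)

/-- `Z` is (of the form of) the `e`-th twisted topological zeta function of `F ^ a` on an open set of
`ℂ ^ (m + 1)`: for all positive weights `β` such that `F` is weighted homogeneous of degree `D` in
suitable linear coordinates (for example `β = (1, …, 1)` and `D = deg F`), `Z = Y + Φ(a D, ∑ β_i) Y'` with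
sums `Y`, `Y'` as in `TwSum`. -/
def TwIso (e : ℕ) (F : MvPolynomial (Fin (m + 1)) ℂ) (a : ℕ) (Z : RatFunc ℂ) : Prop :=
  ∀ (β : Fin (m + 1) → ℕ) (D : ℕ), Grading F β D →
    ∃ Y Y' : RatFunc ℂ, TwSum e F a Y ∧ TwSum e F a Y' ∧
      Z = Y + facT e (a * D) (∑ i, β i) * Y'

/-- The sums of `TwSum` for `e = 1`, for a tuple `(F ^ (a t))`, `t ∈ T`, in the variables `s_t`, with the
local factors `facM N ν = 1 / (∑_t N_t s_t + ν)`. -/
def TupSum {T : Type} [Fintype T] (F : MvPolynomial (Fin (m + 1)) ℂ) (a : T → ℕ)
    (Y : FractionRing (MvPolynomial T ℂ)) : Prop :=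
  ∃ (S : Finset (Fin m → ℂ)) (w : (Fin m → ℂ) → Fin m → ℕ) (D : (Fin m → ℂ) → ℕ)
    (A B : (Fin m → ℂ) → ℤ) (c₀ c₁ : ℤ),
    (∀ p ∈ S, WHPoint (deh 0 F) p (w p) (D p)) ∧
    Y = (c₀ : FractionRing (MvPolynomial T ℂ)) + (c₁ : FractionRing (MvPolynomial T ℂ)) * facM a 1 +
      ∑ p ∈ S, facM (fun t => a t * D p) (∑ i, w p i) *
        ((A p : FractionRing (MvPolynomial T ℂ)) +
          (B p : FractionRing (MvPolynomial T ℂ)) * facM a 1)

/-- `Z` is (of the form of) the topological zeta function of the tuple `(F ^ (a t))`, `t ∈ T`, in the
variables `s_t`: the formulas of `TwIso` for `e = 1`, with the local factors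
`facM N ν = 1 / (∑_t N_t s_t + ν)`. -/
def TupIso {T : Type} [Fintype T] (F : MvPolynomial (Fin (m + 1)) ℂ) (a : T → ℕ)
    (Z : FractionRing (MvPolynomial T ℂ)) : Prop :=
  ∀ (β : Fin (m + 1) → ℕ) (D : ℕ), Grading F β D →
    ∃ Y Y' : FractionRing (MvPolynomial T ℂ), TupSum F a Y ∧ TupSum F a Y' ∧
      Z = Y + facM (fun t => a t * D) (∑ i, β i) * Y'

end Pool.Agent.U739.IS
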