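import Pool.Agent.U739.IS.ZDefs
import Pool.Agent.U739.IS.RoB
import Pool.Agent.U739.IS.Exc
import Pool.Agent.W574.MO.Alg

set_option autoImplicit false

/-! # The candidate poles are roots -/

namespace Pool.Agent.U739.IS

open MvPolynomial Pool.Agent.H628R4.TP Pool.Agent.W574.CN Pool.Agent.W574.MO Pool.Agent.W574.SM

variable {m : ℕ} {F : MvPolynomial (Fin (m + 1)) ℂ} {d : ℕ}

theorem IsoForm.fh (h : IsoForm F d) : FH F d := ⟨h.hd, h.hF, h.hF0, h.hyp⟩

theorem IsoForm.wh (h : IsoForm F d) : WHall F := by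
  intro p hp hpd
  obtain ⟨w, D, -, -, hw, hD, Φ, G, hG, hz, hΦ⟩ := h.sing p hp hpd
  exact ⟨Φ, w, D, G, hD, hG, hz, hΦ⟩

/-- the root `-(m+1)/(a d)` -/
theorem root_main (h : IsoForm F d) (hL : NoTrace F) (a : ℕ) (ha : 0 < a) (b : Polynomial ℂ)
    (hb : IsBFunction (F ^ a) b) : b.eval (-((m : ℂ) + 1) / ((d * a : ℕ) : ℂ)) = 0 :=
  core F d a ha h.fh h.wh hL b hb

theorem not_unit (h : IsoForm F d) : ¬ IsUnit F := by
  intro hu
  obtain ⟨c, hc, hcF⟩ := MvPolynomial.isUnit_iff_eq_C_of_isReduced.1 hu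
  have h1 := h.hF.totalDegree h.hF0
  rw [hcF, totalDegree_C] at h1
  have := h.hd
  omega

/-- the root `-1/a` -/
theorem root_unit (h : IsoForm F d) (a : ℕ) (ha : 0 < a) (b : Polynomial ℂ)
    (hb : IsBFunction (F ^ a) b) : b.eval (-1 / (a : ℂ)) = 0 :=
  root_one F h.hF0 (not_unit h) a ha b hb

theorem deh_ne (h : IsoForm F d) : deh 0 F ≠ 0 := fun h0 =>
  h.hF0 (Pool.Agent.U184.deh_inj 0 h.hF h0)

/-- the roots of the singular points -/
theorem root_pt (h : IsoForm F d) (a : ℕ) (ha : 0 < a) (b : Polynomial ℂ)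
    (hb : IsBFunction (F ^ a) b) (p : Fin m → ℂ) (w : Fin m → ℕ) (D : ℕ)
    (hp : WHPoint (deh 0 F) p w D) :
    b.eval (-((∑ i, w i : ℕ) : ℂ) / ((a * D : ℕ) : ℂ)) = 0 := by
  obtain ⟨h0, h1, hw, hD, Φ, G, hG, hz, hΦ⟩ := hp
  refine root_loc (deh 0 F) (deh_ne h) a ha p h0 h1 Φ w D G hw hD hG hz hΦ b ?_
  have := isB_deh' (F ^ a) (d * a) (h.hF.pow a) b hb 0
  rwa [map_pow] at this

theorem sum_pos' (h : IsoForm F d) (p : Fin m → ℂ) (w : Fin m → ℕ) (D : ℕ)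
    (hp : WHPoint (deh 0 F) p w D) : 1 ≤ ∑ i, w i := by
  obtain ⟨h0, -, hw, -⟩ := hp
  have hm : 0 < m := by
    rcases Nat.eq_zero_or_pos m with h1 | h1
    · exfalso
      subst h1
      apply deh_ne h
      rw [eq_C_of_isEmpty (deh 0 F)] at h0 ⊢
      rw [eval_C] at h0
      rw [h0, map_zero]
    · exact h1
  have h2 : w ⟨0, hm⟩ ≤ ∑ i, w i :=
    Finset.single_le_sum (f := w) (fun _ _ => Nat.zero_le _) (Finset.mem_univ _)
  have := hw ⟨0, hm⟩
  omega

/-! ### The motivic denominators -/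

theorem pair_one (h : IsoForm F d) (a : ℕ) (ha : 0 < a) (b : Polynomial ℂ)
    (hb : IsBFunction (F ^ a) b) : RootPair b a 1 := by
  rw [RootPair]
  have := root_unit h a ha b hb
  push_cast
  exact this

theorem pair_pt (h : IsoForm F d) (a : ℕ) (ha : 0 < a) (b : Polynomial ℂ)
    (hb : IsBFunction (F ^ a) b) (p : Fin m → ℂ) (w : Fin m → ℕ) (D : ℕ)
    (hp : WHPoint (deh 0 F) p w D) : RootPair b (a * D) (∑ i, w i) :=
  root_pt h a ha b hb p w D hp

theorem pair_main (h : IsoForm F d) (hL : NoTrace F) (a : ℕ) (ha : 0 < a) (b : Polynomial ℂ)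
    (hb : IsBFunction (F ^ a) b) : RootPair b (a * d) (m + 1) := by
  rw [RootPair]
  have := root_main h hL a ha b hb
  rw [mul_comm a d]
  push_cast at this ⊢
  exact this

end Pool.Agent.U739.IS
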