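import Pool.Agent.U739.IS.ZDefs2
import Pool.Agent.U739.IS.ZMain

set_option autoImplicit false

/-! # The motivic zeta functions -/

namespace Pool.Agent.U739.IS

open MvPolynomial Pool.Agent.H628R4.TP Pool.Agent.W574.CN Pool.Agent.W574.MO Pool.Agent.W574.SM

variable {m : ℕ} {F : MvPolynomial (Fin (m + 1)) ℂ} {d : ℕ} {M : Type} [CommRing M] {L : Mˣ}

theorem poly_mem {K : ℕ → ℕ → Prop} (A : Polynomial M) : (A : PowerSeries M) ∈ DenRing L K :=
  Subring.subset_closure (Or.inl ⟨A, rfl⟩)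

theorem X_pow_mem {K : ℕ → ℕ → Prop} (a : ℕ) :
    (PowerSeries.X ^ a : PowerSeries M) ∈ DenRing L K := by
  have := poly_mem (L := L) (K := K) (Polynomial.X ^ a : Polynomial M)
  rwa [Polynomial.coe_pow, Polynomial.coe_X] at this

theorem whmot_mem {K : ℕ → ℕ → Prop} {a W D : ℕ} (ha : 0 < a) (hD : 0 < D) (hW : 1 ≤ W)
    (h1 : K a 1) (h2 : K (a * D) W) {Z : PowerSeries M} (hZ : WHMot L a W D Z) :
    Z ∈ DenRing L K := by
  obtain ⟨A, B, rfl⟩ := hZ
  exact Subring.mul_mem _ (Subring.add_mem _ (poly_mem A) (Subring.mul_mem _ (poly_mem B)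
    (geo_mem ha le_rfl h1))) (geo_mem (Nat.mul_pos ha hD) hW h2)

theorem smooth_mem {K : ℕ → ℕ → Prop} {a : ℕ} (ha : 0 < a) (h1 : K a 1) (w₀ : M) :
    PowerSeries.C w₀ * (PowerSeries.X ^ a * geo L a 1) ∈ DenRing L K :=
  Subring.mul_mem _ (C_mem _) (Subring.mul_mem _ (X_pow_mem a) (geo_mem ha le_rfl h1))

/-- the formula for a grading -/
theorem grad_mem (h : IsoForm F d) {a : ℕ} (ha : 0 < a) (b : Polynomial ℂ)
    (hb : IsBFunction (F ^ a) b) {Z : PowerSeries M} (hZ : MotIso L F a Z)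
    {β : Fin (m + 1) → ℕ} {D : ℕ} (hg : Grading F β D) :
    ∃ Y ∈ DenRing L (RootPair b), Z = Y * geo L (a * D) (∑ i, β i) := by
  obtain ⟨U, W, S, w, D', Zp, hS, rfl⟩ := hZ β D hg
  have h1 := pair_one h a ha b hb
  refine ⟨_, Subring.add_mem _ (Subring.add_mem _ (poly_mem U) (Subring.mul_mem _ (poly_mem W)
    (geo_mem ha le_rfl h1))) (Subring.sum_mem _ fun p hp => ?_), rfl⟩
  obtain ⟨hp1, hp2⟩ := hS p hp
  exact whmot_mem ha hp1.2.2.2.1 (sum_pos' h p _ _ hp1) h1 (pair_pt h a ha b hb p _ _ hp1) hp2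

theorem grad_mem' (h : IsoForm F d) {a : ℕ} (ha : 0 < a) (b : Polynomial ℂ)
    (hb : IsBFunction (F ^ a) b) {Z : PowerSeries M} (hZ : MotIso L F a Z)
    {β : Fin (m + 1) → ℕ} {D : ℕ} (hg : Grading F β D) :
    (1 - qq L (a * D) (∑ i, β i)) * Z ∈ DenRing L (RootPair b) := by
  obtain ⟨Y, hY, rfl⟩ := grad_mem h ha b hb hZ hg
  have h1 := geo_mul (L := L) (Nat.mul_pos ha hg.2.1) (∑ i, β i)
  have h2 : (1 - qq L (a * D) (∑ i, β i)) * (Y * geo L (a * D) (∑ i, β i)) =
      Y * ((1 - qq L (a * D) (∑ i, β i)) * geo L (a * D) (∑ i, β i)) := by ring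
  rw [h2, h1, mul_one]
  exact hY

theorem qq_pow (a n N : ℕ) : (qq L a n) ^ N = qq L (N * a) (N * n) := by
  induction N with
  | zero => simp [qq]
  | succ N ih => rw [pow_succ, ih, qq_mul]; congr 1 <;> ring

theorem qq_zero (n : ℕ) : qq L 0 n = PowerSeries.C ((L⁻¹ ^ n : Mˣ) : M) := by simp [qq]

theorem CC (k : ℕ) : (PowerSeries.C ((L : M) ^ k)) * PowerSeries.C ((L⁻¹ ^ k : Mˣ) : M) = 1 := by
  rw [← map_mul]
  have : (L : M) ^ k * ((L⁻¹ ^ k : Mˣ) : M) = 1 := by
    rw [← Units.val_pow_eq_pow_val, ← Units.val_mul, ← mul_pow, mul_inv_cancel, one_pow,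
      Units.val_one]
  rw [this, map_one]

/-- without exception: a multiple by `L ^ k - 1` -/
theorem mot_mul (h : IsoForm F d) {a : ℕ} (ha : 0 < a) (b : Polynomial ℂ)
    (hb : IsBFunction (F ^ a) b) {Z : PowerSeries M} (hZ : MotIso L F a Z) (hL : ¬ NoTrace F) :
    ∃ k : ℕ, 1 ≤ k ∧ PowerSeries.C ((L : M) ^ k - 1) * Z ∈ DenRing L (RootPair b) := by
  obtain ⟨β, N, hN, hg, hne⟩ := exists_grading h.hF h.hd hL
  have h1 := grad_mem' h ha b hb hZ (grading_std h.hF h.hd)
  have h2 := grad_mem' h ha b hb hZ hg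
  have hs : ∑ _i : Fin (m + 1), (1 : ℕ) = m + 1 := by simp
  rw [hs] at h1
  set x := qq L (a * d) (m + 1) with hx
  have hxN : x ^ N = qq L (a * (N * d)) (N * (m + 1)) := by
    rw [hx, qq_pow]
    congr 1
    ring
  have h3 : (1 - x ^ N) * Z ∈ DenRing L (RootPair b) := by
    rw [← geom_sum_mul_neg, mul_assoc]
    exact Subring.mul_mem _ (Subring.sum_mem _ fun i _ => Subring.pow_mem _ (qq_mem _ _) i) h1
  rcases lt_or_gt_of_ne hne with hlt | hgt
  · obtain ⟨k, hk⟩ := Nat.exists_eq_add_of_lt hlt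
    refine ⟨k + 1, by omega, ?_⟩
    have h4 : x ^ N = PowerSeries.C ((L⁻¹ ^ (k + 1) : Mˣ) : M) * qq L (a * (N * d)) (∑ i, β i) := by
      rw [hxN, ← qq_zero, qq_mul]
      congr 1
      · ring
      · omega
    have h5 : PowerSeries.C ((L : M) ^ (k + 1)) * x ^ N = qq L (a * (N * d)) (∑ i, β i) := by
      rw [h4, ← mul_assoc, CC, one_mul]
    have h6 : PowerSeries.C ((L : M) ^ (k + 1) - 1) * Z =
        PowerSeries.C ((L : M) ^ (k + 1)) * ((1 - x ^ N) * Z) -
          (1 - qq L (a * (N * d)) (∑ i, β i)) * Z := by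
      rw [← h5, map_sub, map_one]
      ring
    rw [h6]
    exact Subring.sub_mem _ (Subring.mul_mem _ (C_mem _) h3) h2
  · obtain ⟨k, hk⟩ := Nat.exists_eq_add_of_lt hgt
    refine ⟨k + 1, by omega, ?_⟩
    have h4 : qq L (a * (N * d)) (∑ i, β i) = PowerSeries.C ((L⁻¹ ^ (k + 1) : Mˣ) : M) * x ^ N := by
      rw [hxN, ← qq_zero, qq_mul]
      congr 1
      · ring
      · omega
    have h6 : PowerSeries.C ((L : M) ^ (k + 1) - 1) * Z =
        PowerSeries.C ((L : M) ^ (k + 1)) * ((1 - qq L (a * (N * d)) (∑ i, β i)) * Z) -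
          (1 - x ^ N) * Z := by
      rw [h4, map_sub, map_one]
      linear_combination (x ^ N * Z) * CC (L := L) (k + 1)
    rw [h6]
    exact Subring.sub_mem _ (Subring.mul_mem _ (C_mem _) h2) h3

/-! ### Division by non-zero-divisors of `M` -/

theorem den_form {K : ℕ → ℕ → Prop} {Y : PowerSeries M} (hY : Y ∈ DenRing L K) :
    ∃ (w A : Polynomial M) (W : PowerSeries M), W ∈ DenRing L K ∧ W * (w : PowerSeries M) = 1 ∧
      (w : PowerSeries M) * Y = (A : PowerSeries M) := by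
  induction hY using Subring.closure_induction with
  | mem x hx =>
    rcases hx with ⟨p, rfl⟩ | ⟨a, n, ha, hn, hK, hx⟩
    · exact ⟨1, p, 1, Subring.one_mem _, by simp, by simp⟩
    · refine ⟨1 - Polynomial.C ((L⁻¹ ^ n : Mˣ) : M) * Polynomial.X ^ a, 1, x,
        Subring.subset_closure (Or.inr ⟨a, n, ha, hn, hK, hx⟩), ?_, ?_⟩
      · rw [Polynomial.coe_sub, Polynomial.coe_one, Polynomial.coe_mul, Polynomial.coe_C,
          Polynomial.coe_pow, Polynomial.coe_X]
        exact hx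
      · rw [Polynomial.coe_sub, Polynomial.coe_one, Polynomial.coe_mul, Polynomial.coe_C,
          Polynomial.coe_pow, Polynomial.coe_X, mul_comm]
        exact hx
  | zero => exact ⟨1, 0, 1, Subring.one_mem _, by simp, by simp⟩
  | one => exact ⟨1, 1, 1, Subring.one_mem _, by simp, by simp⟩
  | neg x _ hx =>
    obtain ⟨w, A, W, h1, h2, h3⟩ := hx
    exact ⟨w, -A, W, h1, h2, by rw [mul_neg, h3, Polynomial.coe_neg]⟩
  | add x y _ _ hx hy =>
    obtain ⟨w, A, W, h1, h2, h3⟩ := hx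
    obtain ⟨w', A', W', h1', h2', h3'⟩ := hy
    refine ⟨w * w', w' * A + w * A', W * W', Subring.mul_mem _ h1 h1', ?_, ?_⟩
    · rw [Polynomial.coe_mul]
      linear_combination h2 * (W' * (w' : PowerSeries M)) + h2'
    · rw [Polynomial.coe_mul, Polynomial.coe_add, Polynomial.coe_mul, Polynomial.coe_mul, ← h3,
        ← h3']
      ring
  | mul x y _ _ hx hy =>
    obtain ⟨w, A, W, h1, h2, h3⟩ := hx
    obtain ⟨w', A', W', h1', h2', h3'⟩ := hy
    refine ⟨w * w', A * A', W * W', Subring.mul_mem _ h1 h1', ?_, ?_⟩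
    · rw [Polynomial.coe_mul]
      linear_combination h2 * (W' * (w' : PowerSeries M)) + h2'
    · rw [Polynomial.coe_mul, Polynomial.coe_mul, ← h3, ← h3']
      ring

theorem div_mem {K : ℕ → ℕ → Prop} {e n : ℕ} (he : 1 ≤ e) {Z : PowerSeries M} {c : M}
    (hc : c ∈ nonZeroDivisors M) (h1 : (1 - qq L e n) * Z ∈ DenRing L K)
    (h2 : PowerSeries.C c * Z ∈ DenRing L K) : Z ∈ DenRing L K := by
  rcases subsingleton_or_nontrivial M with hM | hM
  · have : Z = 0 := by
      ext i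
      exact Subsingleton.elim _ _
    rw [this]
    exact Subring.zero_mem _
  obtain ⟨w₁, A₁, W₁, hW₁, hw₁, hA₁⟩ := den_form h1
  obtain ⟨w₂, A₂, W₂, hW₂, hw₂, hA₂⟩ := den_form h2
  set u : M := ((L⁻¹ ^ n : Mˣ) : M) with hu
  set u' : M := ((L ^ n : Mˣ) : M) with hu'
  have huu : u * u' = 1 := by
    rw [hu, hu', ← Units.val_mul, ← mul_pow, inv_mul_cancel, one_pow, Units.val_one]
  set Q : Polynomial M := Polynomial.X ^ e - Polynomial.C u' with hQ
  have hQm : Q.Monic := Polynomial.monic_X_pow_sub_C u' (by omega)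
  have hQd : Q.degree = e := Polynomial.degree_X_pow_sub_C (by omega) u'
  set P : Polynomial M := 1 - Polynomial.C u * Polynomial.X ^ e with hP
  have hPQ : P = -Polynomial.C u * Q := by
    have : (Polynomial.C u * Polynomial.C u' : Polynomial M) = 1 := by
      rw [← map_mul, huu, map_one]
    rw [hP, hQ]
    linear_combination -this
  have hPc : (P : PowerSeries M) = 1 - qq L e n := by
    rw [hP, Polynomial.coe_sub, Polynomial.coe_one, Polynomial.coe_mul, Polynomial.coe_C,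
      Polynomial.coe_pow, Polynomial.coe_X]
    rfl
  have hB : (Polynomial.C c * (w₂ * A₁) : Polynomial M) = P * (w₁ * A₂) := by
    apply Polynomial.coe_injective
    rw [Polynomial.coe_mul, Polynomial.coe_mul, Polynomial.coe_mul, Polynomial.coe_mul,
      Polynomial.coe_C, ← hA₁, ← hA₂, hPc]
    ring
  have hdiv := Polynomial.modByMonic_add_div (w₂ * A₁) Q
  set r := (w₂ * A₁) %ₘ Q with hr
  set q := (w₂ * A₁) /ₘ Q with hq
  have hcr : Polynomial.C c * r = Q * (-Polynomial.C u * (w₁ * A₂) - Polynomial.C c * q) := by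
    rw [← hdiv, hPQ] at hB
    linear_combination hB
  have hcr0 : Polynomial.C c * r = 0 := by
    by_contra hne
    refine hQm.not_dvd_of_degree_lt hne ?_ ⟨_, hcr⟩
    rw [← Polynomial.smul_eq_C_mul]
    exact lt_of_le_of_lt (Polynomial.degree_smul_le c r) (Polynomial.degree_modByMonic_lt _ hQm)
  have hr0 : r = 0 := by
    ext i
    have := congrArg (fun p => Polynomial.coeff p i) hcr0
    simp only [Polynomial.coeff_C_mul, Polynomial.coeff_zero] at this
    rw [Polynomial.coeff_zero]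
    exact (mul_left_mem_nonZeroDivisors_eq_zero_iff hc).1 this
  rw [hr0, zero_add] at hdiv
  -- `w P Z = P q'`
  have hfin : ((w₁ * w₂ : Polynomial M) : PowerSeries M) * Z =
      ((-Polynomial.C u' * q : Polynomial M) : PowerSeries M) := by
    have h3 : (P : PowerSeries M) * (((w₁ * w₂ : Polynomial M) : PowerSeries M) * Z) =
        P * ((-Polynomial.C u' * q : Polynomial M) : PowerSeries M) := by
      have h4 : (P * (-Polynomial.C u' * q) : Polynomial M) = w₂ * A₁ := by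
        rw [← hdiv, hPQ]
        have : (Polynomial.C u * Polynomial.C u' : Polynomial M) = 1 := by
          rw [← map_mul, huu, map_one]
        linear_combination (Q * q) * this
      rw [← Polynomial.coe_mul P, h4, Polynomial.coe_mul w₂, ← hA₁, hPc, Polynomial.coe_mul]
      ring
    have h5 := geo_mul (L := L) he n
    rw [hPc] at h3
    calc ((w₁ * w₂ : Polynomial M) : PowerSeries M) * Z
        = ((1 - qq L e n) * geo L e n) * (((w₁ * w₂ : Polynomial M) : PowerSeries M) * Z) := by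
          rw [h5, one_mul]
      _ = geo L e n * ((1 - qq L e n) * (((w₁ * w₂ : Polynomial M) : PowerSeries M) * Z)) := by
          ring
      _ = ((1 - qq L e n) * geo L e n) *
            ((-Polynomial.C u' * q : Polynomial M) : PowerSeries M) := by
          rw [h3]; ring
      _ = _ := by rw [h5, one_mul]
  have hZ : Z = (W₁ * W₂) * ((-Polynomial.C u' * q : Polynomial M) : PowerSeries M) := by
    rw [← hfin, Polynomial.coe_mul]
    linear_combination (-Z) * hw₂ - (W₂ * (w₂ : PowerSeries M) * Z) * hw₁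
  rw [hZ]
  exact Subring.mul_mem _ (Subring.mul_mem _ hW₁ hW₂) (poly_mem _)

/-- **The motivic zeta functions.** -/
theorem mot_main (h : IsoForm F d) {a : ℕ} (ha : 0 < a) (b : Polynomial ℂ)
    (hb : IsBFunction (F ^ a) b) {Z : PowerSeries M} (hZ : MotIso L F a Z) :
    (∃ k : ℕ, 1 ≤ k ∧ PowerSeries.C ((L : M) ^ k - 1) * Z ∈ DenRing L (RootPair b)) ∧
    ((NoTrace F ∨ ∀ k : ℕ, 1 ≤ k → (L : M) ^ k - 1 ∈ nonZeroDivisors M) →
      Z ∈ DenRing L (RootPair b)) := by
  have h0 : NoTrace F → Z ∈ DenRing L (RootPair b) := by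
    intro hL
    obtain ⟨Y, hY, rfl⟩ := grad_mem h ha b hb hZ (grading_std h.hF h.hd)
    have hs : ∑ _i : Fin (m + 1), (1 : ℕ) = m + 1 := by simp
    rw [hs]
    exact Subring.mul_mem _ hY (geo_mem (Nat.mul_pos ha h.hd) (by omega)
      (pair_main h hL a ha b hb))
  by_cases hL : NoTrace F
  · exact ⟨⟨1, le_rfl, Subring.mul_mem _ (C_mem _) (h0 hL)⟩, fun _ => h0 hL⟩
  · obtain ⟨k, hk, hkZ⟩ := mot_mul h ha b hb hZ hL
    refine ⟨⟨k, hk, hkZ⟩, ?_⟩
    rintro (h1 | h1)
    · exact absurd h1 hL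
    · exact div_mem (Nat.mul_pos ha h.hd) (h1 k hk)
        (grad_mem' h ha b hb hZ (grading_std h.hF h.hd)) hkZ

theorem point_mem (h : IsoForm F d) {a : ℕ} (ha : 0 < a) (b : Polynomial ℂ)
    (hb : IsBFunction (F ^ a) b) (x : Fin (m + 1) → ℂ) {Z : PowerSeries M}
    (hZ : PointIso L F a x Z) : Z ∈ DenRing L (RootPair b) := by
  rcases hZ with ⟨t, ht, w₀, rfl⟩ | ⟨c, p, w, D, hc, hx, hp, hZ⟩
  · exact smooth_mem ha (pair_one h a ha b hb) w₀
  · exact whmot_mem ha hp.2.2.2.1 (sum_pos' h p _ _ hp) (pair_one h a ha b hb)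
      (pair_pt h a ha b hb p w D hp) hZ

theorem bfun_of_local (h : IsoForm F d) {a : ℕ} (b : Polynomial ℂ)
    (hb : IsLocalBFunction (F ^ a) b) : IsBFunction (F ^ a) b :=
  global_of_local (F ^ a) (pow_ne_zero a h.hF0) (d * a) (h.hF.pow a) b hb

end Pool.Agent.U739.IS
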