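import Pool.Agent.U739.IS.ZDefs3
import Pool.Agent.U739.IS.ZMain
import Pool.Agent.N103.TupB

set_option autoImplicit false

/-! # The topological zeta functions -/

namespace Pool.Agent.U739.IS

open MvPolynomial Pool.Agent.H628R4.TP Pool.Agent.W574.CN Pool.Agent.W574.SM Pool.Agent.N103

variable {m : ℕ} {F : MvPolynomial (Fin (m + 1)) ℂ} {d : ℕ}

theorem facT_mem (e N ν : ℕ) (s₀ : ℂ) (h : (ν : ℂ) + N * s₀ ≠ 0) : facT e N ν ∈ Reg s₀ := by
  rw [facT]
  split_ifs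
  · exact fac_mem N ν s₀ h
  · exact (Reg s₀).zero_mem

theorem int_mem (s₀ : ℂ) (n : ℤ) : (n : RatFunc ℂ) ∈ Reg s₀ := intCast_mem _ n

theorem ne_of_root {b : Polynomial ℂ} {s₀ : ℂ} (hne : b.eval s₀ ≠ 0) {N ν : ℕ} (hN : 0 < N)
    (h : b.eval (-(ν : ℂ) / N) = 0) : (ν : ℂ) + N * s₀ ≠ 0 := by
  intro h0
  have hN0 : (N : ℂ) ≠ 0 := Nat.cast_ne_zero.2 hN.ne'
  apply hne
  have : s₀ = -(ν : ℂ) / N := by
    rw [eq_div_iff hN0]
    linear_combination h0
  rw [this]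
  exact h

theorem tw_sum_mem (h : IsoForm F d) (a : ℕ) (ha : 0 < a) (b : Polynomial ℂ)
    (hb : IsBFunction (F ^ a) b) (e : ℕ) {Y : RatFunc ℂ} (hY : TwSum e F a Y) {s₀ : ℂ}
    (hne : b.eval s₀ ≠ 0) : Y ∈ Reg s₀ := by
  obtain ⟨S, w, D, A, B, c₀, c₁, hS, rfl⟩ := hY
  have h1 : facT e a 1 ∈ Reg s₀ := facT_mem e a 1 s₀ (ne_of_root hne ha (by
    have := root_unit h a ha b hb
    push_cast
    exact this))
  refine (Reg s₀).add_mem ((Reg s₀).add_mem (int_mem _ _) ((Reg s₀).mul_mem (int_mem _ _) h1))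
    (Subring.sum_mem _ fun p hpS => (Reg s₀).mul_mem ?_
      ((Reg s₀).add_mem (int_mem _ _) ((Reg s₀).mul_mem (int_mem _ _) h1)))
  exact facT_mem e _ _ s₀ (ne_of_root hne (Nat.mul_pos ha (hS p hpS).2.2.2.1)
    (root_pt h a ha b hb p _ _ (hS p hpS)))

/-- **The poles of the twisted topological zeta functions are roots.** -/
theorem tw_full (h : IsoForm F d) (a : ℕ) (ha : 0 < a) (b : Polynomial ℂ)
    (hb : IsBFunction (F ^ a) b) (e : ℕ) (Z : RatFunc ℂ) (hZ : TwIso e F a Z) (s₀ : ℂ)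
    (hs₀ : Z.denom.eval s₀ = 0) : b.eval s₀ = 0 := by
  by_contra hne
  have hgr : ∃ (β : Fin (m + 1) → ℕ) (D : ℕ), Grading F β D ∧
      ((∑ i, β i : ℕ) : ℂ) + ((a * D : ℕ) : ℂ) * s₀ ≠ 0 := by
    by_cases h0 : ((m + 1 : ℕ) : ℂ) + ((a * d : ℕ) : ℂ) * s₀ = 0
    · by_cases hL : NoTrace F
      · exfalso
        refine ne_of_root hne (Nat.mul_pos ha h.hd) ?_ h0
        have := root_main h hL a ha b hb
        rw [mul_comm a d]
        push_cast at this ⊢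
        exact this
      · obtain ⟨β, N, hN, hg, hne'⟩ := exists_grading h.hF h.hd hL
        refine ⟨β, N * d, hg, fun h1 => hne' ?_⟩
        have h2 : ((∑ i, β i : ℕ) : ℂ) = ((N * (m + 1) : ℕ) : ℂ) := by
          push_cast at h0 h1 ⊢
          linear_combination h1 - (N : ℂ) * h0
        exact_mod_cast h2
    · refine ⟨fun _ => 1, d, grading_std h.hF h.hd, ?_⟩
      simpa using h0
  obtain ⟨β, D, hg, hβ⟩ := hgr
  obtain ⟨Y, Y', hY, hY', rfl⟩ := hZ β D hg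
  exact Reg_denom s₀ _ ((Reg s₀).add_mem (tw_sum_mem h a ha b hb e hY hne)
    ((Reg s₀).mul_mem (facT_mem e _ _ s₀ hβ) (tw_sum_mem h a ha b hb e hY' hne))) hs₀

section Tuple

variable {T : Type} [Fintype T]

/-- the rational functions which are regular at `z` -/
def RegT (z : T → ℂ) : Subring (FractionRing (MvPolynomial T ℂ)) where
  carrier := {Z | ∃ P Q : MvPolynomial T ℂ, eval z Q ≠ 0 ∧
    algebraMap _ (FractionRing (MvPolynomial T ℂ)) Q * Z = algebraMap _ _ P}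
  mul_mem' := by
    rintro x y ⟨P, Q, h1, h2⟩ ⟨P', Q', h1', h2'⟩
    refine ⟨P * P', Q * Q', by rw [map_mul]; exact mul_ne_zero h1 h1', ?_⟩
    rw [map_mul, map_mul, ← h2, ← h2']
    ring
  one_mem' := ⟨1, 1, by simp, by simp⟩
  add_mem' := by
    rintro x y ⟨P, Q, h1, h2⟩ ⟨P', Q', h1', h2'⟩
    refine ⟨P * Q' + P' * Q, Q * Q', by rw [map_mul]; exact mul_ne_zero h1 h1', ?_⟩
    rw [map_mul, map_add, map_mul, map_mul, ← h2, ← h2']
    ring
  zero_mem' := ⟨0, 1, by simp, by simp⟩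
  neg_mem' := by
    rintro x ⟨P, Q, h1, h2⟩
    exact ⟨-P, Q, h1, by rw [map_neg, ← h2]; ring⟩

theorem not_polar {z : T → ℂ} {Z : FractionRing (MvPolynomial T ℂ)} (h : Z ∈ RegT z) :
    z ∉ Polar Z := by
  obtain ⟨P, Q, h1, h2⟩ := h
  exact fun hz => h1 (hz Q P h2)

theorem facM_mem {z : T → ℂ} {N : T → ℕ} {ν : ℕ} (hν : 1 ≤ ν)
    (h : ∑ t, (N t : ℂ) * z t + ν ≠ 0) : facM N ν ∈ RegT z := by
  have h0 : algebraMap _ (FractionRing (MvPolynomial T ℂ)) (linT N ν) ≠ 0 := by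
    rw [Ne, IsFractionRing.to_map_eq_zero_iff]
    exact linT_ne N ν hν
  refine ⟨1, linT N ν, ?_, ?_⟩
  · rw [eval_linT]
    exact h
  · rw [facM, map_one, mul_one_div, div_self h0]

theorem intT_mem (z : T → ℂ) (n : ℤ) : (n : FractionRing (MvPolynomial T ℂ)) ∈ RegT z :=
  intCast_mem _ n

/-- **The polar locus of the topological zeta function of a tuple of powers.** -/
theorem tup_full (h : IsoForm F d) (a : T → ℕ) (Z : FractionRing (MvPolynomial T ℂ))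
    (hZ : TupIso F a Z) (z : T → ℂ) (hz : z ∈ Polar Z) (ha : ∃ t, a t ≠ 0) :
    ∃ (N : T → ℕ) (ν : ℕ), (∃ t, N t ≠ 0) ∧ 1 ≤ ν ∧ ∑ t, (N t : ℂ) * z t + ν = 0 ∧
      ∀ n : T → ℕ, (∀ t, 0 < n t) → ∀ b : Polynomial ℂ,
        IsBFunction (∏ t, (F ^ a t) ^ n t) b →
          b.eval (-(ν : ℂ) / ∑ t, (n t : ℂ) * (N t : ℂ)) = 0 := by
  obtain ⟨t₀, ht₀⟩ := ha
  have hprod : ∀ n : T → ℕ, ∏ t, (F ^ a t) ^ n t = F ^ (∑ t, n t * a t) := by
    intro n
    rw [Finset.prod_congr rfl fun t _ => (pow_mul F (a t) (n t)).symm, Finset.prod_pow_eq_pow_sum]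
    congr 1
    exact Finset.sum_congr rfl fun t _ => mul_comm _ _
  have hpos : ∀ n : T → ℕ, (∀ t, 0 < n t) → 0 < ∑ t, n t * a t := by
    intro n hn
    have h1 : n t₀ * a t₀ ≤ ∑ t, n t * a t := Finset.single_le_sum (f := fun t => n t * a t)
      (fun _ _ => Nat.zero_le _) (Finset.mem_univ t₀)
    have := Nat.mul_pos (hn t₀) (Nat.pos_of_ne_zero ht₀)
    omega
  have hsum : ∀ (n : T → ℕ) (k : ℕ), ∑ t, (n t : ℂ) * ((a t * k : ℕ) : ℂ) =
      (((∑ t, n t * a t) * k : ℕ) : ℂ) := by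
    intro n k
    push_cast
    rw [Finset.sum_mul]
    exact Finset.sum_congr rfl fun t _ => by ring
  by_contra hcon
  push Not at hcon
  apply not_polar _ hz
  have h1 : facM a 1 ∈ RegT z := by
    refine facM_mem le_rfl fun h0 => ?_
    obtain ⟨n, hn, b, hb, hne⟩ := hcon a 1 ⟨t₀, ht₀⟩ le_rfl h0
    rw [hprod] at hb
    apply hne
    have := root_unit h _ (hpos n hn) b hb
    have e := hsum n 1
    simp only [mul_one] at e
    rw [e]
    push_cast
    push_cast at this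
    exact this
  have hsumm : ∀ Y, TupSum F a Y → Y ∈ RegT z := by
    rintro Y ⟨S, w, D, A, B, c₀, c₁, hS, rfl⟩
    refine (RegT z).add_mem ((RegT z).add_mem (intT_mem _ _) ((RegT z).mul_mem (intT_mem _ _) h1))
      (Subring.sum_mem _ fun p hpS => (RegT z).mul_mem ?_
        ((RegT z).add_mem (intT_mem _ _) ((RegT z).mul_mem (intT_mem _ _) h1)))
    have hD := (hS p hpS).2.2.2.1
    refine facM_mem (sum_pos' h p _ _ (hS p hpS)) fun h0 => ?_
    obtain ⟨n, hn, b, hb, hne⟩ := hcon (fun t => a t * D p) (∑ i, w p i)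
      ⟨t₀, (Nat.mul_pos (Nat.pos_of_ne_zero ht₀) hD).ne'⟩ (sum_pos' h p _ _ (hS p hpS)) h0
    rw [hprod] at hb
    apply hne
    rw [hsum n (D p)]
    exact root_pt h _ (hpos n hn) b hb p _ _ (hS p hpS)
  have hgr : ∃ (β : Fin (m + 1) → ℕ) (D : ℕ), Grading F β D ∧ 1 ≤ ∑ i, β i ∧
      ∑ t, ((a t * D : ℕ) : ℂ) * z t + ((∑ i, β i : ℕ) : ℂ) ≠ 0 := by
    have hposβ : ∀ (β : Fin (m + 1) → ℕ) (D : ℕ), Grading F β D → 1 ≤ ∑ i, β i := by
      intro β D hg
      have h2 := Finset.single_le_sum (f := β) (fun _ _ => Nat.zero_le _) (Finset.mem_univ 0)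
      have := hg.1 0
      omega
    by_cases h0 : ∑ t, ((a t * d : ℕ) : ℂ) * z t + ((m + 1 : ℕ) : ℂ) = 0
    · by_cases hL : NoTrace F
      · exfalso
        obtain ⟨n, hn, b, hb, hne⟩ := hcon (fun t => a t * d) (m + 1)
          ⟨t₀, (Nat.mul_pos (Nat.pos_of_ne_zero ht₀) h.hd).ne'⟩ (by omega) h0
        rw [hprod] at hb
        apply hne
        rw [hsum n d, mul_comm _ d]
        have := root_main h hL _ (hpos n hn) b hb
        push_cast at this ⊢
        exact this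
      · obtain ⟨β, N, hN, hg, hne'⟩ := exists_grading h.hF h.hd hL
        refine ⟨β, N * d, hg, hposβ _ _ hg, fun h1 => hne' ?_⟩
        have h2 : ∑ t, ((a t * (N * d) : ℕ) : ℂ) * z t =
            (N : ℂ) * ∑ t, ((a t * d : ℕ) : ℂ) * z t := by
          rw [Finset.mul_sum]
          refine Finset.sum_congr rfl fun t _ => ?_
          push_cast
          ring
        have h3 : ((∑ i, β i : ℕ) : ℂ) = ((N * (m + 1) : ℕ) : ℂ) := by
          rw [h2] at h1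
          push_cast at h0 h1 ⊢
          linear_combination h1 - (N : ℂ) * h0
        exact_mod_cast h3
    · refine ⟨fun _ => 1, d, grading_std h.hF h.hd, hposβ _ _ (grading_std h.hF h.hd), ?_⟩
      simpa using h0
  obtain ⟨β, D, hg, hβ1, hβ⟩ := hgr
  obtain ⟨Y, Y', hY, hY', rfl⟩ := hZ β D hg
  exact (RegT z).add_mem (hsumm Y hY) ((RegT z).mul_mem (facM_mem hβ1 hβ) (hsumm Y' hY'))

end Tuple

end Pool.Agent.U739.IS
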